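import Pool.Agent.Lib.MP_06caae_pr.Q.AsmT

/-!
# Assembly: the same with time `n` and spatial scale `a (cbrt n)`
-/

open Finset MeasureTheory

namespace Pool.Agent.Lib.IICQ

/-- the integer cube root -/
def cbrt (n : ℕ) : ℕ := Nat.findGreatest (fun k => k ^ 3 ≤ n) n

theorem cbrt_pow_le (n : ℕ) : cbrt n ^ 3 ≤ n := by
  have h := Nat.findGreatest_spec (P := fun k => k ^ 3 ≤ n) (Nat.zero_le n) (by simp)
  exact h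

theorem lt_cbrt_succ (n : ℕ) : n < (cbrt n + 1) ^ 3 := by
  by_contra h
  push Not at h
  have h1 : cbrt n + 1 ≤ n := by
    have h2 : cbrt n + 1 ≤ (cbrt n + 1) ^ 3 := Nat.le_self_pow (by norm_num) _
    omega
  have h3 := Nat.le_findGreatest (P := fun k => k ^ 3 ≤ n) h1 h
  have h4 : cbrt n + 1 ≤ cbrt n := h3
  omega

theorem le_cbrt {R n : ℕ} (h : R ^ 3 ≤ n) : R ≤ cbrt n := by
  by_contra h1
  push Not at h1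
  have h2 : (cbrt n + 1) ^ 3 ≤ R ^ 3 := Nat.pow_le_pow_left h1 3
  have := lt_cbrt_succ n
  omega

theorem le_eight_cbrt {n : ℕ} (h : 1 ≤ n) : n ≤ 8 * cbrt n ^ 3 := by
  have h1 : 1 ≤ cbrt n := le_cbrt (by simpa using h)
  have h2 := lt_cbrt_succ n
  have h3 : (cbrt n + 1) ^ 3 ≤ (2 * cbrt n) ^ 3 := Nat.pow_le_pow_left (by omega) 3
  have h4 : (2 * cbrt n) ^ 3 = 8 * cbrt n ^ 3 := by ring
  omega

variable {V : Type*} [DecidableEq V] [Countable V] [MeasurableSpace V] [DiscreteMeasurableSpace V] {Ω : Type*}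
  [MeasurableSpace Ω] (𝓔 : Env V Ω)

/-- tightness, time `n` -/
theorem EnvGood.tight' (h : EnvGood 𝓔) (m : ℕ) {ε η : ℝ} (hε : 0 < ε) (hη : 0 < η) : ∃ δ > (0 : ℝ), ∃ n0 : ℕ, ∀ n ≥ n0,
    𝓔.Pa.real {w | ∃ i k, i ≤ k ∧ k ≤ m * n ∧ ((k - i : ℕ) : ℝ) ≤ δ * n ∧ η * 𝓔.a (cbrt n) < 𝓔.D (w i) (w k)} ≤ ε := by
  obtain ⟨δ, hδ, R0, hR0⟩ := h.tight 𝓔 (8 * m) hε hη
  have := 𝓔.pa_prob
  refine ⟨δ / 8, by positivity, R0 ^ 3 + 1, fun n hn => ?_⟩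
  have h1 := hR0 (cbrt n) (le_cbrt (by omega)) ⌊δ * (cbrt n : ℝ) ^ 3⌋₊ (Nat.floor_le (by positivity))
  refine (measureReal_mono ?_).trans h1
  have h8 := le_eight_cbrt (show 1 ≤ n by omega)
  rintro w ⟨i, k, hik, hk, hki, hD⟩
  refine ⟨i, k, hik, ?_, ?_, hD⟩
  · calc k ≤ m * n := hk
      _ ≤ m * (8 * cbrt n ^ 3) := Nat.mul_le_mul_left _ h8
      _ = 8 * m * cbrt n ^ 3 := by ring
  · refine Nat.le_floor (hki.trans ?_)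
    have h9 : (n : ℝ) ≤ 8 * (cbrt n : ℝ) ^ 3 := by exact_mod_cast h8
    calc δ / 8 * (n : ℝ) ≤ δ / 8 * (8 * (cbrt n : ℝ) ^ 3) := mul_le_mul_of_nonneg_left h9 (by positivity)
      _ = δ * (cbrt n : ℝ) ^ 3 := by ring

/-- nondegeneracy, time `n` -/
theorem EnvGood.nondeg' (h : EnvGood 𝓔) : ∃ c > (0 : ℝ), ∃ p > (0 : ℝ), ∃ m n0 : ℕ, ∀ n ≥ n0,
    p ≤ 𝓔.Pa.real {w | ∃ k ≤ m * n, c * 𝓔.a (cbrt n) ≤ 𝓔.D 𝓔.o (w k)} := by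
  obtain ⟨c, hc, p, hp, m, R0, hR0⟩ := h.nondeg
  have := 𝓔.pa_prob
  refine ⟨c, hc, p, hp, m, R0 ^ 3, fun n hn => (hR0 (cbrt n) (le_cbrt hn)).trans (measureReal_mono ?_)⟩
  rintro w ⟨k, hk, hD⟩
  exact ⟨k, hk.trans (Nat.mul_le_mul_left _ (cbrt_pow_le n)), hD⟩

end Pool.Agent.Lib.IICQ
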