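import Pool.Agent.Lib.MP_06caae_pr.Q.GrS
import Pool.Agent.Lib.MP_06caae_pr.Q.AsmN

/-!
# From the percolation estimates for the IIC to `EnvGood`

`IICGood ν a`: what the percolation part delivers for the IIC `ν` and the extrinsic scale `a`.
-/

open Finset SimpleGraph MeasureTheory
open Pool.Agent.Lib.MP_566bac_pr.Zd
open Pool.Agent.Lib.IICQ

namespace Pool.Agent.Lib.MP_06caae_pr

variable {d : ℕ}

/-- the percolation estimates -/
structure IICGood [MeasurableSpace (Set (Ed d))] (ν : Measure (Set (Ed d))) (a : ℕ → ℝ) : Prop where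
  deg : ν.real {S | sph S (0 : V d) 1 = ∅} = 0
  up : ∀ ε > (0 : ℝ), ∃ C : ℝ, ∃ R0 : ℕ, ∀ R ≥ R0, ν.real {S | C * (R : ℝ) ^ 2 < (vol S (0 : V d) R : ℝ)} ≤ ε
  low : ∀ (lam q : ℕ), 1 ≤ lam → 1 ≤ q → ∀ ε > (0 : ℝ), ∃ v : ℝ, 0 < v ∧ ∃ R0 : ℕ, ∀ R ≥ R0,
    ν.real {S | ∃ z ∈ ball S (0 : V d) (lam * R), (vol S z (R / q) : ℝ) < v * (R : ℝ) ^ 2} ≤ ε
  lane : ∀ (lam q : ℕ), 1 ≤ lam → 1 ≤ q → ∀ ε > (0 : ℝ), ∃ M : ℝ, ∃ R0 : ℕ, ∀ R ≥ R0,
    ν.real {S | ∃ z ∈ ball S (0 : V d) (lam * R), ∀ y ∈ ball S z (R / q / 4),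
      M * ((R / q : ℕ) : ℝ) < (laneS S y (R / q) : ℝ)} ≤ ε
  lane0 : ∀ ε > (0 : ℝ), ∃ M : ℝ, ∃ R0 : ℕ, ∀ R ≥ R0, ν.real {S | M * (R : ℝ) < (laneS S (0 : V d) R : ℝ)} ≤ ε
  ext : ∀ (lam : ℕ), 1 ≤ lam → ∀ η > (0 : ℝ), ∀ ε > (0 : ℝ), ∃ q : ℕ, 1 ≤ q ∧ ∃ R0 : ℕ, ∀ R ≥ R0,
    ν.real {S | ∃ z ∈ ball S (0 : V d) (lam * R), η * a R < (rad S z (R / q) : ℝ)} ≤ ε
  far : ∃ C : ℕ, ∃ c > (0 : ℝ), ∃ p > (0 : ℝ), ∃ R0 : ℕ, ∀ R ≥ R0,
    p ≤ ν.real {S | c * a R ≤ (rad S (0 : V d) (C * R) : ℝ)}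

lemma nb_empty_iff {S : Set (Ed d)} {x : V d} : (grS S).nb x = ∅ ↔ sph S x 1 = ∅ := by
  constructor
  · intro h
    by_contra hne
    obtain ⟨y, hy⟩ := nonempty_iff_ne_empty.2 hne
    obtain ⟨h1, h2⟩ := mem_sph_succ.1 (show y ∈ sph S x (0 + 1) from hy)
    rcases rch_succ.1 h1 with h3 | ⟨z, hz, hzy⟩
    · exact h2 (h3 ▸ Rch.refl _ _ _)
    · rw [rch_zero] at hz
      subst hz
      have h4 : y ∈ (grS S).nb x := mem_nb.2 hzy
      rw [h] at h4
      exact absurd h4 (notMem_empty _)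
  · intro h
    by_contra hne
    obtain ⟨y, hy⟩ := nonempty_iff_ne_empty.2 hne
    have h1 := mem_nb.1 hy
    have h2 : y ∈ sph S x (0 + 1) := by
      rw [mem_sph_succ]
      refine ⟨Rch.step h1.1 h1.2, fun h3 => ?_⟩
      rw [rch_zero] at h3
      subst h3
      exact (lattice d).loopless.irrefl x h1.1
    rw [zero_add, h] at h2
    exact absurd h2 (notMem_empty _)

lemma dst_le_rad {S : Set (Ed d)} {z y : V d} {n : ℕ} (h : y ∈ ball S z n) : dst z y ≤ rad S z n :=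
  le_sup (f := fun y => dst z y) h

lemma exists_rad (S : Set (Ed d)) (z : V d) (n : ℕ) : ∃ y ∈ ball S z n, dst z y = rad S z n := by
  obtain ⟨y, hy, h⟩ := exists_mem_eq_sup (ball S z n) ⟨z, self_mem_ball S z n⟩ fun y => dst z y
  exact ⟨y, hy, h.symm⟩


/-- the environment `Env` of the walk on the IIC -/
noncomputable def envS [MeasurableSpace (Set (Ed d))] (ν : Measure (Set (Ed d))) (hν : IsProbabilityMeasure ν)
    (P : Set (Ed d) → V d → Measure (ℕ → V d)) (Pa : Measure (ℕ → V d)) (a : ℕ → ℝ) (ha : ∀ R, 0 ≤ a R)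
    (hP : ∀ S, IsRW (grS S) (P S)) (hm : ∀ A, MeasurableSet A → Measurable fun S => P S 0 A)
    (hA : ∀ A, MeasurableSet A → Pa A = ∫⁻ S, P S 0 A ∂ν) : Env (V d) (Set (Ed d)) where
  ν := ν
  gr := grS
  P := P
  o := 0
  Pa := Pa
  D x y := dst x y
  a := a
  prob := hν
  rw := hP
  meas := hm
  ann := hA
  symm x y := by rw [dst_comm]
  tri x y z := by exact_mod_cast dst_tri x y z
  apos := ha

theorem envGood [MeasurableSpace (Set (Ed d))] {ν : Measure (Set (Ed d))} (hν : IsProbabilityMeasure ν)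
    {P : Set (Ed d) → V d → Measure (ℕ → V d)} {Pa : Measure (ℕ → V d)} {a : ℕ → ℝ} (ha : ∀ R, 0 ≤ a R)
    (hP : ∀ S, IsRW (grS S) (P S)) (hm : ∀ A, MeasurableSet A → Measurable fun S => P S 0 A)
    (hA : ∀ A, MeasurableSet A → Pa A = ∫⁻ S, P S 0 A ∂ν) (h : IICGood ν a) :
    EnvGood (envS ν hν P Pa a ha hP hm hA) := by
  have hν' : IsProbabilityMeasure (envS ν hν P Pa a ha hP hm hA).ν := hν
  have hdeg : ν.real {S | (grS S).nb (0 : V d) = ∅} = 0 := by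
    have : {S : Set (Ed d) | (grS S).nb (0 : V d) = ∅} = {S | sph S (0 : V d) 1 = ∅} := by
      ext S
      exact nb_empty_iff
    rw [this]
    exact h.deg
  refine ⟨hdeg, ?_, ?_, ?_, ?_, ?_, ?_⟩
  · -- up
    intro ε hε
    obtain ⟨C, R0, hR0⟩ := h.up ε hε
    refine ⟨2 * d * C, R0, fun R hR => le_trans (measureReal_mono ?_) (hR0 R hR)⟩
    intro S hS
    have h1 : 2 * d * C * (R : ℝ) ^ 2 < (grS S).vol ((grS S).bl 0 R) := hS
    have h2 := gvol_le S 0 R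
    show C * (R : ℝ) ^ 2 < (vol S (0 : V d) R : ℝ)
    by_contra hcon
    push Not at hcon
    have h3 : 2 * (d : ℝ) * (vol S (0 : V d) R : ℝ) ≤ 2 * d * (C * (R : ℝ) ^ 2) :=
      mul_le_mul_of_nonneg_left hcon (by positivity)
    linarith
  · -- low
    intro lam q hlam hq ε hε
    obtain ⟨v, hv, R0, hR0⟩ := h.low lam (q * 2) hlam (by omega) ε hε
    refine ⟨v, hv, R0 + 2 * q, fun R hR => ?_⟩
    have h1 := hR0 R (by omega)
    have h2 : {S : Set (Ed d) | ∃ z ∈ (grS S).bl 0 (lam * R), (grS S).vol ((grS S).bl z (R / q)) < v * (R : ℝ) ^ 2} ⊆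
        {S | (grS S).nb (0 : V d) = ∅} ∪
          {S | ∃ z ∈ ball S (0 : V d) (lam * R), (vol S z (R / (q * 2)) : ℝ) < v * (R : ℝ) ^ 2} := by
      rintro S ⟨z, hz, hzv⟩
      by_cases h0 : (grS S).nb (0 : V d) = ∅
      · exact Or.inl h0
      · refine Or.inr ⟨z, bl_subset_ball S 0 _ hz, lt_of_le_of_lt ?_ hzv⟩
        have h3 : R / (q * 2) + 1 ≤ R / q := by
          rw [← Nat.div_div_eq_div_mul]
          have : 2 ≤ R / q := by
            rw [Nat.le_div_iff_mul_le (by omega)]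
            omega
          omega
        refine (le_gvol fun x hx => ?_).trans (Gr.vol_mono ((grS S).bl_mono z h3))
        have h4 : 1 ≤ lam * R := Nat.mul_pos (by omega) (by omega)
        obtain ⟨N, hN⟩ : ∃ N, lam * R = N + 1 := ⟨lam * R - 1, by omega⟩
        rw [hN] at hz
        exact Gr.nonempty_of_mem (nonempty_iff_ne_empty.2 h0) ((grS S).bl_trans hz hx)
    refine (measureReal_mono h2).trans ((measureReal_union_le _ _).trans ?_)
    show ν.real {S | (grS S).nb (0 : V d) = ∅} + ν.real _ ≤ ε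
    rw [hdeg, zero_add]
    exact h1
  · -- cut
    intro lam q hlam hq ε hε
    obtain ⟨M, R0, hR0⟩ := h.lane lam (q * 2) hlam (by omega) ε hε
    refine ⟨512 * d * q * |M|, R0 + 16 * q, fun R hR => le_trans (measureReal_mono ?_) (hR0 R (by omega))⟩
    rintro S ⟨z, hz, hzf⟩
    refine ⟨z, bl_subset_ball S 0 _ hz, fun y hy => ?_⟩
    by_contra hcon
    push Not at hcon
    have hr8 : 8 ≤ R / (q * 2) := by
      rw [Nat.le_div_iff_mul_le (by omega)]
      omega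
    have h2r : 2 * (R / (q * 2)) ≤ R / q := by
      rw [← Nat.div_div_eq_div_mul]
      omega
    have hr0 : (0 : ℝ) < ((R / (q * 2) : ℕ) : ℝ) := by
      have : 0 < R / (q * 2) := by omega
      exact_mod_cast this
    have hM : (laneS S y (R / (q * 2)) : ℝ) ≤ |M| * ((R / (q * 2) : ℕ) : ℝ) :=
      hcon.trans (mul_le_mul_of_nonneg_right (le_abs_self M) hr0.le)
    obtain ⟨f, f1, f2, f3, f4⟩ := cut_or_bad hr8 h2r ⟨y, hy, hM⟩
    refine hzf ⟨f, f1, f2, f3, f4.trans ?_⟩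
    have hR1 : (0 : ℝ) < R := by
      have : 0 < R := by omega
      exact_mod_cast this
    have h5 : (R : ℝ) ≤ 4 * q * ((R / (q * 2) : ℕ) : ℝ) := by
      have h6 : R < (R / (q * 2) + 1) * (q * 2) := by
        have e1 := Nat.div_add_mod R (q * 2)
        have e2 := Nat.mod_lt R (show 0 < q * 2 by omega)
        nlinarith
      have h7 : (R / (q * 2) + 1) * (q * 2) ≤ 4 * q * (R / (q * 2)) := by nlinarith
      exact_mod_cast h6.le.trans h7
    rw [div_le_div_iff₀ hr0 hR1]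
    calc 128 * (d : ℝ) * |M| * R ≤ 128 * d * |M| * (4 * q * ((R / (q * 2) : ℕ) : ℝ)) :=
          mul_le_mul_of_nonneg_left h5 (by positivity)
      _ = 512 * d * q * |M| * ((R / (q * 2) : ℕ) : ℝ) := by ring
  · -- plat
    intro ε hε
    obtain ⟨M, R0, hR0⟩ := h.lane0 ε hε
    refine ⟨128 * d * M, R0 + 8, fun R hR => le_trans (measureReal_mono ?_) (hR0 R (by omega))⟩
    intro S hS
    by_contra hcon
    exact hS (plateau (by omega) (not_lt.1 hcon))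
  · -- ext
    intro lam hlam η hη ε hε
    obtain ⟨q, hq, R0, hR0⟩ := h.ext lam hlam η hη ε hε
    refine ⟨q, hq, R0, fun R hR => le_trans (measureReal_mono ?_) (hR0 R hR)⟩
    rintro S ⟨z, hz, y, hy, hyD⟩
    refine ⟨z, bl_subset_ball S 0 _ hz, lt_of_lt_of_le hyD ?_⟩
    have h1 : y ∈ ball S z (R / q) := by
      rw [← bl_eq_ball]
      exact hy
    show (dst z y : ℝ) ≤ (rad S z (R / q) : ℝ)
    exact_mod_cast dst_le_rad h1
  · -- far
    obtain ⟨C, c, hc, p, hp, R0, hR0⟩ := h.far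
    refine ⟨C + 1, by omega, c, hc, p, hp, R0 + 1, fun R hR => (hR0 R (by omega)).trans ?_⟩
    refine measureReal_mono ?_
    intro S hS
    obtain ⟨y, hy, hyr⟩ := exists_rad S (0 : V d) (C * R)
    refine ⟨y, ?_, ?_⟩
    · have h1 : y ∈ (grS S).bl 0 (C * R + 1) := by rw [bl_eq_ball]; exact hy
      exact (grS S).bl_mono 0 (by nlinarith) h1
    · show c * a R ≤ (dst (0 : V d) y : ℝ)
      rw [hyr]
      exact hS

end Pool.Agent.Lib.MP_06caae_pr
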