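import Pool.Agent.Lib.MP_06caae_pr.Q.AsmN

/-!
# Nondegeneracy on every time interval, for a scale with doubling
-/

open Finset MeasureTheory

namespace Pool.Agent.Lib.IICQ

theorem cbrt_le_mul {J n n' : ℕ} (h1 : 1 ≤ n') (h : n ≤ 8 ^ J * n') : cbrt n ≤ 2 ^ (J + 1) * cbrt n' := by
  have h2 : 1 ≤ cbrt n' := le_cbrt (by simpa using h1)
  have h3 := cbrt_pow_le n
  have h4 := lt_cbrt_succ n'
  have h5 : cbrt n ^ 3 ≤ (2 ^ (J + 1) * cbrt n') ^ 3 := by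
    calc cbrt n ^ 3 ≤ 8 ^ J * n' := h3.trans h
      _ ≤ 8 ^ J * (cbrt n' + 1) ^ 3 := Nat.mul_le_mul_left _ h4.le
      _ ≤ 8 ^ J * (2 * cbrt n') ^ 3 := Nat.mul_le_mul_left _ (Nat.pow_le_pow_left (by omega) 3)
      _ = (2 ^ (J + 1) * cbrt n') ^ 3 := by
        rw [show (8 : ℕ) = 2 ^ 3 by norm_num, ← pow_mul]
        ring
  exact (Nat.pow_le_pow_iff_left (by norm_num)).1 h5

variable {V : Type*} [DecidableEq V] [Countable V] [MeasurableSpace V] [DiscreteMeasurableSpace V] {Ω : Type*}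
  [MeasurableSpace Ω] (𝓔 : Env V Ω)

/-- nondegeneracy on every time interval `[0, t]` -/
theorem EnvGood.nondeg_all (h : EnvGood 𝓔) (hmono : Monotone 𝓔.a) {K : ℝ} (hK : 0 < K)
    (hdbl : ∀ r : ℕ, 1 ≤ r → 𝓔.a (2 * r) ≤ K * 𝓔.a r) : ∃ p > (0 : ℝ), ∀ t > (0 : ℝ), ∃ c > (0 : ℝ), ∃ n0 : ℕ,
    ∀ n ≥ n0, p ≤ 𝓔.Pa.real {w | ∃ k : ℕ, (k : ℝ) ≤ t * n ∧ c * 𝓔.a (cbrt n) ≤ 𝓔.D 𝓔.o (w k)} := by
  obtain ⟨c, hc, p, hp, m, n0, hn0⟩ := h.nondeg'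
  have := 𝓔.pa_prob
  have hiter : ∀ (j r : ℕ), 1 ≤ r → 𝓔.a (2 ^ j * r) ≤ K ^ j * 𝓔.a r := by
    intro j
    induction j with
    | zero => intro r _; rw [pow_zero, pow_zero, one_mul, one_mul]
    | succ j ih =>
      intro r hr
      have h1 := ih (2 * r) (by omega)
      calc 𝓔.a (2 ^ (j + 1) * r) = 𝓔.a (2 ^ j * (2 * r)) := by congr 1; ring
        _ ≤ K ^ j * 𝓔.a (2 * r) := h1
        _ ≤ K ^ j * (K * 𝓔.a r) := mul_le_mul_of_nonneg_left (hdbl r hr) (by positivity)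
        _ = K ^ (j + 1) * 𝓔.a r := by ring
  refine ⟨p, hp, fun t ht => ?_⟩
  obtain ⟨J, hJ⟩ : ∃ J : ℕ, (m : ℝ) ≤ t * 8 ^ J := by
    obtain ⟨J, hJ⟩ := pow_unbounded_of_one_lt ((m : ℝ) / t) (show (1 : ℝ) < 8 by norm_num)
    refine ⟨J, ?_⟩
    rw [div_lt_iff₀ ht] at hJ
    linarith
  refine ⟨c / K ^ (J + 2), by positivity, 8 ^ J * max n0 1, fun n hn => ?_⟩
  have h8 : 0 < 8 ^ J := by positivity
  obtain ⟨n', hn'⟩ : ∃ n', n' = n / 8 ^ J := ⟨_, rfl⟩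
  have h1 : max n0 1 ≤ n' := by
    rw [hn', Nat.le_div_iff_mul_le h8, mul_comm]
    exact hn
  have h1' : 1 ≤ n' := (le_max_right _ _).trans h1
  have h2 : 8 ^ J * n' ≤ n := by rw [hn']; exact Nat.mul_div_le n _
  have h3 : n ≤ 8 ^ (J + 1) * n' := by
    have h4 : n < 8 ^ J * (n / 8 ^ J + 1) := Nat.lt_mul_div_succ n h8
    rw [← hn'] at h4
    calc n ≤ 8 ^ J * (n' + 1) := h4.le
      _ ≤ 8 ^ J * (8 * n') := Nat.mul_le_mul_left _ (by omega)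
      _ = 8 ^ (J + 1) * n' := by ring
  have h4 : cbrt n ≤ 2 ^ (J + 2) * cbrt n' := cbrt_le_mul h1' h3
  have h5 : 1 ≤ cbrt n' := le_cbrt (by simpa using h1')
  have h6 : 𝓔.a (cbrt n) ≤ K ^ (J + 2) * 𝓔.a (cbrt n') := (hmono h4).trans (hiter _ _ h5)
  refine (hn0 n' ((le_max_left _ _).trans h1)).trans (measureReal_mono ?_ (measure_ne_top _ _))
  rintro w ⟨k, hk, hD⟩
  refine ⟨k, ?_, le_trans ?_ hD⟩
  · have h7 : (k : ℝ) ≤ m * n' := by exact_mod_cast hk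
    have h9 : (8 : ℝ) ^ J * n' ≤ n := by exact_mod_cast h2
    calc (k : ℝ) ≤ m * n' := h7
      _ ≤ t * 8 ^ J * n' := mul_le_mul_of_nonneg_right hJ (Nat.cast_nonneg _)
      _ = t * (8 ^ J * n') := by ring
      _ ≤ t * n := mul_le_mul_of_nonneg_left h9 ht.le
  · calc c / K ^ (J + 2) * 𝓔.a (cbrt n) ≤ c / K ^ (J + 2) * (K ^ (J + 2) * 𝓔.a (cbrt n')) :=
          mul_le_mul_of_nonneg_left h6 (by positivity)
      _ = c * 𝓔.a (cbrt n') := by field_simp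

end Pool.Agent.Lib.IICQ
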