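import Pool.Agent.Lib.MP_06caae_pr.Q.AsmD

/-!
# Nondegeneracy with probability close to one

If the ball reaches the extrinsic scale with probability close to one, then so does the walk.
-/

open Finset MeasureTheory

namespace Pool.Agent.Lib.IICQ

section

variable {V : Type*} [DecidableEq V] (G : Gr V)

theorem pow_le_exp (T j : ℕ) (hT : 2 ≤ T) : (1 - 1 / (T : ℝ)) ^ (j * T) ≤ Real.exp (-(j : ℝ)) := by
  have hT0 : (2 : ℝ) ≤ T := by exact_mod_cast hT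
  have h1 : 1 - 1 / (T : ℝ) ≤ Real.exp (-(1 / (T : ℝ))) := by
    have := Real.add_one_le_exp (-(1 / (T : ℝ)))
    linarith
  have h1T : 1 / (T : ℝ) ≤ 1 / 2 := one_div_le_one_div_of_le (by norm_num) hT0
  have h2 : (1 - 1 / (T : ℝ)) ^ (j * T) ≤ Real.exp (-(1 / (T : ℝ))) ^ (j * T) :=
    pow_le_pow_left₀ (by linarith) h1 _
  rw [← Real.exp_nat_mul] at h2
  have h3 : ((j * T : ℕ) : ℝ) * -(1 / (T : ℝ)) = -j := by
    push_cast
    field_simp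
  rw [h3] at h2
  exact h2

/-- the hitting estimate, with probability close to one -/
theorem Gr.hit_ge' {B C : Finset V} (hBC : B ⊆ C) (hC : ∀ x ∈ B, G.nb x ⊆ C)
    (hd : ∀ x ∈ B, (G.nb x).Nonempty) {y z : V} (hy : y ∈ B) (R T j : ℕ) (hT : 2 ≤ T) (hR : G.bl z R ⊆ B)
    (hyz : y ∈ G.bl z (R + 1)) (f : V → ℝ) (hfy : f y = 1)
    (hf0 : ∀ x, x ∉ B → f x = 0) (hf1 : ∀ x, |f x| ≤ 1) {δ : ℝ} (hδ : 0 < δ)
    (hE : 4 * R * (G.en C f f + G.vol B / T) ≤ δ ^ 2) :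
    1 - δ - Real.exp (-(j : ℝ)) ≤ G.hit y (j * T) z := by
  have hT0 : (2 : ℝ) ≤ T := by exact_mod_cast hT
  have h1T : 1 / (T : ℝ) ≤ 1 / 2 := one_div_le_one_div_of_le (by norm_num) hT0
  have h1T0 : 0 < 1 / (T : ℝ) := by positivity
  obtain ⟨s, hs⟩ : ∃ s : ℝ, s = 1 - 1 / (T : ℝ) := ⟨_, rfl⟩
  have hs0 : 1 / 2 ≤ s := by linarith
  have hs1 : s < 1 := by linarith
  have hs0' : 0 ≤ s := by linarith
  obtain ⟨g, hg0, hg1, hg2⟩ := G.green hs0' hs1 hd y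
  have h1 := G.green_ge hs0' hs1 hBC hC hy hg0 hg1 f hfy hf0 hf1
  have hE0 := G.en_nonneg C f
  have hv0 : 0 ≤ G.vol B := sum_nonneg fun x _ => G.dg_nonneg x
  have h2 : s * G.en C f f + (1 - s) * G.vol B ≤ G.en C f f + G.vol B / T := by
    have h3 : (1 - s) * G.vol B = G.vol B / T := by rw [hs]; ring
    rw [h3]
    have : s * G.en C f f ≤ 1 * G.en C f f := mul_le_mul_of_nonneg_right hs1.le hE0
    linarith
  have h3 : 1 ≤ g y * (G.en C f f + G.vol B / T) := h1.trans (mul_le_mul_of_nonneg_left h2 (hg2 y))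
  have hgy : 0 < g y := by
    by_contra h
    push Not at h
    have : g y = 0 := le_antisymm h (hg2 y)
    rw [this, zero_mul] at h3
    linarith
  have h4 : 4 * R ≤ g y * δ ^ 2 := by
    calc (4 * R : ℝ) = 4 * R * 1 := by ring
      _ ≤ 4 * R * (g y * (G.en C f f + G.vol B / T)) := mul_le_mul_of_nonneg_left h3 (by positivity)
      _ = g y * (4 * R * (G.en C f f + G.vol B / T)) := by ring
      _ ≤ g y * δ ^ 2 := mul_le_mul_of_nonneg_left hE hgy.le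
  have h5 : g y = s * G.en C g g + (1 - s) * ∑ x ∈ B, G.dg x * (g x * g x) := by
    rw [← G.pair hBC hC s g g hg0, sum_congr rfl fun x hx => by rw [hg1 x hx]]
    simp only [mul_ite, mul_one, mul_zero]
    rw [sum_ite_eq' B y]
    rw [if_pos hy]
  have h6 : G.en C g g ≤ 2 * g y := by
    have h7 : 0 ≤ (1 - s) * ∑ x ∈ B, G.dg x * (g x * g x) :=
      mul_nonneg (by linarith) (sum_nonneg fun x _ => mul_nonneg (G.dg_nonneg x) (mul_self_nonneg _))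
    have h8 := G.en_nonneg C g
    nlinarith
  have h7 := G.osc_en g z R (hR.trans hBC) (fun x hx => hC x (hR hx)) hyz
  have h8 : (g z - g y) ^ 2 ≤ (g y * δ) ^ 2 := by
    have h9 : 2 * (R : ℝ) * G.en C g g ≤ 2 * R * (2 * g y) := mul_le_mul_of_nonneg_left h6 (by positivity)
    have h10 : 4 * R * g y ≤ g y * δ ^ 2 * g y := mul_le_mul_of_nonneg_right h4 hgy.le
    nlinarith
  have h9 : g y - g z ≤ g y * δ := by
    have h10 := abs_le.1 (abs_le_of_sq_le_sq h8 (by positivity))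
    linarith [h10.1, h10.2]
  have h10 := G.v_le_hit hs0' (B := B) (y := y) (v := fun x => g x / g y) (fun x hx => by simp only [hg0 x hx, zero_div])
    (fun x hx hxy => by
      have h11 := hg1 x hx
      rw [if_neg hxy, G.L_eq_zero_iff (hd x hx)] at h11
      show g x / g y = s * G.av (fun x => g x / g y) x
      have h12 : G.av (fun x => g x / g y) x = G.av g x / g y := by
        have := G.av_smul (g y)⁻¹ g x
        simp only [div_eq_inv_mul]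
        exact this
      rw [h12, h11]
      ring)
    (fun x => by
      rw [div_le_one hgy]
      exact G.le_pole hs0' hs1 hd hg0 hg1 (hg2 y) x) (j * T) z
  have h11 : 1 - δ ≤ g z / g y := by
    rw [le_div_iff₀ hgy]
    linarith
  have h12 := pow_le_exp T j hT
  rw [← hs] at h12
  linarith

/-- the walk visits a given point of the ball of radius `R` with probability close to one -/
theorem IsRW.reach' [Countable V] [MeasurableSpace V] [DiscreteMeasurableSpace V] {P : V → Measure (ℕ → V)} (h : IsRW G P)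
    {o y : V} {L R T : ℕ} (j : ℕ) (hT : 2 ≤ T) (hRL : R + 1 ≤ L) (hy : y ∈ G.bl o (R + 1))
    (hd : ∀ x ∈ G.bl o L, (G.nb x).Nonempty)
    (f : V → ℝ) (hfy : f y = 1) (hf0 : ∀ x, x ∉ G.bl o L → f x = 0) (hf1 : ∀ x, |f x| ≤ 1) {δ : ℝ} (hδ : 0 < δ)
    (hE : 4 * R * (G.en (G.bl o (L + 1)) f f + G.vol (G.bl o L) / T) ≤ δ ^ 2) :
    1 - δ - Real.exp (-(j : ℝ)) ≤ (P o).real {w | ∃ k ≤ j * T, w k = y} := by
  rw [h.hit]
  exact G.hit_ge' (G.bl_mono o (Nat.le_succ L)) (fun x hx y hy => G.nb_bl hx hy) hd (G.bl_mono o hRL hy) R T j hT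
    (G.bl_mono o (by omega)) hy f hfy hf0 hf1 hδ hE

end

section

variable {V : Type*} [DecidableEq V] [Countable V] [MeasurableSpace V] [DiscreteMeasurableSpace V] {Ω : Type*}
  [MeasurableSpace Ω] (𝓔 : Env V Ω)

/-- lower bound of an annealed probability -/
theorem Env.le_pa' {A : Set (ℕ → V)} (hA : MeasurableSet A) {b : ℝ} (hb : 0 ≤ b) {S : Set Ω}
    (h : ∀ ω ∈ S, b ≤ (𝓔.P ω 𝓔.o).real A) : b * 𝓔.ν.real S ≤ 𝓔.Pa.real A := by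
  have := 𝓔.prob
  have hPa := 𝓔.pa_prob
  set S' : Set Ω := {ω | ENNReal.ofReal b ≤ 𝓔.P ω 𝓔.o A} with hS
  have hSS : S ⊆ S' := by
    intro ω hω
    have h1 := h ω hω
    have h2 := (𝓔.rw ω).prob 𝓔.o
    have h3 : ENNReal.ofReal b ≤ 𝓔.P ω 𝓔.o A := by
      rw [← ENNReal.ofReal_toReal (measure_ne_top (𝓔.P ω 𝓔.o) A)]
      exact ENNReal.ofReal_le_ofReal h1
    exact h3
  have h1 : ENNReal.ofReal b * 𝓔.ν S' ≤ 𝓔.Pa A := by
    rw [𝓔.ann A hA]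
    exact mul_meas_ge_le_lintegral (𝓔.meas A hA) (ENNReal.ofReal b)
  have h2 : (ENNReal.ofReal b * 𝓔.ν S').toReal ≤ 𝓔.Pa.real A := ENNReal.toReal_mono (measure_ne_top _ _) h1
  have h3 : (ENNReal.ofReal b * 𝓔.ν S').toReal = b * 𝓔.ν.real S' := by
    rw [ENNReal.toReal_mul, ENNReal.toReal_ofReal hb]
    rfl
  have h4 : 𝓔.ν.real S ≤ 𝓔.ν.real S' := measureReal_mono hSS
  rw [h3] at h2
  exact (mul_le_mul_of_nonneg_left h4 hb).trans h2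

/-- nondegeneracy of the annealed walk, with probability close to one -/
theorem EnvGood.nondeg_one (h : EnvGood 𝓔) (hfar : ∀ ε > (0 : ℝ), ∃ C : ℕ, 1 ≤ C ∧ ∃ c > (0 : ℝ), ∃ R0 : ℕ, ∀ R ≥ R0,
    1 - ε ≤ 𝓔.ν.real {ω | ∃ y ∈ (𝓔.gr ω).bl 𝓔.o (C * R), c * 𝓔.a R ≤ 𝓔.D 𝓔.o y}) {q : ℝ} (hq : q < 1) :
    ∃ c > (0 : ℝ), ∃ m R0 : ℕ, ∀ R ≥ R0, q ≤ 𝓔.Pa.real {w | ∃ k ≤ m * R ^ 3, c * 𝓔.a R ≤ 𝓔.D 𝓔.o (w k)} := by
  have := 𝓔.prob
  obtain ⟨ε, hε⟩ : ∃ ε : ℝ, ε = min ((1 - q) / 8) (1 / 4) := ⟨_, rfl⟩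
  have hε0 : 0 < ε := by rw [hε]; exact lt_min (by linarith) (by norm_num)
  have hε1 : ε ≤ 1 / 4 := by rw [hε]; exact min_le_right _ _
  have hεq : 8 * ε ≤ 1 - q := by
    have : ε ≤ (1 - q) / 8 := by rw [hε]; exact min_le_left _ _
    linarith
  obtain ⟨C, hC1, c, hc, R1, h1⟩ := hfar ε hε0
  obtain ⟨κ, R2, h2⟩ := h.plat ε hε0
  obtain ⟨C2, R3, h3⟩ := h.up ε hε0
  obtain ⟨j, hj⟩ : ∃ j : ℕ, Real.exp (-(j : ℝ)) ≤ ε := by
    obtain ⟨j, hj⟩ := exists_nat_ge (1 / ε)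
    refine ⟨j, ?_⟩
    have hj0 : (0 : ℝ) < j := lt_of_lt_of_le (by positivity) hj
    rw [Real.exp_neg, inv_le_comm₀ (Real.exp_pos _) hε0]
    have h5 := Real.add_one_le_exp (j : ℝ)
    rw [one_div] at hj
    linarith
  obtain ⟨Lam, hLam⟩ : ∃ Lam : ℕ, (8 * C * |κ| : ℝ) / ε ^ 2 ≤ Lam ∧ 8 * C + 8 ≤ Lam := by
    obtain ⟨n, hn⟩ := exists_nat_ge ((8 * C * |κ| : ℝ) / ε ^ 2)
    exact ⟨n + (8 * C + 8), by push_cast; linarith [(Nat.cast_nonneg C : (0:ℝ) ≤ C)], by omega⟩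
  obtain ⟨m, hm⟩ : ∃ m : ℕ, 8 * C * |C2| * (Lam : ℝ) ^ 2 / ε ^ 2 ≤ m ∧ 2 ≤ m := by
    obtain ⟨n, hn⟩ := exists_nat_ge (8 * C * |C2| * (Lam : ℝ) ^ 2 / ε ^ 2)
    exact ⟨n + 2, by push_cast; linarith, by omega⟩
  refine ⟨c, hc, j * m, max 1 (max R1 (max R2 R3)), fun R hR => ?_⟩
  have hR1 : 1 ≤ R := le_trans (le_max_left _ _) hR
  have hRa : R1 ≤ R := le_trans ((le_max_left _ _).trans (le_max_right _ _)) hR
  have hRb : R2 ≤ R := le_trans ((le_max_left _ _).trans ((le_max_right _ _).trans (le_max_right _ _))) hR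
  have hRc : R3 ≤ R := le_trans ((le_max_right _ _).trans ((le_max_right _ _).trans (le_max_right _ _))) hR
  obtain ⟨L, hL⟩ : ∃ L, L = Lam * R := ⟨_, rfl⟩
  have hRL : R ≤ L := by rw [hL]; nlinarith [hLam.2]
  have e1 := h1 R hRa
  have e2 := h2 L (hRb.trans hRL)
  have e3 := h3 L (hRc.trans hRL)
  -- the good set
  set Y : Set Ω := {ω | ∃ y ∈ (𝓔.gr ω).bl 𝓔.o (C * R), c * 𝓔.a R ≤ 𝓔.D 𝓔.o y} with hY
  set B2 : Set Ω := {ω | ¬ ∃ f : V → ℝ, (∀ x ∈ (𝓔.gr ω).bl 𝓔.o (L / 8), f x = 1) ∧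
      (∀ x, x ∉ (𝓔.gr ω).bl 𝓔.o L → f x = 0) ∧
      (∀ x, |f x| ≤ 1) ∧ (𝓔.gr ω).en ((𝓔.gr ω).bl 𝓔.o (L + 1)) f f ≤ κ / L} with hB2
  set B3 : Set Ω := {ω | C2 * (L : ℝ) ^ 2 < (𝓔.gr ω).vol ((𝓔.gr ω).bl 𝓔.o L)} with hB3
  set B0 : Set Ω := {ω | (𝓔.gr ω).nb 𝓔.o = ∅} with hB0
  have hsub : Y ⊆ (Y \ (B2 ∪ B3 ∪ B0)) ∪ (B2 ∪ B3 ∪ B0) := by
    intro ω hω
    by_cases hω2 : ω ∈ B2 ∪ B3 ∪ B0
    · exact Or.inr hω2
    · exact Or.inl ⟨hω, hω2⟩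
  have hlow : 1 - 3 * ε ≤ 𝓔.ν.real (Y \ (B2 ∪ B3 ∪ B0)) := by
    have g1 := (measureReal_mono hsub).trans (measureReal_union_le (μ := 𝓔.ν) _ _)
    have g2 := measureReal_union_le (μ := 𝓔.ν) (B2 ∪ B3) B0
    have g3 := measureReal_union_le (μ := 𝓔.ν) B2 B3
    have g4 := h.deg
    linarith
  have hmeas : MeasurableSet {w : ℕ → V | ∃ k ≤ j * m * R ^ 3, c * 𝓔.a R ≤ 𝓔.D 𝓔.o (w k)} :=
    meas_dep (j * m * R ^ 3) fun w w' hw hE => by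
      obtain ⟨k, hk, hkE⟩ := hE
      exact ⟨k, hk, by rw [← hw k hk]; exact hkE⟩
  have hfin := 𝓔.le_pa' hmeas (show 0 ≤ 1 - 2 * ε by linarith) (fun ω (hω : ω ∈ Y \ (B2 ∪ B3 ∪ B0)) => ?_)
  · have h5 : (1 - 2 * ε) * (1 - 3 * ε) ≤ (1 - 2 * ε) * 𝓔.ν.real (Y \ (B2 ∪ B3 ∪ B0)) :=
      mul_le_mul_of_nonneg_left hlow (by linarith)
    nlinarith
  obtain ⟨⟨y, hy, hyD⟩, hgood⟩ := hω
  simp only [Set.mem_union, not_or] at hgood
  obtain ⟨⟨g2, g3⟩, g0⟩ := hgood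
  have g2' := not_not.1 g2
  obtain ⟨f, f1, f2, f3, f4⟩ := g2'
  have g3' : (𝓔.gr ω).vol ((𝓔.gr ω).bl 𝓔.o L) ≤ C2 * (L : ℝ) ^ 2 := not_lt.1 g3
  have g0' : ((𝓔.gr ω).nb 𝓔.o).Nonempty := nonempty_iff_ne_empty.2 g0
  have hR0 : (0 : ℝ) < R := by exact_mod_cast hR1
  have hLamR : (L : ℝ) = Lam * R := by rw [hL]; push_cast; ring
  have hLam0 : (0 : ℝ) < Lam := by
    have : 0 < Lam := by omega
    exact_mod_cast this
  have hCRL : C * R + 1 ≤ L := by rw [hL]; nlinarith [hLam.2]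
  have hyL : y ∈ (𝓔.gr ω).bl 𝓔.o (L / 8) := by
    refine (𝓔.gr ω).bl_mono _ ?_ hy
    rw [Nat.le_div_iff_mul_le (by norm_num), hL]
    nlinarith [hLam.2]
  obtain ⟨T, hT⟩ : ∃ T : ℕ, T = m * R ^ 3 := ⟨_, rfl⟩
  have hR3 : 1 ≤ R ^ 3 := Nat.one_le_pow _ _ hR1
  have hT2 : 2 ≤ T := by rw [hT]; nlinarith [hm.2]
  have hreach := (𝓔.rw ω).reach' (G := 𝓔.gr ω) (o := 𝓔.o) (y := y) (L := L) (R := C * R) (T := T) j hT2 hCRL
    ((𝓔.gr ω).bl_mono _ (Nat.le_succ _) hy) (fun x hx => Gr.nonempty_of_mem g0' hx) f (f1 y hyL) f2 f3 hε0 ?_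
  · have hprob := (𝓔.rw ω).prob 𝓔.o
    refine le_trans ?_ (hreach.trans (measureReal_mono ?_))
    · linarith
    rintro w ⟨k, hk, hky⟩
    refine ⟨k, ?_, by rw [hky]; exact hyD⟩
    rw [hT] at hk
    calc k ≤ j * (m * R ^ 3) := hk
      _ = j * m * R ^ 3 := by ring
  · -- the numerical condition
    have k1 : (𝓔.gr ω).en ((𝓔.gr ω).bl 𝓔.o (L + 1)) f f ≤ |κ| / L :=
      f4.trans (div_le_div_of_nonneg_right (le_abs_self κ) (Nat.cast_nonneg L))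
    have hTR : (T : ℝ) = m * (R : ℝ) ^ 3 := by rw [hT]; push_cast; ring
    have hm0 : (0 : ℝ) < m := by
      have : 0 < m := by omega
      exact_mod_cast this
    have hT0 : (0 : ℝ) < T := by rw [hTR]; positivity
    have k2 : (𝓔.gr ω).vol ((𝓔.gr ω).bl 𝓔.o L) / T ≤ |C2| * (L : ℝ) ^ 2 / T := by
      refine div_le_div_of_nonneg_right (g3'.trans ?_) hT0.le
      exact mul_le_mul_of_nonneg_right (le_abs_self C2) (sq_nonneg _)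
    have hε2 : 0 < ε ^ 2 := by positivity
    have k3 : 4 * ((C * R : ℕ) : ℝ) * (|κ| / L) ≤ ε ^ 2 / 2 := by
      rw [hLamR]
      push_cast
      have : 4 * (C * (R : ℝ)) * (|κ| / (Lam * R)) = 4 * C * |κ| / Lam := by field_simp
      rw [this, div_le_iff₀ hLam0]
      have h6 := hLam.1
      rw [div_le_iff₀ hε2] at h6
      nlinarith
    have k4 : 4 * ((C * R : ℕ) : ℝ) * (|C2| * (L : ℝ) ^ 2 / T) ≤ ε ^ 2 / 2 := by
      rw [hLamR, hTR]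
      push_cast
      have : 4 * (C * (R : ℝ)) * (|C2| * (Lam * R) ^ 2 / (m * (R : ℝ) ^ 3)) = 4 * C * |C2| * (Lam : ℝ) ^ 2 / m := by
        field_simp
      rw [this, div_le_iff₀ hm0]
      have h6 := hm.1
      rw [div_le_iff₀ hε2] at h6
      nlinarith
    have k5 : (0 : ℝ) ≤ 4 * ((C * R : ℕ) : ℝ) := by positivity
    have k6 := mul_le_mul_of_nonneg_left (add_le_add k1 k2) k5
    rw [mul_add] at k6
    linarith

/-- nondegeneracy on every time interval `[0, t]`, for a scale with doubling, with probability close to one -/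
theorem EnvGood.nondeg_all_one (h : EnvGood 𝓔) (hfar : ∀ ε > (0 : ℝ), ∃ C : ℕ, 1 ≤ C ∧ ∃ c > (0 : ℝ), ∃ R0 : ℕ, ∀ R ≥ R0,
    1 - ε ≤ 𝓔.ν.real {ω | ∃ y ∈ (𝓔.gr ω).bl 𝓔.o (C * R), c * 𝓔.a R ≤ 𝓔.D 𝓔.o y}) (hmono : Monotone 𝓔.a) {K : ℝ}
    (hK : 0 < K) (hdbl : ∀ r : ℕ, 1 ≤ r → 𝓔.a (2 * r) ≤ K * 𝓔.a r) : ∀ q < (1 : ℝ), ∀ t > (0 : ℝ), ∃ c > (0 : ℝ),
    ∃ n0 : ℕ, ∀ n ≥ n0, q ≤ 𝓔.Pa.real {w | ∃ k : ℕ, (k : ℝ) ≤ t * n ∧ c * 𝓔.a (cbrt n) ≤ 𝓔.D 𝓔.o (w k)} := by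
  intro q hq t ht
  obtain ⟨c, hc, m, R0, hR0⟩ := h.nondeg_one 𝓔 hfar hq
  have := 𝓔.pa_prob
  have hn0 : ∀ n ≥ R0 ^ 3, q ≤ 𝓔.Pa.real {w | ∃ k ≤ m * n, c * 𝓔.a (cbrt n) ≤ 𝓔.D 𝓔.o (w k)} := by
    intro n hn
    refine (hR0 (cbrt n) (le_cbrt hn)).trans (measureReal_mono ?_)
    rintro w ⟨k, hk, hD⟩
    exact ⟨k, hk.trans (Nat.mul_le_mul_left _ (cbrt_pow_le n)), hD⟩
  have hiter : ∀ (j r : ℕ), 1 ≤ r → 𝓔.a (2 ^ j * r) ≤ K ^ j * 𝓔.a r := by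
    intro j
    induction j with
    | zero => intro r _; rw [pow_zero, pow_zero, one_mul, one_mul]
    | succ j ih =>
      intro r hr
      have h1 := ih (2 * r) (by omega)
      calc 𝓔.a (2 ^ (j + 1) * r) = 𝓔.a (2 ^ j * (2 * r)) := by congr 1; ring
        _ ≤ K ^ j * 𝓔.a (2 * r) := h1
        _ ≤ K ^ j * (K * 𝓔.a r) := mul_le_mul_of_nonneg_left (hdbl r hr) (by positivity)
        _ = K ^ (j + 1) * 𝓔.a r := by ring
  obtain ⟨J, hJ⟩ : ∃ J : ℕ, (m : ℝ) ≤ t * 8 ^ J := by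
    obtain ⟨J, hJ⟩ := pow_unbounded_of_one_lt ((m : ℝ) / t) (show (1 : ℝ) < 8 by norm_num)
    refine ⟨J, ?_⟩
    rw [div_lt_iff₀ ht] at hJ
    linarith
  refine ⟨c / K ^ (J + 2), by positivity, 8 ^ J * max (R0 ^ 3) 1, fun n hn => ?_⟩
  have h8 : 0 < 8 ^ J := by positivity
  obtain ⟨n', hn'⟩ : ∃ n', n' = n / 8 ^ J := ⟨_, rfl⟩
  have h1 : max (R0 ^ 3) 1 ≤ n' := by
    rw [hn', Nat.le_div_iff_mul_le h8, mul_comm]
    exact hn
  have h1' : 1 ≤ n' := (le_max_right _ _).trans h1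
  have h2 : 8 ^ J * n' ≤ n := by rw [hn']; exact Nat.mul_div_le n _
  have h3 : n ≤ 8 ^ (J + 1) * n' := by
    have h4 : n < 8 ^ J * (n / 8 ^ J + 1) := Nat.lt_mul_div_succ n h8
    rw [← hn'] at h4
    calc n ≤ 8 ^ J * (n' + 1) := h4.le
      _ ≤ 8 ^ J * (8 * n') := Nat.mul_le_mul_left _ (by omega)
      _ = 8 ^ (J + 1) * n' := by ring
  have h4 : cbrt n ≤ 2 ^ (J + 2) * cbrt n' := cbrt_le_mul h1' h3
  have h5 : 1 ≤ cbrt n' := le_cbrt (by simpa using h1')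
  have h6 : 𝓔.a (cbrt n) ≤ K ^ (J + 2) * 𝓔.a (cbrt n') := (hmono h4).trans (hiter _ _ h5)
  refine (hn0 n' ((le_max_left _ _).trans h1)).trans (measureReal_mono ?_ (measure_ne_top _ _))
  rintro w ⟨k, hk, hD⟩
  refine ⟨k, ?_, le_trans ?_ hD⟩
  · have h7 : (k : ℝ) ≤ m * n' := by exact_mod_cast hk
    have h9 : (8 : ℝ) ^ J * n' ≤ n := by exact_mod_cast h2
    calc (k : ℝ) ≤ m * n' := h7
      _ ≤ t * 8 ^ J * n' := mul_le_mul_of_nonneg_right hJ (Nat.cast_nonneg _)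
      _ = t * (8 ^ J * n') := by ring
      _ ≤ t * n := mul_le_mul_of_nonneg_left h9 ht.le
  · calc c / K ^ (J + 2) * 𝓔.a (cbrt n) ≤ c / K ^ (J + 2) * (K ^ (J + 2) * 𝓔.a (cbrt n')) :=
          mul_le_mul_of_nonneg_left h6 (by positivity)
      _ = c * 𝓔.a (cbrt n') := by field_simp

end

end Pool.Agent.Lib.IICQ
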