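import Pool.Agent.Lib.MP_06caae_pr.Q.Gr

/-!
# Quenched part: cutoffs from lanes

`G.far z j r x`: `x` is connected to the complement of `bl z r` by a path outside `bl z j`.
`G.lanes z j r`: the edges `(x, y)` with `x ∈ bl z j` and `far z j r y`.
`cut z r J x = 1 - (1/|J|) #{j ∈ J : far z j r x}` has energy `≤ (1/|J|²) ∑_{j ∈ J} |lanes z j r|`.
-/

open Finset

namespace Pool.Agent.Lib.IICQ

variable {V : Type*} [DecidableEq V] (G : Gr V)

open scoped Classical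

/-- the energy does not depend on the auxiliary set -/
theorem Gr.en_indep {B B' C C' : Finset V} (hBC : B ⊆ C) (hC : ∀ x ∈ B, G.nb x ⊆ C) (hBC' : B' ⊆ C')
    (hC' : ∀ x ∈ B', G.nb x ⊆ C') (f g : V → ℝ) (hf : ∀ x, x ∉ B → f x = 0) (hf' : ∀ x, x ∉ B' → f x = 0) :
    G.en C f g = G.en C' f g := by
  rw [G.en_eq hBC hC f g hf, G.en_eq hBC' hC' f g hf']
  have h1 : ∑ x ∈ B, f x * (G.dg x * g x - ∑ y ∈ G.nb x, g y) =
      ∑ x ∈ B ∪ B', f x * (G.dg x * g x - ∑ y ∈ G.nb x, g y) :=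
    sum_subset subset_union_left fun x _ hx => by rw [hf x hx, zero_mul]
  have h2 : ∑ x ∈ B', f x * (G.dg x * g x - ∑ y ∈ G.nb x, g y) =
      ∑ x ∈ B ∪ B', f x * (G.dg x * g x - ∑ y ∈ G.nb x, g y) :=
    sum_subset subset_union_right fun x _ hx => by rw [hf' x hx, zero_mul]
  rw [h1, h2]

/-- `x` is connected to the complement of `bl z r` by a path outside `bl z j` -/
def Gr.far (z : V) (j r : ℕ) (x : V) : Prop :=
  x ∉ G.bl z j ∧ ∃ y, Relation.ReflTransGen (fun a b => b ∈ G.nb a ∧ b ∉ G.bl z j) x y ∧ y ∉ G.bl z r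

theorem Gr.far_of_notMem {z x : V} {j r : ℕ} (h : j ≤ r) (hx : x ∉ G.bl z r) : G.far z j r x :=
  ⟨fun h1 => hx (G.bl_mono z h h1), x, Relation.ReflTransGen.refl, hx⟩

theorem Gr.not_far_of_mem {z x : V} {j r : ℕ} (hx : x ∈ G.bl z j) : ¬ G.far z j r x := fun h => h.1 hx

/-- an edge from a far vertex to a vertex which is not far starts in the ball -/
theorem Gr.far_edge {z x y : V} {j r : ℕ} (hxy : y ∈ G.nb x) (hy : G.far z j r y) (hx : ¬ G.far z j r x) :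
    x ∈ G.bl z j := by
  by_contra h
  refine hx ⟨h, ?_⟩
  obtain ⟨w, hw, hw'⟩ := hy.2
  exact ⟨w, Relation.ReflTransGen.head ⟨hxy, hy.1⟩ hw, hw'⟩

/-- the lanes at level `j` -/
noncomputable def Gr.lanes (z : V) (j r : ℕ) : Finset (Σ _ : V, V) :=
  ((G.bl z j).sigma G.nb).filter fun p => G.far z j r p.2

/-- the cutoff function -/
noncomputable def Gr.cut (z : V) (r : ℕ) (J : Finset ℕ) (x : V) : ℝ :=
  1 - (1 / (J.card : ℝ)) * ∑ j ∈ J, (if G.far z j r x then 1 else 0)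

theorem Gr.cut_le (z : V) (r : ℕ) (J : Finset ℕ) (x : V) : G.cut z r J x ≤ 1 := by
  unfold Gr.cut
  have : 0 ≤ (1 / (J.card : ℝ)) * ∑ j ∈ J, (if G.far z j r x then (1 : ℝ) else 0) :=
    mul_nonneg (by positivity) (sum_nonneg fun j _ => by split_ifs <;> norm_num)
  linarith

theorem Gr.cut_nonneg (z : V) (r : ℕ) (J : Finset ℕ) (x : V) : 0 ≤ G.cut z r J x := by
  unfold Gr.cut
  have h1 : ∑ j ∈ J, (if G.far z j r x then (1 : ℝ) else 0) ≤ J.card := by
    calc ∑ j ∈ J, (if G.far z j r x then (1 : ℝ) else 0) ≤ ∑ _j ∈ J, (1 : ℝ) :=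
          sum_le_sum fun j _ => by split_ifs <;> norm_num
      _ = J.card := by rw [sum_const, nsmul_eq_mul, mul_one]
  rcases J.eq_empty_or_nonempty with hJ | hJ
  · rw [hJ]; simp
  · have h2 : (0 : ℝ) < J.card := by exact_mod_cast card_pos.2 hJ
    have h3 : (1 / (J.card : ℝ)) * ∑ j ∈ J, (if G.far z j r x then (1 : ℝ) else 0) ≤ (1 / (J.card : ℝ)) * J.card :=
      mul_le_mul_of_nonneg_left h1 (by positivity)
    have h4 : (1 / (J.card : ℝ)) * J.card = 1 := by field_simp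
    linarith

theorem Gr.cut_abs_le (z : V) (r : ℕ) (J : Finset ℕ) (x : V) : |G.cut z r J x| ≤ 1 := by
  rw [abs_of_nonneg (G.cut_nonneg z r J x)]
  exact G.cut_le z r J x

/-- the cutoff is `1` inside -/
theorem Gr.cut_one {z x : V} {r : ℕ} {J : Finset ℕ} (h : ∀ j ∈ J, x ∈ G.bl z j) : G.cut z r J x = 1 := by
  unfold Gr.cut
  have h1 : ∑ j ∈ J, (if G.far z j r x then (1 : ℝ) else 0) = 0 :=
    sum_eq_zero fun j hj => if_neg (G.not_far_of_mem (h j hj))
  rw [h1, mul_zero, sub_zero]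

/-- the cutoff is `0` outside -/
theorem Gr.cut_zero {z x : V} {r : ℕ} {J : Finset ℕ} (hJ : J.Nonempty) (h : ∀ j ∈ J, j ≤ r) (hx : x ∉ G.bl z r) :
    G.cut z r J x = 0 := by
  unfold Gr.cut
  have h1 : ∑ j ∈ J, (if G.far z j r x then (1 : ℝ) else 0) = J.card := by
    rw [sum_congr rfl fun j hj => if_pos (G.far_of_notMem (h j hj) hx), sum_const, nsmul_eq_mul, mul_one]
  have h2 : (0 : ℝ) < J.card := by exact_mod_cast card_pos.2 hJ
  rw [h1]
  field_simp
  ring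

/-- along an edge at most one level changes -/
theorem Gr.far_unique {z x y : V} {r i j : ℕ} (hxy : y ∈ G.nb x) (hi : ¬ (G.far z i r x ↔ G.far z i r y))
    (hj : ¬ (G.far z j r x ↔ G.far z j r y)) : i = j := by
  have hyx := G.symm _ _ hxy
  -- for every level where the status changes one endpoint is in the ball and the other is not
  have key : ∀ l, ¬ (G.far z l r x ↔ G.far z l r y) →
      (x ∈ G.bl z l ∧ y ∉ G.bl z l) ∨ (y ∈ G.bl z l ∧ x ∉ G.bl z l) := by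
    intro l hl
    by_cases hx : G.far z l r x
    · have hy : ¬ G.far z l r y := fun hy => hl ⟨fun _ => hy, fun _ => hx⟩
      exact Or.inr ⟨G.far_edge hyx hx hy, hx.1⟩
    · have hy : G.far z l r y := by
        by_contra hy
        exact hl ⟨fun h => absurd h hx, fun h => absurd h hy⟩
      exact Or.inl ⟨G.far_edge hxy hy hx, hy.1⟩
  rcases key i hi with ⟨a1, a2⟩ | ⟨a1, a2⟩ <;> rcases key j hj with ⟨b1, b2⟩ | ⟨b1, b2⟩
  · by_contra hne
    rcases Nat.lt_or_gt_of_ne hne with h | h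
    · exact b2 (G.bl_mono z h (G.nb_bl a1 hxy))
    · exact a2 (G.bl_mono z h (G.nb_bl b1 hxy))
  · exfalso
    rcases le_total i j with h | h
    · exact b2 (G.bl_mono z h a1)
    · exact a2 (G.bl_mono z h b1)
  · exfalso
    rcases le_total i j with h | h
    · exact b2 (G.bl_mono z h a1)
    · exact a2 (G.bl_mono z h b1)
  · by_contra hne
    rcases Nat.lt_or_gt_of_ne hne with h | h
    · exact b2 (G.bl_mono z h (G.nb_bl a1 hyx))
    · exact a2 (G.bl_mono z h (G.nb_bl b1 hyx))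

/-- the energy of the cutoff -/
theorem Gr.cut_en (z : V) (r : ℕ) (J : Finset ℕ) (C : Finset V) :
    G.en C (G.cut z r J) (G.cut z r J) ≤ (1 / (J.card : ℝ)) ^ 2 * ∑ j ∈ J, ((G.lanes z j r).card : ℝ) := by
  have h1 : ∀ x y, y ∈ G.nb x → (G.cut z r J x - G.cut z r J y) * (G.cut z r J x - G.cut z r J y) ≤
      (1 / (J.card : ℝ)) ^ 2 * ((∑ j ∈ J, if (G.far z j r y ∧ ¬ G.far z j r x) then (1 : ℝ) else 0) +
        ∑ j ∈ J, if (G.far z j r x ∧ ¬ G.far z j r y) then (1 : ℝ) else 0) := by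
    intro x y hxy
    have h2 : G.cut z r J x - G.cut z r J y =
        (1 / (J.card : ℝ)) * ∑ j ∈ J, ((if G.far z j r y then (1 : ℝ) else 0) - (if G.far z j r x then (1 : ℝ) else 0)) := by
      unfold Gr.cut
      rw [sum_sub_distrib]
      ring
    rw [h2, ← sum_add_distrib]
    have h3 : ∀ j, ((if (G.far z j r y ∧ ¬ G.far z j r x) then (1 : ℝ) else 0) +
        if (G.far z j r x ∧ ¬ G.far z j r y) then (1 : ℝ) else 0) =
        ((if G.far z j r y then (1 : ℝ) else 0) - (if G.far z j r x then (1 : ℝ) else 0)) ^ 2 := by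
      intro j
      by_cases a : G.far z j r x <;> by_cases b : G.far z j r y <;> simp [a, b]
    rw [sum_congr rfl fun j _ => h3 j]
    set e : ℕ → ℝ := fun j => (if G.far z j r y then (1 : ℝ) else 0) - (if G.far z j r x then (1 : ℝ) else 0) with he
    have h4 : (∑ j ∈ J, e j) ^ 2 ≤ ∑ j ∈ J, e j ^ 2 := by
      by_cases h5 : ∃ i ∈ J, e i ≠ 0
      · obtain ⟨i, hi, hei⟩ := h5
        have h6 : ∀ j ∈ J, j ≠ i → e j = 0 := by
          intro j _ hji
          by_contra hej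
          have h7 : ∀ l, e l ≠ 0 → ¬ (G.far z l r x ↔ G.far z l r y) := by
            intro l hl hcon
            apply hl
            simp only [he, hcon, sub_self]
          exact hji (G.far_unique hxy (h7 j hej) (h7 i hei))
        rw [sum_eq_single i h6 (fun h => absurd hi h), sum_eq_single i (fun j hj hji => by rw [h6 j hj hji]; ring)
          (fun h => absurd hi h)]
      · push Not at h5
        rw [sum_eq_zero h5]
        rw [zero_pow two_ne_zero]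
        exact sum_nonneg fun j _ => sq_nonneg _
    calc (1 / (J.card : ℝ) * ∑ j ∈ J, e j) * (1 / (J.card : ℝ) * ∑ j ∈ J, e j) =
          (1 / (J.card : ℝ)) ^ 2 * (∑ j ∈ J, e j) ^ 2 := by ring
      _ ≤ (1 / (J.card : ℝ)) ^ 2 * ∑ j ∈ J, e j ^ 2 := mul_le_mul_of_nonneg_left h4 (sq_nonneg _)
  have h5 : ∑ x ∈ C, ∑ y ∈ (G.nb x).filter (· ∈ C), ∑ j ∈ J, (if (G.far z j r y ∧ ¬ G.far z j r x) then (1 : ℝ) else 0) ≤
      ∑ j ∈ J, ((G.lanes z j r).card : ℝ) := by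
    rw [sum_sigma', sum_comm]
    refine sum_le_sum fun j _ => ?_
    rw [← sum_filter, sum_const, nsmul_eq_mul, mul_one]
    refine Nat.cast_le.2 (card_le_card ?_)
    rintro ⟨x, y⟩ hp
    simp only [mem_filter, mem_sigma] at hp
    unfold Gr.lanes
    simp only [mem_filter, mem_sigma]
    exact ⟨⟨G.far_edge hp.1.2.1 hp.2.1 hp.2.2, hp.1.2.1⟩, hp.2.1⟩
  have h6 : ∑ x ∈ C, ∑ y ∈ (G.nb x).filter (· ∈ C), ∑ j ∈ J, (if (G.far z j r x ∧ ¬ G.far z j r y) then (1 : ℝ) else 0) ≤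
      ∑ j ∈ J, ((G.lanes z j r).card : ℝ) := by
    rw [G.swap C fun x y => ∑ j ∈ J, (if (G.far z j r x ∧ ¬ G.far z j r y) then (1 : ℝ) else 0)]
    exact h5
  unfold Gr.en
  have h7 : ∑ x ∈ C, ∑ y ∈ (G.nb x).filter (· ∈ C), (G.cut z r J x - G.cut z r J y) * (G.cut z r J x - G.cut z r J y) ≤
      (1 / (J.card : ℝ)) ^ 2 * (∑ x ∈ C, ∑ y ∈ (G.nb x).filter (· ∈ C),
        ∑ j ∈ J, (if (G.far z j r y ∧ ¬ G.far z j r x) then (1 : ℝ) else 0) + ∑ x ∈ C, ∑ y ∈ (G.nb x).filter (· ∈ C),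
          ∑ j ∈ J, (if (G.far z j r x ∧ ¬ G.far z j r y) then (1 : ℝ) else 0)) := by
    rw [← sum_add_distrib, mul_sum]
    refine sum_le_sum fun x _ => ?_
    rw [← sum_add_distrib, mul_sum]
    refine sum_le_sum fun y hy => ?_
    exact h1 x y (mem_filter.1 hy).1
  have h8 := mul_le_mul_of_nonneg_left (add_le_add h5 h6) (sq_nonneg (1 / (J.card : ℝ)))
  linarith

/-- the cutoff for a vertex, from the lanes of a nearby vertex `c`: levels `J` between `ε + 1` and `r` -/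
theorem Gr.cut_for {c z : V} {ε r ρ : ℕ} {J : Finset ℕ} (hJ : J.Nonempty) (hJ1 : ∀ j ∈ J, ε + 1 ≤ j) (hJ2 : ∀ j ∈ J, j ≤ r)
    (hz : z ∈ G.bl c (ε + 1)) (hr : r + ε ≤ ρ) {E : ℝ}
    (hE : (1 / (J.card : ℝ)) ^ 2 * ∑ j ∈ J, ((G.lanes c j r).card : ℝ) ≤ E) :
    ∃ f : V → ℝ, f z = 1 ∧ (∀ x, x ∉ G.bl z ρ → f x = 0) ∧ (∀ x, f x ≤ 1) ∧ G.en (G.bl z (ρ + 1)) f f ≤ E := by
  have hr0 : 0 < r := by
    obtain ⟨j, hj⟩ := hJ
    have := hJ1 j hj
    have := hJ2 j hj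
    omega
  obtain ⟨r', rfl⟩ : ∃ r', r = r' + 1 := ⟨r - 1, by omega⟩
  refine ⟨G.cut c (r' + 1) J, G.cut_one fun j hj => G.bl_mono c (hJ1 j hj) hz, fun x hx => ?_, G.cut_le c _ J,
    (G.cut_en c (r' + 1) J _).trans hE⟩
  refine G.cut_zero hJ hJ2 fun hx' => hx ?_
  have h1 := G.bl_trans (G.bl_symm hz) hx'
  exact G.bl_mono z (by omega) h1

end Pool.Agent.Lib.IICQ
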