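import Pool.Agent.Lib.MP_06caae_pr.Q.Tight
import Pool.Agent.Lib.MP_06caae_pr.Q.Lane

/-!
# Assembly of the quenched part: from a good environment to tightness and nondegeneracy of the annealed walk

`Env`: environments `(Ω, ν)`, graphs, path measures, the annealed law `Pa`, an extrinsic pseudo-distance `D`, a scale `a`.
`EnvGood`: the hypotheses on the environment (all with probability at least `1 - ε`, for all large `R`).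
Conclusions: `tight` and `nondeg`.
-/

open Finset MeasureTheory

namespace Pool.Agent.Lib.IICQ

variable {V : Type*} [DecidableEq V]

/-- a vertex of a ball other than the centre has a neighbour -/
theorem Gr.nonempty_of_mem {G : Gr V} {o x : V} {n : ℕ} (ho : (G.nb o).Nonempty) (hx : x ∈ G.bl o n) :
    (G.nb x).Nonempty := by
  induction n with
  | zero => rw [G.bl_zero] at hx; exact absurd hx (notMem_empty _)
  | succ n ih =>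
    rw [G.mem_bl_succ] at hx
    rcases hx with hx | hx | ⟨y, _, hy⟩
    · rw [hx]; exact ho
    · exact ih hx
    · exact ⟨y, G.symm _ _ hy⟩

theorem Gr.vol_mono {G : Gr V} {A B : Finset V} (h : A ⊆ B) : G.vol A ≤ G.vol B :=
  sum_le_sum_of_subset_of_nonneg h fun x _ _ => G.dg_nonneg x

theorem Gr.vol_nonneg (G : Gr V) (A : Finset V) : 0 ≤ G.vol A := sum_nonneg fun x _ => G.dg_nonneg x

/-- the data -/
structure Env (V : Type*) [DecidableEq V] [MeasurableSpace V] (Ω : Type*) [MeasurableSpace Ω] where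
  ν : Measure Ω
  gr : Ω → Gr V
  P : Ω → V → Measure (ℕ → V)
  o : V
  Pa : Measure (ℕ → V)
  D : V → V → ℝ
  a : ℕ → ℝ
  prob : IsProbabilityMeasure ν
  rw : ∀ ω, IsRW (gr ω) (P ω)
  meas : ∀ A, MeasurableSet A → Measurable fun ω => P ω o A
  ann : ∀ A, MeasurableSet A → Pa A = ∫⁻ ω, P ω o A ∂ν
  symm : ∀ x y, D x y = D y x
  tri : ∀ x y z, D x z ≤ D x y + D y z
  apos : ∀ R, 0 ≤ a R

/-- hypotheses on the environment. Closed ball of radius `r`: `bl z (r + 1)`. -/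
structure EnvGood {V : Type*} [DecidableEq V] [MeasurableSpace V] {Ω : Type*} [MeasurableSpace Ω] (𝓔 : Env V Ω) : Prop where
  /-- the origin is not isolated -/
  deg : 𝓔.ν.real {ω | (𝓔.gr ω).nb 𝓔.o = ∅} = 0
  /-- volume, upper bound -/
  up : ∀ ε > (0 : ℝ), ∃ C : ℝ, ∃ R0 : ℕ, ∀ R ≥ R0, 𝓔.ν.real {ω | C * (R : ℝ) ^ 2 < (𝓔.gr ω).vol ((𝓔.gr ω).bl 𝓔.o R)} ≤ ε
  /-- volume, uniform lower bound -/
  low : ∀ (lam q : ℕ), 1 ≤ lam → 1 ≤ q → ∀ ε > (0 : ℝ), ∃ v : ℝ, 0 < v ∧ ∃ R0 : ℕ, ∀ R ≥ R0,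
    𝓔.ν.real {ω | ∃ z ∈ (𝓔.gr ω).bl 𝓔.o (lam * R), (𝓔.gr ω).vol ((𝓔.gr ω).bl z (R / q)) < v * (R : ℝ) ^ 2} ≤ ε
  /-- uniform cutoffs -/
  cut : ∀ (lam q : ℕ), 1 ≤ lam → 1 ≤ q → ∀ ε > (0 : ℝ), ∃ κ : ℝ, ∃ R0 : ℕ, ∀ R ≥ R0,
    𝓔.ν.real {ω | ∃ z ∈ (𝓔.gr ω).bl 𝓔.o (lam * R), ¬ ∃ f : V → ℝ, f z = 1 ∧ (∀ x, x ∉ (𝓔.gr ω).bl z (R / q) → f x = 0) ∧
      (∀ x, f x ≤ 1) ∧ (𝓔.gr ω).en ((𝓔.gr ω).bl z (R / q + 1)) f f ≤ κ / R} ≤ ε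
  /-- cutoff at the origin with a plateau -/
  plat : ∀ ε > (0 : ℝ), ∃ κ : ℝ, ∃ R0 : ℕ, ∀ R ≥ R0,
    𝓔.ν.real {ω | ¬ ∃ f : V → ℝ, (∀ x ∈ (𝓔.gr ω).bl 𝓔.o (R / 8), f x = 1) ∧ (∀ x, x ∉ (𝓔.gr ω).bl 𝓔.o R → f x = 0) ∧
      (∀ x, |f x| ≤ 1) ∧ (𝓔.gr ω).en ((𝓔.gr ω).bl 𝓔.o (R + 1)) f f ≤ κ / R} ≤ ε
  /-- extrinsic modulus -/
  ext : ∀ (lam : ℕ), 1 ≤ lam → ∀ η > (0 : ℝ), ∀ ε > (0 : ℝ), ∃ q : ℕ, 1 ≤ q ∧ ∃ R0 : ℕ, ∀ R ≥ R0,
    𝓔.ν.real {ω | ∃ z ∈ (𝓔.gr ω).bl 𝓔.o (lam * R), ∃ y ∈ (𝓔.gr ω).bl z (R / q + 1), η * 𝓔.a R < 𝓔.D z y} ≤ ε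
  /-- the ball reaches the extrinsic scale with positive probability -/
  far : ∃ C : ℕ, 1 ≤ C ∧ ∃ c > (0 : ℝ), ∃ p > (0 : ℝ), ∃ R0 : ℕ, ∀ R ≥ R0,
    p ≤ 𝓔.ν.real {ω | ∃ y ∈ (𝓔.gr ω).bl 𝓔.o (C * R), c * 𝓔.a R ≤ 𝓔.D 𝓔.o y}

section

variable [Countable V] [MeasurableSpace V] [DiscreteMeasurableSpace V] {Ω : Type*} [MeasurableSpace Ω] (𝓔 : Env V Ω)

theorem Env.prob_le (ω : Ω) (A : Set (ℕ → V)) : 𝓔.P ω 𝓔.o A ≤ 1 := by
  have := (𝓔.rw ω).prob 𝓔.o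
  exact prob_le_one

theorem Env.pa_prob : IsProbabilityMeasure 𝓔.Pa := by
  refine ⟨?_⟩
  have := 𝓔.prob
  rw [𝓔.ann _ MeasurableSet.univ]
  have h1 : ∀ ω, 𝓔.P ω 𝓔.o Set.univ = 1 := by
    intro ω
    have := (𝓔.rw ω).prob 𝓔.o
    exact measure_univ
  simp only [h1, lintegral_const, measure_univ, mul_one]

/-- upper bound of an annealed probability -/
theorem Env.pa_le {A : Set (ℕ → V)} (hA : MeasurableSet A) {b ε : ℝ} (hb : 0 ≤ b) {Bad : Set Ω}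
    (hBad : 𝓔.ν.real Bad ≤ ε) (h : ∀ ω, ω ∉ Bad → (𝓔.P ω 𝓔.o).real A ≤ b) : 𝓔.Pa.real A ≤ ε + b := by
  have := 𝓔.prob
  have hPa := 𝓔.pa_prob
  set S : Set Ω := {ω | ENNReal.ofReal b < 𝓔.P ω 𝓔.o A} with hS
  have hSm : MeasurableSet S := measurableSet_lt measurable_const (𝓔.meas A hA)
  have hSB : S ⊆ Bad := by
    intro ω hω
    by_contra hcon
    have h1 := h ω hcon
    have h2 := (𝓔.rw ω).prob 𝓔.o
    have h3 : 𝓔.P ω 𝓔.o A ≤ ENNReal.ofReal b := by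
      rw [← ENNReal.ofReal_toReal (measure_ne_top (𝓔.P ω 𝓔.o) A)]
      exact ENNReal.ofReal_le_ofReal h1
    exact absurd hω (not_lt.2 h3)
  have h1 : 𝓔.Pa A ≤ 𝓔.ν S + ENNReal.ofReal b := by
    rw [𝓔.ann A hA]
    calc ∫⁻ ω, 𝓔.P ω 𝓔.o A ∂𝓔.ν ≤ ∫⁻ ω, (S.indicator (fun _ => 1) ω + ENNReal.ofReal b) ∂𝓔.ν := by
          refine lintegral_mono fun ω => ?_
          by_cases hω : ω ∈ S
          · rw [Set.indicator_of_mem hω]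
            exact (𝓔.prob_le ω A).trans le_self_add
          · rw [Set.indicator_of_notMem hω, zero_add]
            exact not_lt.1 hω
      _ = 𝓔.ν S + ENNReal.ofReal b := by
          rw [lintegral_add_right _ measurable_const, lintegral_indicator hSm]
          simp
  have h2 : 𝓔.Pa.real A ≤ 𝓔.ν.real S + b := by
    unfold Measure.real
    have h3 : (𝓔.ν S + ENNReal.ofReal b).toReal = (𝓔.ν S).toReal + b := by
      rw [ENNReal.toReal_add (measure_ne_top _ _) ENNReal.ofReal_ne_top, ENNReal.toReal_ofReal hb]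
    rw [← h3]
    exact ENNReal.toReal_mono (ENNReal.add_ne_top.2 ⟨measure_ne_top _ _, ENNReal.ofReal_ne_top⟩) h1
  have h4 : 𝓔.ν.real S ≤ 𝓔.ν.real Bad := measureReal_mono hSB
  linarith

/-- lower bound of an annealed probability -/
theorem Env.le_pa {A : Set (ℕ → V)} (hA : MeasurableSet A) {p : ℝ} {S : Set Ω}
    (hp : p ≤ 𝓔.ν.real S) (h : ∀ ω ∈ S, 1 / 2 ≤ (𝓔.P ω 𝓔.o).real A) : p / 2 ≤ 𝓔.Pa.real A := by
  have := 𝓔.prob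
  have hPa := 𝓔.pa_prob
  set S' : Set Ω := {ω | (1 / 2 : ENNReal) ≤ 𝓔.P ω 𝓔.o A} with hS
  have hSm : MeasurableSet S' := measurableSet_le measurable_const (𝓔.meas A hA)
  have hSS : S ⊆ S' := by
    intro ω hω
    have h1 := h ω hω
    have h2 := (𝓔.rw ω).prob 𝓔.o
    have h3 : ENNReal.ofReal (1 / 2) ≤ 𝓔.P ω 𝓔.o A := by
      rw [← ENNReal.ofReal_toReal (measure_ne_top (𝓔.P ω 𝓔.o) A)]
      exact ENNReal.ofReal_le_ofReal h1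
    have h4 : ENNReal.ofReal (1 / 2) = 1 / 2 := by
      rw [ENNReal.ofReal_div_of_pos (by norm_num)]
      simp
    rw [h4] at h3
    exact h3
  have h1 : 1 / 2 * 𝓔.ν S' ≤ 𝓔.Pa A := by
    rw [𝓔.ann A hA]
    exact mul_meas_ge_le_lintegral (𝓔.meas A hA) (1 / 2)
  have h2 : (1 / 2 * 𝓔.ν S').toReal ≤ 𝓔.Pa.real A := ENNReal.toReal_mono (measure_ne_top _ _) h1
  have h3 : (1 / 2 * 𝓔.ν S').toReal = 1 / 2 * 𝓔.ν.real S' := by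
    rw [ENNReal.toReal_mul]
    simp [Measure.real]
  have h4 : 𝓔.ν.real S ≤ 𝓔.ν.real S' := measureReal_mono hSS
  rw [h3] at h2
  linarith

/-- nondegeneracy of the annealed walk -/
theorem EnvGood.nondeg (h : EnvGood 𝓔) : ∃ c > (0 : ℝ), ∃ p > (0 : ℝ), ∃ m R0 : ℕ, ∀ R ≥ R0,
    p ≤ 𝓔.Pa.real {w | ∃ k ≤ m * R ^ 3, c * 𝓔.a R ≤ 𝓔.D 𝓔.o (w k)} := by
  have := 𝓔.prob
  obtain ⟨C, hC1, c, hc, p, hp, R1, h1⟩ := h.far
  obtain ⟨κ, R2, h2⟩ := h.plat (p / 4) (by positivity)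
  obtain ⟨C2, R3, h3⟩ := h.up (p / 4) (by positivity)
  obtain ⟨Lam, hLam⟩ : ∃ Lam : ℕ, (128 * C * |κ| : ℝ) ≤ Lam ∧ 8 * C + 8 ≤ Lam := by
    obtain ⟨n, hn⟩ := exists_nat_ge (128 * C * |κ| : ℝ)
    exact ⟨n + (8 * C + 8), by push_cast; linarith [(Nat.cast_nonneg C : (0:ℝ) ≤ C)], by omega⟩
  obtain ⟨m, hm⟩ : ∃ m : ℕ, 128 * C * |C2| * (Lam : ℝ) ^ 2 ≤ m ∧ 2 ≤ m := by
    obtain ⟨n, hn⟩ := exists_nat_ge (128 * C * |C2| * (Lam : ℝ) ^ 2)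
    exact ⟨n + 2, by push_cast; linarith, by omega⟩
  refine ⟨c, hc, p / 4, by positivity, 2 * m, max 1 (max R1 (max R2 R3)), fun R hR => ?_⟩
  have hR1 : 1 ≤ R := le_trans (le_max_left _ _) hR
  have hRa : R1 ≤ R := le_trans ((le_max_left _ _).trans (le_max_right _ _)) hR
  have hRb : R2 ≤ R := le_trans ((le_max_left _ _).trans ((le_max_right _ _).trans (le_max_right _ _))) hR
  have hRc : R3 ≤ R := le_trans ((le_max_right _ _).trans ((le_max_right _ _).trans (le_max_right _ _))) hR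
  obtain ⟨L, hL⟩ : ∃ L, L = Lam * R := ⟨_, rfl⟩
  have hRL : R ≤ L := by rw [hL]; nlinarith [hLam.2]
  have e1 := h1 R hRa
  have e2 := h2 L (hRb.trans hRL)
  have e3 := h3 L (hRc.trans hRL)
  -- the good set
  set Y : Set Ω := {ω | ∃ y ∈ (𝓔.gr ω).bl 𝓔.o (C * R), c * 𝓔.a R ≤ 𝓔.D 𝓔.o y} with hY
  set B2 : Set Ω := {ω | ¬ ∃ f : V → ℝ, (∀ x ∈ (𝓔.gr ω).bl 𝓔.o (L / 8), f x = 1) ∧
      (∀ x, x ∉ (𝓔.gr ω).bl 𝓔.o L → f x = 0) ∧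
      (∀ x, |f x| ≤ 1) ∧ (𝓔.gr ω).en ((𝓔.gr ω).bl 𝓔.o (L + 1)) f f ≤ κ / L} with hB2
  set B3 : Set Ω := {ω | C2 * (L : ℝ) ^ 2 < (𝓔.gr ω).vol ((𝓔.gr ω).bl 𝓔.o L)} with hB3
  set B0 : Set Ω := {ω | (𝓔.gr ω).nb 𝓔.o = ∅} with hB0
  have hsub : Y ⊆ (Y \ (B2 ∪ B3 ∪ B0)) ∪ (B2 ∪ B3 ∪ B0) := by
    intro ω hω
    by_cases hω2 : ω ∈ B2 ∪ B3 ∪ B0
    · exact Or.inr hω2
    · exact Or.inl ⟨hω, hω2⟩
  have hlow : p / 2 ≤ 𝓔.ν.real (Y \ (B2 ∪ B3 ∪ B0)) := by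
    have g1 := (measureReal_mono hsub).trans (measureReal_union_le (μ := 𝓔.ν) _ _)
    have g2 := measureReal_union_le (μ := 𝓔.ν) (B2 ∪ B3) B0
    have g3 := measureReal_union_le (μ := 𝓔.ν) B2 B3
    have g4 := h.deg
    linarith
  have hmeas : MeasurableSet {w : ℕ → V | ∃ k ≤ 2 * m * R ^ 3, c * 𝓔.a R ≤ 𝓔.D 𝓔.o (w k)} :=
    meas_dep (2 * m * R ^ 3) fun w w' hw hE => by
      obtain ⟨k, hk, hkE⟩ := hE
      exact ⟨k, hk, by rw [← hw k hk]; exact hkE⟩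
  have hfin := 𝓔.le_pa hmeas hlow (fun ω hω => ?_)
  · linarith
  obtain ⟨⟨y, hy, hyD⟩, hgood⟩ := hω
  simp only [Set.mem_union, not_or] at hgood
  obtain ⟨⟨g2, g3⟩, g0⟩ := hgood
  have g2' := not_not.1 g2
  obtain ⟨f, f1, f2, f3, f4⟩ := g2'
  have g3' : (𝓔.gr ω).vol ((𝓔.gr ω).bl 𝓔.o L) ≤ C2 * (L : ℝ) ^ 2 := not_lt.1 g3
  have g0' : ((𝓔.gr ω).nb 𝓔.o).Nonempty := nonempty_iff_ne_empty.2 g0
  have hR0 : (0 : ℝ) < R := by exact_mod_cast hR1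
  have hLamR : (L : ℝ) = Lam * R := by rw [hL]; push_cast; ring
  have hLam0 : (0 : ℝ) < Lam := by
    have : 0 < Lam := by omega
    exact_mod_cast this
  have hCRL : C * R + 1 ≤ L := by rw [hL]; nlinarith [hLam.2]
  have hyL : y ∈ (𝓔.gr ω).bl 𝓔.o (L / 8) := by
    refine (𝓔.gr ω).bl_mono _ ?_ hy
    rw [Nat.le_div_iff_mul_le (by norm_num), hL]
    nlinarith [hLam.2]
  obtain ⟨T, hT⟩ : ∃ T : ℕ, T = m * R ^ 3 := ⟨_, rfl⟩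
  have hR3 : 1 ≤ R ^ 3 := Nat.one_le_pow _ _ hR1
  have hT2 : 2 ≤ T := by rw [hT]; nlinarith [hm.2]
  have hreach := (𝓔.rw ω).reach (o := 𝓔.o) (y := y) (L := L) (R := C * R) (T := T) hT2 hCRL
    ((𝓔.gr ω).bl_mono _ (Nat.le_succ _) hy) (fun x hx => Gr.nonempty_of_mem g0' hx) f (f1 y hyL) f2 f3 ?_
  · have hprob := (𝓔.rw ω).prob 𝓔.o
    refine hreach.trans (measureReal_mono ?_)
    rintro w ⟨k, hk, hky⟩
    refine ⟨k, ?_, by rw [hky]; exact hyD⟩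
    rw [hT] at hk
    calc k ≤ 2 * (m * R ^ 3) := hk
      _ = 2 * m * R ^ 3 := by ring
  · -- the numerical condition
    have k1 : (𝓔.gr ω).en ((𝓔.gr ω).bl 𝓔.o (L + 1)) f f ≤ |κ| / L :=
      f4.trans (div_le_div_of_nonneg_right (le_abs_self κ) (Nat.cast_nonneg L))
    have hTR : (T : ℝ) = m * (R : ℝ) ^ 3 := by rw [hT]; push_cast; ring
    have hm0 : (0 : ℝ) < m := by
      have : 0 < m := by omega
      exact_mod_cast this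
    have hT0 : (0 : ℝ) < T := by rw [hTR]; positivity
    have k2 : (𝓔.gr ω).vol ((𝓔.gr ω).bl 𝓔.o L) / T ≤ |C2| * (L : ℝ) ^ 2 / T := by
      refine div_le_div_of_nonneg_right (g3'.trans ?_) hT0.le
      exact mul_le_mul_of_nonneg_right (le_abs_self C2) (sq_nonneg _)
    have k3 : 64 * ((C * R : ℕ) : ℝ) * (|κ| / L) ≤ 1 / 2 := by
      rw [hLamR]
      push_cast
      have : 64 * (C * (R : ℝ)) * (|κ| / (Lam * R)) = 64 * C * |κ| / Lam := by field_simp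
      rw [this, div_le_iff₀ hLam0]
      linarith [hLam.1]
    have k4 : 64 * ((C * R : ℕ) : ℝ) * (|C2| * (L : ℝ) ^ 2 / T) ≤ 1 / 2 := by
      rw [hLamR, hTR]
      push_cast
      have : 64 * (C * (R : ℝ)) * (|C2| * (Lam * R) ^ 2 / (m * (R : ℝ) ^ 3)) = 64 * C * |C2| * (Lam : ℝ) ^ 2 / m := by
        field_simp
      rw [this, div_le_iff₀ hm0]
      linarith [hm.1]
    have k5 : (0 : ℝ) ≤ 64 * ((C * R : ℕ) : ℝ) := by positivity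
    have k6 := mul_le_mul_of_nonneg_left (add_le_add k1 k2) k5
    rw [mul_add] at k6
    linarith

end

end Pool.Agent.Lib.IICQ
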