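import Pool.Agent.Lib.MP_06caae_pr.Q.Asm

/-!
# Assembly: tightness of the annealed walk
-/

open Finset MeasureTheory

namespace Pool.Agent.Lib.IICQ

variable {V : Type*} [DecidableEq V] [Countable V] [MeasurableSpace V] [DiscreteMeasurableSpace V] {Ω : Type*}
  [MeasurableSpace Ω] (𝓔 : Env V Ω)

private theorem exists_nat_mul_ge (x y : ℝ) (hy : 0 < y) (k : ℕ) : ∃ n : ℕ, x ≤ y * n ∧ k ≤ n := by
  obtain ⟨n, hn⟩ := exists_nat_ge (x / y)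
  refine ⟨n + k, ?_, by omega⟩
  have h1 : x ≤ y * n := by
    rw [div_le_iff₀ hy] at hn
    linarith
  push_cast
  nlinarith [(Nat.cast_nonneg k : (0 : ℝ) ≤ k)]

private theorem vk {x c W K0 : ℝ} (hx : 0 ≤ x) (hc : 0 < c) (h : c ≤ W) : x ≤ W * max K0 (x / c) := by
  have h1 : x = c * (x / c) := by field_simp
  have h2 : 0 ≤ x / c := div_nonneg hx hc.le
  calc x = c * (x / c) := h1
    _ ≤ W * (x / c) := mul_le_mul_of_nonneg_right h h2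
    _ ≤ W * max K0 (x / c) := mul_le_mul_of_nonneg_left (le_max_right _ _) (hc.le.trans h)

private theorem div_cast_le (R q : ℕ) : ((R / q : ℕ) : ℝ) * q ≤ R := by
  have h1 : R / q * q ≤ R := Nat.div_mul_le_self R q
  exact_mod_cast h1

/-- tightness of the annealed walk -/
theorem EnvGood.tight (h : EnvGood 𝓔) (m : ℕ) {ε η : ℝ} (hε : 0 < ε) (hη : 0 < η) : ∃ δ > (0 : ℝ), ∃ R0 : ℕ, ∀ R ≥ R0,
    ∀ Δ : ℕ, (Δ : ℝ) ≤ δ * (R : ℝ) ^ 3 →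
    𝓔.Pa.real {w | ∃ n k, n ≤ k ∧ k ≤ m * R ^ 3 ∧ k - n ≤ Δ ∧ η * 𝓔.a R < 𝓔.D (w n) (w k)} ≤ ε := by
  have := 𝓔.prob
  have hε0 : (0 : ℝ) < ε / 16 := by positivity
  -- exit scale
  obtain ⟨κ1, Ra, hRa⟩ := h.cut 1 1 le_rfl le_rfl (ε / 16) hε0
  obtain ⟨q1, hq1, hq1'⟩ := exists_nat_mul_ge (16 * |κ1|) ((ε / 32) ^ 2) (by positivity) 2
  obtain ⟨v1, hv1, Rb, hRb⟩ := h.low 1 q1 le_rfl (by omega) (ε / 16) hε0
  obtain ⟨lam, hlam, hlam'⟩ := exists_nat_mul_ge (4 * (2 * m + 1) * |κ1|) ((ε / 32) ^ 2 * v1) (by positivity) 2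
  -- extrinsic modulus
  obtain ⟨q2, hq2, Rc, hRc⟩ := h.ext lam (by omega) (η / 3) (by positivity) (ε / 16) hε0
  obtain ⟨κ2, Rd, hRd⟩ := h.cut lam q2 (by omega) hq2 (ε / 16) hε0
  -- time unit
  obtain ⟨q3, hq3, hq3'⟩ := exists_nat_mul_ge (64 * |κ2|) 1 one_pos (2 * q2)
  obtain ⟨v2, hv2, Re, hRe⟩ := h.low lam q3 (by omega) (by omega) (ε / 16) hε0
  obtain ⟨δ0, hδ0, hδ1, hδ2⟩ : ∃ δ0 : ℝ, 0 < δ0 ∧ δ0 ≤ 1 / 2 ∧ 16 * δ0 * |κ2| ≤ v2 := by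
    refine ⟨min (1 / 2) (v2 / (16 * (|κ2| + 1))), by positivity, min_le_left _ _, ?_⟩
    have h1 : min (1 / 2) (v2 / (16 * (|κ2| + 1))) ≤ v2 / (16 * (|κ2| + 1)) := min_le_right _ _
    have h2 : 16 * (v2 / (16 * (|κ2| + 1))) * |κ2| ≤ v2 := by
      have : 16 * (v2 / (16 * (|κ2| + 1))) * |κ2| = v2 * (|κ2| / (|κ2| + 1)) := by
        field_simp
      rw [this]
      have h3 : |κ2| / (|κ2| + 1) ≤ 1 := by
        rw [div_le_one (by positivity)]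
        linarith
      nlinarith
    have h4 : 16 * min (1 / 2) (v2 / (16 * (|κ2| + 1))) * |κ2| ≤ 16 * (v2 / (16 * (|κ2| + 1))) * |κ2| :=
      mul_le_mul_of_nonneg_right (mul_le_mul_of_nonneg_left h1 (by norm_num)) (abs_nonneg _)
    linarith
  obtain ⟨m', hm', hm''⟩ : ∃ m' : ℕ, 2 * m ≤ δ0 * m' ∧ 1 ≤ m' ∧ δ0 * m' ≤ 2 * m + 1 := by
    refine ⟨⌈2 * m / δ0⌉₊ + 1, ?_, by omega, ?_⟩
    · have h1 := Nat.le_ceil (2 * (m : ℝ) / δ0)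
      rw [div_le_iff₀ hδ0] at h1
      push_cast
      nlinarith
    · have h1 := Nat.ceil_lt_add_one (show (0 : ℝ) ≤ 2 * (m : ℝ) / δ0 by positivity)
      push_cast
      have h2 : δ0 * (2 * (m : ℝ) / δ0) = 2 * m := by field_simp
      nlinarith
  -- short times
  obtain ⟨e4, he4⟩ : ∃ e4 : ℝ, e4 = ε / (64 * 4 ^ m') := ⟨_, rfl⟩
  have he40 : 0 < e4 := by rw [he4]; positivity
  obtain ⟨q4, hq4, hq4'⟩ := exists_nat_mul_ge (16 * |κ2|) (e4 ^ 2) (by positivity) (2 * q2)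
  obtain ⟨v3, hv3, Rf, hRf⟩ := h.low lam q4 (by omega) (by omega) (ε / 16) hε0
  obtain ⟨δ, hδp, hδ4⟩ : ∃ δ : ℝ, 0 < δ ∧ 4 * δ * |κ2| ≤ e4 ^ 2 * v3 := by
    refine ⟨e4 ^ 2 * v3 / (4 * (|κ2| + 1)), by positivity, ?_⟩
    have : 4 * (e4 ^ 2 * v3 / (4 * (|κ2| + 1))) * |κ2| = e4 ^ 2 * v3 * (|κ2| / (|κ2| + 1)) := by
      field_simp
    rw [this]
    have h3 : |κ2| / (|κ2| + 1) ≤ 1 := by
      rw [div_le_one (by positivity)]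
      linarith
    have h4 : 0 < e4 ^ 2 * v3 := by positivity
    nlinarith
  obtain ⟨Rg, hRg, hRg'⟩ := exists_nat_mul_ge 4 δ0 hδ0 (2 * q2 + 2)
  obtain ⟨Rh, hRh, hRh'⟩ := exists_nat_mul_ge 2 δ hδp 1
  refine ⟨δ, hδp, Ra + Rb + Rc + Rd + Re + Rf + Rg + Rh, fun R hR Δ0 hΔ0 => ?_⟩
  have hRg1 : Rg ≤ R := by omega
  have hR1 : 1 ≤ R := by omega
  have hRr : (1 : ℝ) ≤ R := by exact_mod_cast hR1
  have hR3 : (R : ℝ) ≤ (R : ℝ) ^ 3 := by nlinarith [sq_nonneg ((R : ℝ) - 1), mul_pos (by linarith : (0:ℝ) < R) (by linarith : (0:ℝ) < R)]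
  have hR3p : (0 : ℝ) < (R : ℝ) ^ 3 := by positivity
  have hT0 : 4 ≤ δ0 * (R : ℝ) ^ 3 := by
    have h1 : (Rg : ℝ) ≤ R := by exact_mod_cast hRg1
    nlinarith
  have hD0 : 2 ≤ δ * (R : ℝ) ^ 3 := by
    have h1 : (Rh : ℝ) ≤ R := by
      have : Rh ≤ R := by omega
      exact_mod_cast this
    nlinarith
  -- parameters
  obtain ⟨L, hL⟩ : ∃ L, L = lam * R := ⟨_, rfl⟩
  have hRL : R ≤ L := by rw [hL]; nlinarith
  have hLr : (L : ℝ) = lam * R := by rw [hL]; push_cast; ring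
  obtain ⟨T, hTdef⟩ : ∃ T : ℕ, T = ⌊δ0 * (R : ℝ) ^ 3⌋₊ := ⟨_, rfl⟩
  have hTle : (T : ℝ) ≤ δ0 * (R : ℝ) ^ 3 := by rw [hTdef]; exact Nat.floor_le (by positivity)
  have hTge : δ0 * (R : ℝ) ^ 3 / 2 ≤ T := by
    have := Nat.lt_floor_add_one (δ0 * (R : ℝ) ^ 3)
    rw [← hTdef] at this
    linarith
  have hT2 : 2 ≤ T := by
    have : (2 : ℝ) ≤ T := by linarith
    exact_mod_cast this
  obtain ⟨Δ, hΔd⟩ : ∃ Δ, Δ = max Δ0 2 := ⟨_, rfl⟩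
  have hΔ2 : 2 ≤ Δ := by rw [hΔd]; exact le_max_right _ _
  have hΔle : (Δ : ℝ) ≤ δ * (R : ℝ) ^ 3 := by
    rw [hΔd, Nat.cast_max]
    exact max_le hΔ0 (by push_cast; exact hD0)
  -- the time horizon
  have hN : m * R ^ 3 ≤ m' * T := by
    have h1 : (m : ℝ) * (R : ℝ) ^ 3 ≤ m' * T := by
      have h2 : (m' : ℝ) * (δ0 * (R : ℝ) ^ 3 / 2) ≤ m' * T := mul_le_mul_of_nonneg_left hTge (Nat.cast_nonneg _)
      nlinarith
    exact_mod_cast h1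
  have hN2 : ((m' * T : ℕ) : ℝ) ≤ (2 * m + 1) * (R : ℝ) ^ 3 := by
    push_cast
    have h2 : (m' : ℝ) * T ≤ m' * (δ0 * (R : ℝ) ^ 3) := mul_le_mul_of_nonneg_left hTle (Nat.cast_nonneg _)
    nlinarith
  -- bad sets
  have b1 := hRa L (by omega)
  have b2 := hRb L (by omega)
  have b3 := hRc R (by omega)
  have b4 := hRd R (by omega)
  have b5 := hRe R (by omega)
  have b6 := hRf R (by omega)
  rw [one_mul, Nat.div_one] at b1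
  rw [one_mul] at b2
  rw [← hL] at b3 b4 b5 b6
  set S1 : Set Ω := {ω | ∃ z ∈ (𝓔.gr ω).bl 𝓔.o L, ¬ ∃ f : V → ℝ, f z = 1 ∧ (∀ x, x ∉ (𝓔.gr ω).bl z L → f x = 0) ∧
      (∀ x, f x ≤ 1) ∧ (𝓔.gr ω).en ((𝓔.gr ω).bl z (L + 1)) f f ≤ κ1 / L} with hS1
  set S2 : Set Ω := {ω | ∃ z ∈ (𝓔.gr ω).bl 𝓔.o L, (𝓔.gr ω).vol ((𝓔.gr ω).bl z (L / q1)) < v1 * (L : ℝ) ^ 2} with hS2
  set S3 : Set Ω := {ω | ∃ z ∈ (𝓔.gr ω).bl 𝓔.o L, ∃ y ∈ (𝓔.gr ω).bl z (R / q2 + 1), η / 3 * 𝓔.a R < 𝓔.D z y} with hS3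
  set S4 : Set Ω := {ω | ∃ z ∈ (𝓔.gr ω).bl 𝓔.o L, ¬ ∃ f : V → ℝ, f z = 1 ∧ (∀ x, x ∉ (𝓔.gr ω).bl z (R / q2) → f x = 0) ∧
      (∀ x, f x ≤ 1) ∧ (𝓔.gr ω).en ((𝓔.gr ω).bl z (R / q2 + 1)) f f ≤ κ2 / R} with hS4
  set S5 : Set Ω := {ω | ∃ z ∈ (𝓔.gr ω).bl 𝓔.o L, (𝓔.gr ω).vol ((𝓔.gr ω).bl z (R / q3)) < v2 * (R : ℝ) ^ 2} with hS5
  set S6 : Set Ω := {ω | ∃ z ∈ (𝓔.gr ω).bl 𝓔.o L, (𝓔.gr ω).vol ((𝓔.gr ω).bl z (R / q4)) < v3 * (R : ℝ) ^ 2} with hS6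
  set S0 : Set Ω := {ω | (𝓔.gr ω).nb 𝓔.o = ∅} with hS0
  have hBad : 𝓔.ν.real (S0 ∪ S1 ∪ S2 ∪ S3 ∪ S4 ∪ S5 ∪ S6) ≤ 6 * (ε / 16) := by
    have g1 := measureReal_union_le (μ := 𝓔.ν) (S0 ∪ S1 ∪ S2 ∪ S3 ∪ S4 ∪ S5) S6
    have g2 := measureReal_union_le (μ := 𝓔.ν) (S0 ∪ S1 ∪ S2 ∪ S3 ∪ S4) S5
    have g3 := measureReal_union_le (μ := 𝓔.ν) (S0 ∪ S1 ∪ S2 ∪ S3) S4
    have g4 := measureReal_union_le (μ := 𝓔.ν) (S0 ∪ S1 ∪ S2) S3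
    have g5 := measureReal_union_le (μ := 𝓔.ν) (S0 ∪ S1) S2
    have g6 := measureReal_union_le (μ := 𝓔.ν) S0 S1
    have g7 := h.deg
    linarith
  have hmeas : MeasurableSet {w : ℕ → V | ∃ n k, n ≤ k ∧ k ≤ m * R ^ 3 ∧ k - n ≤ Δ0 ∧ η * 𝓔.a R < 𝓔.D (w n) (w k)} :=
    meas_dep (m * R ^ 3) fun w w' hw hE => by
      obtain ⟨n, k, hnk, hk, hkn, hkE⟩ := hE
      exact ⟨n, k, hnk, hk, hkn, by rw [← hw k hk, ← hw n (by omega)]; exact hkE⟩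
  refine (𝓔.pa_le hmeas (b := ε / 4) (by positivity) hBad fun ω hω => ?_).trans (by linarith)
  simp only [Set.mem_union, not_or] at hω
  obtain ⟨⟨⟨⟨⟨⟨s0, s1⟩, s2⟩, s3⟩, s4⟩, s5⟩, s6⟩ := hω
  have hdeg : ((𝓔.gr ω).nb 𝓔.o).Nonempty := nonempty_iff_ne_empty.2 s0
  have hprob := (𝓔.rw ω).prob 𝓔.o
  have hL0 : 0 < L := by omega
  have hLp : (0 : ℝ) < L := by exact_mod_cast hL0
  have ho : 𝓔.o ∈ (𝓔.gr ω).bl 𝓔.o L := (𝓔.gr ω).self_mem_bl _ hL0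
  have hRp : (0 : ℝ) < R := by linarith
  -- the good facts
  have t1 : ∃ f : V → ℝ, f 𝓔.o = 1 ∧ (∀ x, x ∉ (𝓔.gr ω).bl 𝓔.o L → f x = 0) ∧ (∀ x, f x ≤ 1) ∧
      (𝓔.gr ω).en ((𝓔.gr ω).bl 𝓔.o (L + 1)) f f ≤ |κ1| / L := by
    have := fun hcon => s1 ⟨𝓔.o, ho, hcon⟩
    obtain ⟨f, f1, f2, f3, f4⟩ := not_not.1 this
    exact ⟨f, f1, f2, f3, f4.trans (div_le_div_of_nonneg_right (le_abs_self _) hLp.le)⟩
  have t2 : v1 * (L : ℝ) ^ 2 ≤ (𝓔.gr ω).vol ((𝓔.gr ω).bl 𝓔.o (L / q1)) := by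
    by_contra hcon
    exact s2 ⟨𝓔.o, ho, not_le.1 hcon⟩
  have t3 : ∀ z ∈ (𝓔.gr ω).bl 𝓔.o L, ∀ y ∈ (𝓔.gr ω).bl z (R / q2 + 1), 𝓔.D z y ≤ η / 3 * 𝓔.a R := by
    intro z hz y hy
    by_contra hcon
    exact s3 ⟨z, hz, y, hy, not_le.1 hcon⟩
  have t4 : ∀ z ∈ (𝓔.gr ω).bl 𝓔.o L, ∃ f : V → ℝ, f z = 1 ∧ (∀ x, x ∉ (𝓔.gr ω).bl z (R / q2) → f x = 0) ∧
      (∀ x, f x ≤ 1) ∧ (𝓔.gr ω).en ((𝓔.gr ω).bl z (R / q2 + 1)) f f ≤ |κ2| / R := by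
    intro z hz
    have := fun hcon => s4 ⟨z, hz, hcon⟩
    obtain ⟨f, f1, f2, f3, f4⟩ := not_not.1 this
    exact ⟨f, f1, f2, f3, f4.trans (div_le_div_of_nonneg_right (le_abs_self _) hRp.le)⟩
  have t5 : ∀ z ∈ (𝓔.gr ω).bl 𝓔.o L, v2 * (R : ℝ) ^ 2 ≤ (𝓔.gr ω).vol ((𝓔.gr ω).bl z (R / q3)) := by
    intro z hz
    by_contra hcon
    exact s5 ⟨z, hz, not_le.1 hcon⟩
  have t6 : ∀ z ∈ (𝓔.gr ω).bl 𝓔.o L, v3 * (R : ℝ) ^ 2 ≤ (𝓔.gr ω).vol ((𝓔.gr ω).bl z (R / q4)) := by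
    intro z hz
    by_contra hcon
    exact s6 ⟨z, hz, not_le.1 hcon⟩
  -- radii
  have hρ2 : 2 ≤ R / q2 := by
    rw [Nat.le_div_iff_mul_le (by omega)]
    omega
  have hr2 : R / q3 + 1 ≤ R / q2 := by
    have h1 : R / q3 ≤ R / (q2 * 2) := Nat.div_le_div_left (by omega) (by omega)
    rw [← Nat.div_div_eq_div_mul] at h1
    omega
  have hr1 : R / q4 + 1 ≤ R / q2 := by
    have h1 : R / q4 ≤ R / (q2 * 2) := Nat.div_le_div_left (by omega) (by omega)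
    rw [← Nat.div_div_eq_div_mul] at h1
    omega
  have hr3 : L / q1 + 1 ≤ L := by
    have h1 : L / q1 ≤ L / 2 := Nat.div_le_div_left hq1' (by norm_num)
    have h2 : 2 ≤ L := by omega
    omega
  -- numerical facts
  have hvol : ∀ z r, (𝓔.gr ω).vol ((𝓔.gr ω).bl z r) ≤ (𝓔.gr ω).vol ((𝓔.gr ω).bl z (r + 1)) :=
    fun z r => Gr.vol_mono ((𝓔.gr ω).bl_mono z (Nat.le_succ r))
  have key := (𝓔.rw ω).tight (D := 𝓔.D) 𝓔.symm 𝓔.tri (o := 𝓔.o) (L := L) (ρ := R / q2) (Δ := Δ) (T := T) (m := m')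
    (by omega) hΔ2 hT2 hm''.1 (η := η / 3 * 𝓔.a R) (mul_nonneg (by positivity) (𝓔.apos R)) t3
    (fun x hx => Gr.nonempty_of_mem hdeg hx) (E := |κ2| / R) t4
    (r1 := R / q4) hr1 (K1 := max (16 * ((R / q4 : ℕ) : ℝ)) (4 * Δ / (v3 * (R : ℝ) ^ 2))) (le_max_left _ _)
    (fun z hz => vk (by positivity) (by positivity) ((t6 z hz).trans (hvol z (R / q4))))
    (r2 := R / q3) hr2 (K2 := max (16 * ((R / q3 : ℕ) : ℝ)) (4 * T / (v2 * (R : ℝ) ^ 2))) (le_max_left _ _)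
    (fun z hz => vk (by positivity) (by positivity) ((t5 z hz).trans (hvol z (R / q3))))
    (by
      rw [max_mul_of_nonneg _ _ (by positivity), mul_max_of_nonneg _ _ (by norm_num)]
      refine max_le ?_ ?_
      · have h1 := div_cast_le R q3
        have hq3p : (0 : ℝ) < q3 := by
          have : 0 < q3 := by omega
          exact_mod_cast this
        have h2 : 4 * (16 * ((R / q3 : ℕ) : ℝ) * (|κ2| / R)) = (64 * |κ2|) * (((R / q3 : ℕ) : ℝ) / R) := by ring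
        rw [h2]
        have h3 : ((R / q3 : ℕ) : ℝ) / R ≤ 1 / q3 := by
          rw [div_le_div_iff₀ hRp hq3p]
          linarith
        calc (64 * |κ2|) * (((R / q3 : ℕ) : ℝ) / R) ≤ (64 * |κ2|) * (1 / q3) :=
              mul_le_mul_of_nonneg_left h3 (by positivity)
          _ ≤ 1 := by
              rw [mul_one_div, div_le_one hq3p]
              linarith
      · have h2 : 4 * (4 * (T : ℝ) / (v2 * (R : ℝ) ^ 2) * (|κ2| / R)) = (16 * |κ2| * T) / (v2 * (R : ℝ) ^ 3) := by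
          field_simp
          ring
        rw [h2, div_le_one (by positivity)]
        calc 16 * |κ2| * (T : ℝ) ≤ 16 * |κ2| * (δ0 * (R : ℝ) ^ 3) := mul_le_mul_of_nonneg_left hTle (by positivity)
          _ = (16 * δ0 * |κ2|) * (R : ℝ) ^ 3 := by ring
          _ ≤ v2 * (R : ℝ) ^ 3 := mul_le_mul_of_nonneg_right hδ2 hR3p.le)
    (r3 := L / q1) hr3 (K3 := max (16 * ((L / q1 : ℕ) : ℝ)) (4 * ((m' * T : ℕ) : ℝ) / (v1 * (L : ℝ) ^ 2))) (le_max_left _ _)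
    (vk (by positivity) (by positivity) (t2.trans (hvol 𝓔.o (L / q1))))
    (E3 := |κ1| / L) t1 (m * R ^ 3) hN
  have hsub : {w : ℕ → V | ∃ n k, n ≤ k ∧ k ≤ m * R ^ 3 ∧ k - n ≤ Δ0 ∧ η * 𝓔.a R < 𝓔.D (w n) (w k)} ⊆
      {w | ∃ n k, n ≤ k ∧ k ≤ m * R ^ 3 ∧ k - n ≤ Δ ∧ 3 * (η / 3 * 𝓔.a R) < 𝓔.D (w n) (w k)} := by
    rintro w ⟨n, k, hnk, hk, hkn, hkE⟩
    refine ⟨n, k, hnk, hk, hkn.trans (by rw [hΔd]; exact le_max_left _ _), ?_⟩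
    have : 3 * (η / 3 * 𝓔.a R) = η * 𝓔.a R := by ring
    rw [this]
    exact hkE
  refine (measureReal_mono hsub).trans (key.trans ?_)
  -- final numerical estimate
  have n1 : √(max (16 * ((L / q1 : ℕ) : ℝ)) (4 * ((m' * T : ℕ) : ℝ) / (v1 * (L : ℝ) ^ 2)) * (|κ1| / L)) ≤ ε / 32 := by
    rw [Real.sqrt_le_iff]
    refine ⟨by positivity, ?_⟩
    rw [max_mul_of_nonneg _ _ (by positivity)]
    refine max_le ?_ ?_
    · have h1 := div_cast_le L q1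
      have hq1p : (0 : ℝ) < q1 := by
        have : 0 < q1 := by omega
        exact_mod_cast this
      have h2 : 16 * ((L / q1 : ℕ) : ℝ) * (|κ1| / L) = (16 * |κ1|) * (((L / q1 : ℕ) : ℝ) / L) := by ring
      rw [h2]
      have h3 : ((L / q1 : ℕ) : ℝ) / L ≤ 1 / q1 := by
        rw [div_le_div_iff₀ hLp hq1p]
        linarith
      calc (16 * |κ1|) * (((L / q1 : ℕ) : ℝ) / L) ≤ (16 * |κ1|) * (1 / q1) :=
            mul_le_mul_of_nonneg_left h3 (by positivity)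
        _ ≤ (ε / 32) ^ 2 := by
            rw [mul_one_div, div_le_iff₀ hq1p]
            exact hq1
    · have h2 : 4 * ((m' * T : ℕ) : ℝ) / (v1 * (L : ℝ) ^ 2) * (|κ1| / L) = (4 * |κ1| * ((m' * T : ℕ) : ℝ)) / (v1 * (L : ℝ) ^ 3) := by
        field_simp
      rw [h2, div_le_iff₀ (by positivity)]
      have hlamp : (1 : ℝ) ≤ lam := by
        have : 1 ≤ lam := by omega
        exact_mod_cast this
      have h3 : (lam : ℝ) ≤ (lam : ℝ) ^ 3 := by nlinarith [sq_nonneg ((lam : ℝ) - 1), mul_pos (by linarith : (0:ℝ) < lam) (by linarith : (0:ℝ) < lam)]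
      calc 4 * |κ1| * ((m' * T : ℕ) : ℝ) ≤ 4 * |κ1| * ((2 * m + 1) * (R : ℝ) ^ 3) :=
            mul_le_mul_of_nonneg_left hN2 (by positivity)
        _ = (4 * (2 * m + 1) * |κ1|) * (R : ℝ) ^ 3 := by ring
        _ ≤ ((ε / 32) ^ 2 * v1 * lam) * (R : ℝ) ^ 3 := mul_le_mul_of_nonneg_right hlam hR3p.le
        _ ≤ ((ε / 32) ^ 2 * v1 * (lam : ℝ) ^ 3) * (R : ℝ) ^ 3 :=
            mul_le_mul_of_nonneg_right (mul_le_mul_of_nonneg_left h3 (by positivity)) hR3p.le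
        _ = (ε / 32) ^ 2 * (v1 * (L : ℝ) ^ 3) := by rw [hLr]; ring
  have n2 : √(max (16 * ((R / q4 : ℕ) : ℝ)) (4 * Δ / (v3 * (R : ℝ) ^ 2)) * (|κ2| / R)) ≤ e4 := by
    rw [Real.sqrt_le_iff]
    refine ⟨he40.le, ?_⟩
    rw [max_mul_of_nonneg _ _ (by positivity)]
    refine max_le ?_ ?_
    · have h1 := div_cast_le R q4
      have hq4p : (0 : ℝ) < q4 := by
        have : 0 < q4 := by omega
        exact_mod_cast this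
      have h2 : 16 * ((R / q4 : ℕ) : ℝ) * (|κ2| / R) = (16 * |κ2|) * (((R / q4 : ℕ) : ℝ) / R) := by ring
      rw [h2]
      have h3 : ((R / q4 : ℕ) : ℝ) / R ≤ 1 / q4 := by
        rw [div_le_div_iff₀ hRp hq4p]
        linarith
      calc (16 * |κ2|) * (((R / q4 : ℕ) : ℝ) / R) ≤ (16 * |κ2|) * (1 / q4) :=
            mul_le_mul_of_nonneg_left h3 (by positivity)
        _ ≤ e4 ^ 2 := by
            rw [mul_one_div, div_le_iff₀ hq4p]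
            exact hq4
    · have h2 : 4 * (Δ : ℝ) / (v3 * (R : ℝ) ^ 2) * (|κ2| / R) = (4 * |κ2| * Δ) / (v3 * (R : ℝ) ^ 3) := by
        field_simp
      rw [h2, div_le_iff₀ (by positivity)]
      calc 4 * |κ2| * (Δ : ℝ) ≤ 4 * |κ2| * (δ * (R : ℝ) ^ 3) := mul_le_mul_of_nonneg_left hΔle (by positivity)
        _ = (4 * δ * |κ2|) * (R : ℝ) ^ 3 := by ring
        _ ≤ (e4 ^ 2 * v3) * (R : ℝ) ^ 3 := mul_le_mul_of_nonneg_right hδ4 hR3p.le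
        _ = e4 ^ 2 * (v3 * (R : ℝ) ^ 3) := by ring
  have n3 : (4 : ℝ) ^ m' * (8 * e4) = ε / 8 := by
    rw [he4]
    field_simp
    ring
  calc _ ≤ 4 * (ε / 32) + 4 ^ m' * (8 * e4) := by
        refine add_le_add (mul_le_mul_of_nonneg_left n1 (by norm_num)) ?_
        exact mul_le_mul_of_nonneg_left (mul_le_mul_of_nonneg_left n2 (by norm_num)) (by positivity)
    _ = ε / 4 := by rw [n3]; ring

end Pool.Agent.Lib.IICQ
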