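import Pool.Agent.Lib.MP_06caae_pr.Q.Lane

/-!
# Bridge: locally finite simple graphs
-/

open Finset

namespace Pool.Agent.Lib.IICQ

variable {V : Type*} [DecidableEq V]

/-- the neighbour sets of a locally finite simple graph -/
def ofSG (H : SimpleGraph V) [H.LocallyFinite] : Gr V where
  nb x := H.neighborFinset x
  symm x y h := by
    rw [SimpleGraph.mem_neighborFinset] at h ⊢
    exact h.symm

theorem mem_nb_ofSG (H : SimpleGraph V) [H.LocallyFinite] (x y : V) : y ∈ (ofSG H).nb x ↔ H.Adj x y :=
  H.mem_neighborFinset x y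

/-- closed balls: existence of a walk of length at most `n` -/
theorem mem_bl_ofSG (H : SimpleGraph V) [H.LocallyFinite] (z x : V) (n : ℕ) :
    x ∈ (ofSG H).bl z (n + 1) ↔ ∃ p : H.Walk z x, p.length ≤ n := by
  induction n generalizing x with
  | zero =>
    rw [Gr.mem_bl_succ, Gr.bl_zero]
    constructor
    · rintro (h | h | ⟨y, hy, _⟩)
      · subst h
        exact ⟨SimpleGraph.Walk.nil, le_rfl⟩
      · exact absurd h (notMem_empty _)
      · exact absurd hy (notMem_empty _)
    · rintro ⟨p, hp⟩
      left
      exact (SimpleGraph.Walk.eq_of_length_eq_zero (Nat.le_zero.1 hp)).symm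
  | succ n ih =>
    rw [Gr.mem_bl_succ]
    constructor
    · rintro (h | h | ⟨y, hy, hxy⟩)
      · subst h
        exact ⟨SimpleGraph.Walk.nil, Nat.zero_le _⟩
      · obtain ⟨p, hp⟩ := (ih x).1 h
        exact ⟨p, by omega⟩
      · obtain ⟨p, hp⟩ := (ih y).1 hy
        rw [mem_nb_ofSG] at hxy
        exact ⟨p.concat hxy, by rw [SimpleGraph.Walk.length_concat]; omega⟩
    · rintro ⟨p, hp⟩
      rcases Nat.eq_zero_or_pos p.length with h0 | h0
      · left
        exact (SimpleGraph.Walk.eq_of_length_eq_zero h0).symm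
      · right; right
        obtain ⟨y, q, hyx, hpq⟩ : ∃ (y : V) (q : H.Walk z y) (hyx : H.Adj y x), p = q.concat hyx := by
          have h1 : ¬ p.reverse.Nil := by
            rw [SimpleGraph.Walk.nil_iff_length_eq, SimpleGraph.Walk.length_reverse]
            omega
          cases hr : p.reverse with
          | nil => rw [hr] at h1; exact absurd SimpleGraph.Walk.Nil.nil h1
          | cons hadj q =>
            refine ⟨_, q.reverse, hadj.symm, ?_⟩
            have h2 : p = p.reverse.reverse := (SimpleGraph.Walk.reverse_reverse p).symm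
            rw [h2, hr, SimpleGraph.Walk.reverse_cons, SimpleGraph.Walk.concat_eq_append]
        refine ⟨y, (ih y).2 ⟨q, ?_⟩, (mem_nb_ofSG H y x).2 hyx⟩
        rw [hpq, SimpleGraph.Walk.length_concat] at hp
        omega

end Pool.Agent.Lib.IICQ
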