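import Pool.Agent.Lib.MP_06caae_pr.Q.Res

/-!
# Quenched part: exit probabilities

`G.ex B n x` is the probability that the walk from `x` leaves `B` within `n` steps (including time 0).
`exit_le`: `ex B T z ≤ 4 (K E(f))^(1/2)` for every cutoff `f ≤ 1`, `f z = 1`, `f = 0` off `B`, if `16 r ≤ K` and
`4 T ≤ vol (bl z (r + 1)) K`.
-/

open Finset

namespace Pool.Agent.Lib.IICQ

variable {V : Type*} [DecidableEq V] (G : Gr V)

/-- probability to leave `B` within `n` steps -/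
noncomputable def Gr.ex (B : Finset V) : ℕ → V → ℝ
  | 0, x => if x ∈ B then 0 else 1
  | n + 1, x => if x ∈ B then G.av (Gr.ex B n) x else 1

theorem Gr.ex_zero (B : Finset V) (x : V) : G.ex B 0 x = if x ∈ B then 0 else 1 := rfl

theorem Gr.ex_succ (B : Finset V) (n : ℕ) (x : V) :
    G.ex B (n + 1) x = if x ∈ B then G.av (G.ex B n) x else 1 := rfl

theorem Gr.av_mono {f g : V → ℝ} (h : ∀ x, f x ≤ g x) (x : V) : G.av f x ≤ G.av g x := by
  unfold Gr.av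
  split_ifs
  · exact h x
  · exact div_le_div_of_nonneg_right (sum_le_sum fun y _ => h y) (G.dg_nonneg x)

theorem Gr.av_mono' {f g : V → ℝ} {x : V} (h0 : f x ≤ g x) (h : ∀ y ∈ G.nb x, f y ≤ g y) : G.av f x ≤ G.av g x := by
  unfold Gr.av
  split_ifs
  · exact h0
  · exact div_le_div_of_nonneg_right (sum_le_sum fun y hy => h y hy) (G.dg_nonneg x)

theorem Gr.av_const (c : ℝ) (x : V) : G.av (fun _ => c) x = c := by
  unfold Gr.av
  split_ifs with h
  · rfl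
  · rw [sum_const, nsmul_eq_mul]
    have := G.dg_pos (nonempty_iff_ne_empty.2 h)
    unfold Gr.dg at this ⊢
    field_simp

theorem Gr.av_nonneg {f : V → ℝ} (h : ∀ x, 0 ≤ f x) (x : V) : 0 ≤ G.av f x := by
  rw [← G.av_const 0 x]
  exact G.av_mono h x

theorem Gr.av_le {f : V → ℝ} {c : ℝ} (h : ∀ x, f x ≤ c) (x : V) : G.av f x ≤ c := by
  rw [← G.av_const c x]
  exact G.av_mono h x

theorem Gr.av_smul (c : ℝ) (f : V → ℝ) (x : V) : G.av (fun y => c * f y) x = c * G.av f x := by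
  unfold Gr.av
  split_ifs
  · rfl
  · rw [← mul_sum, mul_div_assoc]

theorem Gr.av_add (f g : V → ℝ) (x : V) : G.av (fun y => f y + g y) x = G.av f x + G.av g x := by
  unfold Gr.av
  split_ifs
  · rfl
  · rw [sum_add_distrib, add_div]

theorem Gr.ex_mem (B : Finset V) (n : ℕ) (x : V) : 0 ≤ G.ex B n x ∧ G.ex B n x ≤ 1 := by
  induction n generalizing x with
  | zero => rw [G.ex_zero]; split_ifs <;> norm_num
  | succ n ih =>
    rw [G.ex_succ]
    split_ifs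
    · exact ⟨G.av_nonneg (fun y => (ih y).1) x, G.av_le (fun y => (ih y).2) x⟩
    · norm_num

theorem Gr.L_eq_zero_iff {s : ℝ} {u : V → ℝ} {x : V} (h : (G.nb x).Nonempty) :
    G.L s u x = 0 ↔ u x = s * G.av u x := by
  have hd := G.dg_pos h
  unfold Gr.L Gr.av
  rw [if_neg (nonempty_iff_ne_empty.1 h)]
  constructor
  · intro h1
    field_simp
    linarith
  · intro h1
    rw [h1]
    field_simp
    ring

/-- the discounted exit function exists -/
theorem Gr.exists_u {s : ℝ} (hs0 : 0 ≤ s) (hs1 : s < 1) {B : Finset V} (hd : ∀ x ∈ B, (G.nb x).Nonempty) :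
    ∃ u : V → ℝ, (∀ x, x ∉ B → u x = 1) ∧ (∀ x ∈ B, u x = s * G.av u x) ∧ (∀ x, 0 ≤ u x) ∧ ∀ x, u x ≤ 1 := by
  obtain ⟨w, hw0, hw1⟩ := G.solve hs0 hs1 hd (fun x => (1 - s) * G.dg x)
  have hoff : ∀ x, x ∉ B → (1 - w x) = 1 := fun x hx => by rw [hw0 x hx, sub_zero]
  have hL : ∀ x ∈ B, G.L s (fun y => 1 - w y) x = 0 := by
    intro x hx
    have h1 := hw1 x hx
    unfold Gr.L at h1 ⊢
    rw [sum_sub_distrib, sum_const, nsmul_eq_mul, mul_one]
    have h2 : ((G.nb x).card : ℝ) = G.dg x := rfl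
    rw [h2]
    linarith
  have hu0 := G.minp hs0 hs1 hd (fun y => 1 - w y) (fun x hx => by rw [hoff x hx]; norm_num) (fun x hx => (hL x hx).ge)
  have hw00 := G.minp hs0 hs1 hd w (fun x hx => (hw0 x hx).ge) (fun x hx => by
    rw [hw1 x hx]
    exact mul_nonneg (by linarith) (G.dg_nonneg x))
  refine ⟨fun y => 1 - w y, hoff, fun x hx => (G.L_eq_zero_iff (hd x hx)).1 (hL x hx), hu0, fun x => ?_⟩
  have := hw00 x
  show 1 - w x ≤ 1
  linarith

/-- exit probabilities are bounded by the discounted exit function -/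
theorem Gr.ex_le_u {s : ℝ} (hs0 : 0 < s) {B : Finset V} {u : V → ℝ} (h1 : ∀ x, x ∉ B → u x = 1)
    (h2 : ∀ x ∈ B, u x = s * G.av u x) (h3 : ∀ x, 0 ≤ u x) (hs1 : s ≤ 1) (n : ℕ) (x : V) :
    s ^ n * G.ex B n x ≤ u x := by
  induction n generalizing x with
  | zero =>
    rw [G.ex_zero, pow_zero, one_mul]
    split_ifs with hx
    · exact h3 x
    · rw [h1 x hx]
  | succ n ih =>
    rw [G.ex_succ]
    split_ifs with hx
    · rw [h2 x hx, pow_succ, mul_comm (s ^ n) s, mul_assoc, ← G.av_smul]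
      exact mul_le_mul_of_nonneg_left (G.av_mono ih x) hs0.le
    · rw [h1 x hx, mul_one]
      exact pow_le_one₀ hs0.le hs1

/-- the basic estimate -/
theorem Gr.u_le {s : ℝ} (hs0 : 0 < s) (hs1 : s < 1) {B C : Finset V} (hBC : B ⊆ C) (hC : ∀ x ∈ B, G.nb x ⊆ C)
    (hd : ∀ x ∈ B, (G.nb x).Nonempty) {z : V} (hz : z ∈ B) {u : V → ℝ} (h1 : ∀ x, x ∉ B → u x = 1)
    (h2 : ∀ x ∈ B, u x = s * G.av u x) (r : ℕ) (hr : G.bl z (r + 1) ⊆ B) (K : ℝ) (hK1 : 8 * r ≤ s * K)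
    (hK2 : 4 ≤ (1 - s) * G.vol (G.bl z (r + 1)) * K) (hK0 : 0 ≤ K) (f : V → ℝ) (hfz : f z = 1)
    (hf0 : ∀ x, x ∉ B → f x = 0) (hf1 : ∀ x, f x ≤ 1) : u z ≤ √(K * G.en C f f) := by
  obtain ⟨g, hg0, hg1, hg2⟩ := G.green hs0.le hs1 hd z
  have hgz := G.green_le hs0 hs1 hBC hC hz hg0 hg1 r hr K hK1 hK2 hK0
  have pick : ∀ k : V → ℝ, ∑ x ∈ B, k x * G.L s g x = k z := by
    intro k
    rw [sum_congr rfl fun x hx => by rw [hg1 x hx]]
    simp only [mul_ite, mul_one, mul_zero]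
    rw [sum_ite_eq' B z, if_pos hz]
  have e1 : g z = s * G.en C g g + (1 - s) * ∑ x ∈ B, G.dg x * (g x * g x) := by
    rw [← G.pair hBC hC s g g hg0, pick]
  have e2 : 1 = s * G.en C f g + (1 - s) * ∑ x ∈ B, G.dg x * (f x * g x) := by
    rw [← G.pair hBC hC s f g hf0, pick, hfz]
  have e3 : 1 - u z = (1 - s) * ∑ x ∈ B, G.dg x * g x := by
    have h3 : ∑ x ∈ B, (fun x => 1 - u x) x * G.L s g x = 1 - u z := pick _
    rw [← h3, G.pair_comm hBC hC s _ g (fun x hx => by show 1 - u x = 0; rw [h1 x hx]; ring) hg0, mul_sum]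
    refine sum_congr rfl fun x hx => ?_
    have h4 := (G.L_eq_zero_iff (hd x hx)).2 (h2 x hx)
    have h5 : G.L s (fun x => 1 - u x) x = (1 - s) * G.dg x := by
      unfold Gr.L at h4 ⊢
      rw [sum_sub_distrib, sum_const, nsmul_eq_mul, mul_one]
      have h6 : ((G.nb x).card : ℝ) = G.dg x := rfl
      rw [h6]
      linarith
    rw [h5]
    ring
  have h7 : ∑ x ∈ B, G.dg x * (f x * g x) ≤ ∑ x ∈ B, G.dg x * g x := by
    refine sum_le_sum fun x _ => mul_le_mul_of_nonneg_left ?_ (G.dg_nonneg x)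
    have := hf1 x
    nlinarith [hg2 x]
  have h8 : u z ≤ s * G.en C f g := by
    have := mul_le_mul_of_nonneg_left h7 (by linarith : 0 ≤ 1 - s)
    linarith
  refine h8.trans (Real.le_sqrt_of_sq_le ?_)
  have h9 := G.en_sq_le C f g
  have h10 : s * G.en C g g ≤ K := by
    have : 0 ≤ (1 - s) * ∑ x ∈ B, G.dg x * (g x * g x) :=
      mul_nonneg (by linarith) (sum_nonneg fun x _ => mul_nonneg (G.dg_nonneg x) (mul_self_nonneg _))
    linarith
  have hf := G.en_nonneg C f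
  have hg := G.en_nonneg C g
  calc (s * G.en C f g) ^ 2 = s * (s * G.en C f g ^ 2) := by ring
    _ ≤ 1 * (s * G.en C f g ^ 2) := mul_le_mul_of_nonneg_right hs1.le (mul_nonneg hs0.le (sq_nonneg _))
    _ ≤ s * (G.en C f f * G.en C g g) := by rw [one_mul]; exact mul_le_mul_of_nonneg_left h9 hs0.le
    _ = (s * G.en C g g) * G.en C f f := by ring
    _ ≤ K * G.en C f f := mul_le_mul_of_nonneg_right h10 hf

/-- `(1 - 1/T)^T ≥ 1/4` -/
theorem quarter_le_pow (T : ℕ) (hT : 2 ≤ T) : 1 / 4 ≤ (1 - 1 / (T : ℝ)) ^ T := by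
  obtain ⟨m, hm⟩ := Nat.even_or_odd' T
  have hT0 : (2 : ℝ) ≤ T := by exact_mod_cast hT
  have h1T : 1 / (T : ℝ) ≤ 1 / 2 := one_div_le_one_div_of_le (by norm_num) hT0
  have h1T0 : 0 < 1 / (T : ℝ) := by positivity
  rcases hm with hm | hm
  · -- T = 2 m
    have hm1 : 1 ≤ m := by omega
    have hb : (1 / 2 : ℝ) ≤ (1 - 1 / (T : ℝ)) ^ m := by
      have h2 := one_add_mul_le_pow (a := -(1 / (T : ℝ))) (by linarith) m
      have h3 : (m : ℝ) * (1 / (T : ℝ)) = 1 / 2 := by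
        have hmT : (T : ℝ) = 2 * m := by exact_mod_cast hm
        rw [hmT]
        have : (m : ℝ) ≠ 0 := by positivity
        field_simp
      have h4 : 1 + (m : ℝ) * -(1 / (T : ℝ)) = 1 / 2 := by linarith
      rw [h4] at h2
      rwa [← sub_eq_add_neg] at h2
    have h5 : (1 - 1 / (T : ℝ)) ^ T = ((1 - 1 / (T : ℝ)) ^ m) ^ 2 := by
      rw [← pow_mul, mul_comm, ← hm]
    rw [h5]
    nlinarith
  · have hm1 : 1 ≤ m := by omega
    have hmT : (T : ℝ) = 2 * m + 1 := by exact_mod_cast hm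
    have hm0 : (1 : ℝ) ≤ m := by exact_mod_cast hm1
    have hb1 : (((m : ℝ) + 1) / (2 * m + 1)) ≤ (1 - 1 / (T : ℝ)) ^ m := by
      have h2 := one_add_mul_le_pow (a := -(1 / (T : ℝ))) (by linarith) m
      have h4 : 1 + (m : ℝ) * -(1 / (T : ℝ)) = ((m : ℝ) + 1) / (2 * m + 1) := by
        rw [hmT]
        field_simp
        ring
      rw [h4] at h2
      rwa [← sub_eq_add_neg] at h2
    have h5 : (1 - 1 / (T : ℝ)) ^ T = ((1 - 1 / (T : ℝ)) ^ m) ^ 2 * (1 - 1 / (T : ℝ)) := by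
      rw [← pow_mul, ← pow_succ, mul_comm m 2, ← hm]
    rw [h5]
    have h6 : (1 - 1 / (T : ℝ)) = 2 * m / (2 * m + 1) := by
      rw [hmT]
      field_simp
      ring
    have h7 : (((m : ℝ) + 1) / (2 * m + 1)) ^ 2 ≤ ((1 - 1 / (T : ℝ)) ^ m) ^ 2 :=
      pow_le_pow_left₀ (by positivity) hb1 2
    have h8 : (1 : ℝ) / 4 ≤ (((m : ℝ) + 1) / (2 * m + 1)) ^ 2 * (2 * m / (2 * m + 1)) := by
      rw [div_pow, div_mul_div_comm, div_le_div_iff₀ (by norm_num) (by positivity)]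
      nlinarith [pow_pos (by linarith : (0:ℝ) < m) 2, pow_pos (by linarith : (0:ℝ) < m) 3]
    calc (1 : ℝ) / 4 ≤ (((m : ℝ) + 1) / (2 * m + 1)) ^ 2 * (2 * m / (2 * m + 1)) := h8
      _ ≤ ((1 - 1 / (T : ℝ)) ^ m) ^ 2 * (2 * m / (2 * m + 1)) :=
          mul_le_mul_of_nonneg_right h7 (by positivity)
      _ = _ := by rw [← h6]

/-- the exit estimate -/
theorem Gr.exit_le {B C : Finset V} (hBC : B ⊆ C) (hC : ∀ x ∈ B, G.nb x ⊆ C)
    (hd : ∀ x ∈ B, (G.nb x).Nonempty) {z : V} (hz : z ∈ B) (T : ℕ) (hT : 2 ≤ T) (r : ℕ) (hr : G.bl z (r + 1) ⊆ B)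
    (K : ℝ) (hK1 : 16 * r ≤ K) (hK2 : 4 * T ≤ G.vol (G.bl z (r + 1)) * K) (f : V → ℝ) (hfz : f z = 1)
    (hf0 : ∀ x, x ∉ B → f x = 0) (hf1 : ∀ x, f x ≤ 1) : G.ex B T z ≤ 4 * √(K * G.en C f f) := by
  have hT0 : (2 : ℝ) ≤ T := by exact_mod_cast hT
  have h1T : 1 / (T : ℝ) ≤ 1 / 2 := one_div_le_one_div_of_le (by norm_num) hT0
  have h1T0 : 0 < 1 / (T : ℝ) := by positivity
  have hs0 : 0 < 1 - 1 / (T : ℝ) := by linarith
  have hs1 : 1 - 1 / (T : ℝ) < 1 := by linarith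
  have hK0 : 0 ≤ K := le_trans (by positivity) hK1
  obtain ⟨u, h1, h2, h3, h4⟩ := G.exists_u hs0.le hs1 hd
  have h5 := G.u_le hs0 hs1 hBC hC hd hz h1 h2 r hr K (by nlinarith) (by
    have h6 : (1 - (1 - 1 / (T : ℝ))) * G.vol (G.bl z (r + 1)) * K = (G.vol (G.bl z (r + 1)) * K) / T := by
      field_simp
      ring
    rw [h6, le_div_iff₀ (by linarith)]
    exact hK2) hK0 f hfz hf0 hf1
  have h6 := G.ex_le_u hs0 h1 h2 h3 hs1.le T z
  have h7 := quarter_le_pow T hT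
  have h8 := (G.ex_mem B T z).1
  have h9 : 1 / 4 * G.ex B T z ≤ √(K * G.en C f f) :=
    (mul_le_mul_of_nonneg_right h7 h8).trans (h6.trans h5)
  linarith

end Pool.Agent.Lib.IICQ
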