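import Mathlib

/-!
# Quenched part: locally finite graphs, balls, Dirichlet form

`Gr V`: a locally finite graph given by symmetric neighbour sets. `G.bl z n` = the vertices at distance `< n` of `z`.
`G.en C f g = 1/2 ∑_{x ∈ C} ∑_{y ∈ nb x ∩ C} (f x - f y) (g x - g y)`.
-/

open Finset

namespace Pool.Agent.Lib.IICQ

/-- a locally finite graph given by neighbour sets -/
structure Gr (V : Type*) [DecidableEq V] where
  /-- the neighbours -/
  nb : V → Finset V
  symm : ∀ x y, y ∈ nb x → x ∈ nb y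

variable {V : Type*} [DecidableEq V] (G : Gr V)

theorem Gr.mem_comm (x y : V) : y ∈ G.nb x ↔ x ∈ G.nb y := ⟨G.symm x y, G.symm y x⟩

/-- the degree as a real number -/
noncomputable def Gr.dg (x : V) : ℝ := (G.nb x).card

/-- volume of a finite set: sum of the degrees -/
noncomputable def Gr.vol (A : Finset V) : ℝ := ∑ x ∈ A, G.dg x

/-- the mean over the neighbours (the value itself at an isolated vertex) -/
noncomputable def Gr.av (f : V → ℝ) (x : V) : ℝ := if G.nb x = ∅ then f x else (∑ y ∈ G.nb x, f y) / G.dg x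

/-- open balls: `bl z n` is the set of the vertices at distance `< n` of `z` -/
def Gr.bl (z : V) : ℕ → Finset V
  | 0 => ∅
  | n + 1 => insert z (Gr.bl z n ∪ (Gr.bl z n).biUnion G.nb)

theorem Gr.bl_zero (z : V) : G.bl z 0 = ∅ := rfl

theorem Gr.bl_succ (z : V) (n : ℕ) : G.bl z (n + 1) = insert z (G.bl z n ∪ (G.bl z n).biUnion G.nb) := rfl

theorem Gr.mem_bl_succ (z : V) (n : ℕ) (x : V) :
    x ∈ G.bl z (n + 1) ↔ x = z ∨ x ∈ G.bl z n ∨ ∃ y ∈ G.bl z n, x ∈ G.nb y := by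
  rw [Gr.bl_succ, mem_insert, mem_union, mem_biUnion]

theorem Gr.self_mem_bl (z : V) {n : ℕ} (h : 0 < n) : z ∈ G.bl z n := by
  obtain ⟨m, rfl⟩ := Nat.exists_eq_succ_of_ne_zero h.ne'
  rw [Nat.succ_eq_add_one, G.mem_bl_succ]
  exact Or.inl rfl

theorem Gr.bl_mono (z : V) {m n : ℕ} (h : m ≤ n) : G.bl z m ⊆ G.bl z n := by
  induction h with
  | refl => exact Subset.refl _
  | step _ ih =>
    intro x hx
    rw [Nat.succ_eq_add_one, G.mem_bl_succ]
    exact Or.inr (Or.inl (ih hx))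

theorem Gr.nb_bl {z x y : V} {n : ℕ} (hx : x ∈ G.bl z n) (hy : y ∈ G.nb x) : y ∈ G.bl z (n + 1) := by
  rw [G.mem_bl_succ]
  exact Or.inr (Or.inr ⟨x, hx, hy⟩)

theorem Gr.bl_trans {x y z : V} {m n : ℕ} (h1 : y ∈ G.bl x (m + 1)) (h2 : z ∈ G.bl y (n + 1)) :
    z ∈ G.bl x (m + n + 1) := by
  induction n generalizing z with
  | zero =>
    rw [G.mem_bl_succ, G.bl_zero] at h2
    rcases h2 with h2 | h2 | ⟨w, hw, _⟩
    · rw [h2]; exact h1
    · exact absurd h2 (notMem_empty _)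
    · exact absurd hw (notMem_empty _)
  | succ n ih =>
    rw [G.mem_bl_succ] at h2
    rcases h2 with h2 | h2 | ⟨w, hw, hz⟩
    · rw [h2]; exact G.bl_mono x (by omega) h1
    · exact G.bl_mono x (by omega) (ih h2)
    · exact G.nb_bl (ih hw) hz

theorem Gr.bl_symm {x y : V} {n : ℕ} (h : y ∈ G.bl x (n + 1)) : x ∈ G.bl y (n + 1) := by
  induction n generalizing y with
  | zero =>
    rw [G.mem_bl_succ, G.bl_zero] at h
    rcases h with h | h | ⟨w, hw, _⟩
    · rw [h]; exact G.self_mem_bl _ Nat.one_pos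
    · exact absurd h (notMem_empty _)
    · exact absurd hw (notMem_empty _)
  | succ n ih =>
    rw [G.mem_bl_succ] at h
    rcases h with h | h | ⟨w, hw, hy⟩
    · rw [h]; exact G.self_mem_bl _ (Nat.succ_pos _)
    · exact G.bl_mono y (by omega) (ih h)
    · have h1 : w ∈ G.bl y (1 + 1) := G.nb_bl (G.self_mem_bl y Nat.one_pos) (G.symm _ _ hy)
      have h2 := G.bl_trans h1 (ih hw)
      rwa [show n + 1 + 1 = 1 + n + 1 by ring]

/-- the Dirichlet form on a finite set -/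
noncomputable def Gr.en (C : Finset V) (f g : V → ℝ) : ℝ :=
  (1 / 2) * ∑ x ∈ C, ∑ y ∈ (G.nb x).filter (· ∈ C), (f x - f y) * (g x - g y)

/-- swapping a sum over ordered edges -/
theorem Gr.swap (C : Finset V) (F : V → V → ℝ) :
    ∑ x ∈ C, ∑ y ∈ (G.nb x).filter (· ∈ C), F x y = ∑ x ∈ C, ∑ y ∈ (G.nb x).filter (· ∈ C), F y x := by
  have h1 : ∀ H : V → V → ℝ, ∑ x ∈ C, ∑ y ∈ (G.nb x).filter (· ∈ C), H x y =
      ∑ x ∈ C, ∑ y ∈ C, if y ∈ G.nb x then H x y else 0 := by
    intro H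
    refine sum_congr rfl fun x _ => ?_
    rw [← sum_filter]
    refine sum_congr ?_ fun _ _ => rfl
    ext y
    rw [mem_filter, mem_filter]
    exact and_comm
  rw [h1, h1, sum_comm]
  refine sum_congr rfl fun x _ => sum_congr rfl fun y _ => ?_
  by_cases h : y ∈ G.nb x
  · rw [if_pos h, if_pos ((G.mem_comm x y).1 h)]
  · rw [if_neg h, if_neg (fun h' => h ((G.mem_comm x y).2 h'))]

/-- integration by parts -/
theorem Gr.en_eq {B C : Finset V} (hBC : B ⊆ C) (hC : ∀ x ∈ B, G.nb x ⊆ C) (f g : V → ℝ)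
    (hf : ∀ x, x ∉ B → f x = 0) :
    G.en C f g = ∑ x ∈ B, f x * (G.dg x * g x - ∑ y ∈ G.nb x, g y) := by
  have h1 : ∑ x ∈ C, ∑ y ∈ (G.nb x).filter (· ∈ C), (f x - f y) * (g x - g y) =
      2 * ∑ x ∈ C, ∑ y ∈ (G.nb x).filter (· ∈ C), f x * (g x - g y) := by
    have h2 : ∑ x ∈ C, ∑ y ∈ (G.nb x).filter (· ∈ C), (f x - f y) * (g x - g y) =
        ∑ x ∈ C, ∑ y ∈ (G.nb x).filter (· ∈ C), f x * (g x - g y) +
          ∑ x ∈ C, ∑ y ∈ (G.nb x).filter (· ∈ C), f y * (g y - g x) := by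
      rw [← sum_add_distrib]
      refine sum_congr rfl fun x _ => ?_
      rw [← sum_add_distrib]
      refine sum_congr rfl fun y _ => ?_
      ring
    rw [h2, ← G.swap C (fun x y => f x * (g x - g y))]
    ring
  unfold Gr.en
  rw [h1]
  have h3 : ∑ x ∈ C, ∑ y ∈ (G.nb x).filter (· ∈ C), f x * (g x - g y) =
      ∑ x ∈ B, f x * (G.dg x * g x - ∑ y ∈ G.nb x, g y) := by
    rw [← sum_subset hBC (f := fun x => ∑ y ∈ (G.nb x).filter (· ∈ C), f x * (g x - g y)) (fun x _ hx => by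
      refine sum_eq_zero fun y _ => ?_
      rw [hf x hx, zero_mul])]
    refine sum_congr rfl fun x hx => ?_
    rw [← mul_sum]
    congr 1
    have h4 : (G.nb x).filter (· ∈ C) = G.nb x := filter_true_of_mem fun y hy => hC x hx hy
    rw [h4, sum_sub_distrib, sum_const, nsmul_eq_mul]
    rfl
  rw [h3]
  ring

theorem Gr.en_nonneg (C : Finset V) (f : V → ℝ) : 0 ≤ G.en C f f := by
  unfold Gr.en
  refine mul_nonneg (by norm_num) (sum_nonneg fun x _ => sum_nonneg fun y _ => ?_)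
  exact mul_self_nonneg _

/-- Cauchy-Schwarz -/
theorem Gr.en_sq_le (C : Finset V) (f g : V → ℝ) : G.en C f g ^ 2 ≤ G.en C f f * G.en C g g := by
  unfold Gr.en
  simp only [sum_sigma']
  have h1 := sum_mul_sq_le_sq_mul_sq (C.sigma fun x => (G.nb x).filter (· ∈ C)) (fun p => f p.1 - f p.2)
    (fun p => g p.1 - g p.2)
  have h2 : ∀ k : V → ℝ, ∑ p ∈ C.sigma fun x => (G.nb x).filter (· ∈ C), (k p.1 - k p.2) * (k p.1 - k p.2) =
      ∑ p ∈ C.sigma fun x => (G.nb x).filter (· ∈ C), (k p.1 - k p.2) ^ 2 := by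
    intro k
    exact sum_congr rfl fun p _ => (sq _).symm
  rw [h2, h2]
  nlinarith [h1]

/-- the oscillation along a geodesic costs energy -/
theorem Gr.osc (g : V → ℝ) (z : V) (n : ℕ) : ∀ y ∈ G.bl z (n + 1),
    (g z - g y) ^ 2 ≤ n * ∑ x ∈ G.bl z n, ∑ y ∈ G.nb x, (g x - g y) ^ 2 := by
  induction n with
  | zero =>
    intro y hy
    rw [G.mem_bl_succ, G.bl_zero] at hy
    rcases hy with hy | hy | ⟨w, hw, _⟩
    · rw [hy]; simp
    · exact absurd hy (notMem_empty _)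
    · exact absurd hw (notMem_empty _)
  | succ n ih =>
    intro y hy
    have hmono : ∑ x ∈ G.bl z n, ∑ y ∈ G.nb x, (g x - g y) ^ 2 ≤
        ∑ x ∈ G.bl z (n + 1), ∑ y ∈ G.nb x, (g x - g y) ^ 2 :=
      sum_le_sum_of_subset_of_nonneg (G.bl_mono z (Nat.le_succ n)) fun x _ _ => sum_nonneg fun y _ => sq_nonneg _
    have hnn : 0 ≤ ∑ x ∈ G.bl z n, ∑ y ∈ G.nb x, (g x - g y) ^ 2 :=
      sum_nonneg fun x _ => sum_nonneg fun y _ => sq_nonneg _
    have hweak : y ∈ G.bl z (n + 1) → (g z - g y) ^ 2 ≤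
        ((n + 1 : ℕ) : ℝ) * ∑ x ∈ G.bl z (n + 1), ∑ y ∈ G.nb x, (g x - g y) ^ 2 := by
      intro h
      refine (ih y h).trans ?_
      refine mul_le_mul (by push_cast; linarith) hmono hnn (by positivity)
    by_cases hy1 : y ∈ G.bl z (n + 1)
    · exact hweak hy1
    rw [G.mem_bl_succ] at hy
    rcases hy with hy | hy | ⟨w, hw, hyw⟩
    · rw [hy]
      simp only [sub_self]
      refine le_trans (by norm_num) (mul_nonneg (Nat.cast_nonneg _) (hnn.trans hmono))
    · exact hweak hy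
    · have hwn : w ∉ G.bl z n := fun h => hy1 (G.nb_bl h hyw)
      have h1 := ih w hw
      have h2 : ∑ x ∈ G.bl z n, ∑ y ∈ G.nb x, (g x - g y) ^ 2 + (g w - g y) ^ 2 ≤
          ∑ x ∈ G.bl z (n + 1), ∑ y ∈ G.nb x, (g x - g y) ^ 2 := by
        have h3 : insert w (G.bl z n) ⊆ G.bl z (n + 1) := by
          intro x hx
          rw [mem_insert] at hx
          rcases hx with hx | hx
          · rw [hx]; exact hw
          · exact G.bl_mono z (Nat.le_succ n) hx
        have h4 := sum_le_sum_of_subset_of_nonneg (f := fun x => ∑ y ∈ G.nb x, (g x - g y) ^ 2) h3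
          (fun x _ _ => sum_nonneg fun y _ => sq_nonneg _)
        rw [sum_insert hwn] at h4
        have h5 : (g w - g y) ^ 2 ≤ ∑ y ∈ G.nb w, (g w - g y) ^ 2 :=
          single_le_sum (f := fun y => (g w - g y) ^ 2) (fun y _ => sq_nonneg _) hyw
        linarith
      refine le_trans ?_ (mul_le_mul_of_nonneg_left h2 (Nat.cast_nonneg _))
      rcases Nat.eq_zero_or_pos n with hn | hn
      · subst hn
        rw [Nat.cast_zero, zero_mul] at h1
        have h6 : g z - g w = 0 := by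
          have := le_antisymm h1 (sq_nonneg _)
          exact pow_eq_zero_iff (two_ne_zero) |>.1 this
        have h7 : g z - g y = g w - g y := by linarith
        rw [h7]
        push_cast
        linarith
      · have hn' : (0 : ℝ) < n := by exact_mod_cast hn
        set S := ∑ x ∈ G.bl z n, ∑ y ∈ G.nb x, (g x - g y) ^ 2 with hS
        have h8 : (g z - g y) ^ 2 ≤ (n + 1) * ((g z - g w) ^ 2 / n + (g w - g y) ^ 2) := by
          have h9 : 0 ≤ ((g z - g w) - n * (g w - g y)) ^ 2 / n := by positivity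
          have h10 : (n + 1) * ((g z - g w) ^ 2 / n + (g w - g y) ^ 2) - (g z - g y) ^ 2 =
              ((g z - g w) - n * (g w - g y)) ^ 2 / n := by
            field_simp
            ring
          linarith
        have h11 : (g z - g w) ^ 2 / n ≤ S := by
          rw [div_le_iff₀ hn']
          linarith
        refine h8.trans ?_
        push_cast
        refine mul_le_mul_of_nonneg_left ?_ (by positivity)
        linarith

/-- the sum over the balls is at most twice the energy -/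
theorem Gr.osc_en {C : Finset V} (g : V → ℝ) (z : V) (n : ℕ) (h1 : G.bl z n ⊆ C) (h2 : ∀ x ∈ G.bl z n, G.nb x ⊆ C)
    {y : V} (hy : y ∈ G.bl z (n + 1)) : (g z - g y) ^ 2 ≤ 2 * n * G.en C g g := by
  refine (G.osc g z n y hy).trans ?_
  have h3 : ∑ x ∈ G.bl z n, ∑ y ∈ G.nb x, (g x - g y) ^ 2 ≤ 2 * G.en C g g := by
    unfold Gr.en
    have h4 : ∑ x ∈ G.bl z n, ∑ y ∈ G.nb x, (g x - g y) ^ 2 ≤
        ∑ x ∈ C, ∑ y ∈ (G.nb x).filter (· ∈ C), (g x - g y) ^ 2 := by
      have h5 : ∑ x ∈ G.bl z n, ∑ y ∈ G.nb x, (g x - g y) ^ 2 =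
          ∑ x ∈ G.bl z n, ∑ y ∈ (G.nb x).filter (· ∈ C), (g x - g y) ^ 2 := by
        refine sum_congr rfl fun x hx => ?_
        rw [filter_true_of_mem fun y hy => h2 x hx hy]
      rw [h5]
      exact sum_le_sum_of_subset_of_nonneg h1 fun x _ _ => sum_nonneg fun y _ => sq_nonneg _
    have h6 : ∑ x ∈ C, ∑ y ∈ (G.nb x).filter (· ∈ C), (g x - g y) * (g x - g y) =
        ∑ x ∈ C, ∑ y ∈ (G.nb x).filter (· ∈ C), (g x - g y) ^ 2 :=
      sum_congr rfl fun x _ => sum_congr rfl fun y _ => (sq _).symm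
    rw [h6]
    linarith
  calc (n : ℝ) * ∑ x ∈ G.bl z n, ∑ y ∈ G.nb x, (g x - g y) ^ 2 ≤ n * (2 * G.en C g g) :=
        mul_le_mul_of_nonneg_left h3 (Nat.cast_nonneg _)
    _ = 2 * n * G.en C g g := by ring

end Pool.Agent.Lib.IICQ
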