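import Pool.Agent.Lib.MP_06caae_pr.Path
import Pool.Agent.Lib.MP_06caae_pr.Q.Asm

/-!
# The graph of the open edges as a `Gr`, lanes in terms of spheres

`laneN S z j r`: the number of `y ∈ sph S z j` which reach distance `r - j` off the ball of radius `j - 1`;
`laneS S z r` the sum over `j ∈ (r/4, r/2]`.
-/

open Finset SimpleGraph MeasureTheory
open Pool.Agent.Lib.MP_566bac_pr.Zd
open Pool.Agent.Lib.IICQ

namespace Pool.Agent.Lib.MP_06caae_pr

variable {d : ℕ}

open Classical in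
/-- the graph of the open edges -/
noncomputable def grS (S : Set (Ed d)) : Gr (V d) where
  nb x := (nbr x).filter fun y => s(x, y) ∈ S
  symm x y h := by
    rw [mem_filter, mem_nbr] at h ⊢
    exact ⟨h.1.symm, by rw [Sym2.eq_swap]; exact h.2⟩

lemma mem_nb {S : Set (Ed d)} {x y : V d} : y ∈ (grS S).nb x ↔ (lattice d).Adj x y ∧ s(x, y) ∈ S := by
  classical
  show y ∈ (nbr x).filter _ ↔ _
  rw [mem_filter, mem_nbr]

/-- closed balls -/
lemma mem_bl {S : Set (Ed d)} {z x : V d} {n : ℕ} : x ∈ (grS S).bl z (n + 1) ↔ Rch S z n x := by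
  induction n generalizing x with
  | zero =>
    rw [Gr.mem_bl_succ, Gr.bl_zero, rch_zero]
    constructor
    · rintro (h | h | ⟨y, hy, _⟩)
      · exact h.symm
      · exact absurd h (notMem_empty _)
      · exact absurd hy (notMem_empty _)
    · exact fun h => Or.inl h.symm
  | succ n ih =>
    rw [Gr.mem_bl_succ, rch_succ]
    constructor
    · rintro (h | h | ⟨y, hy, hxy⟩)
      · exact Or.inl h.symm
      · have h1 := (ih.1 h).mono subset_rfl (Nat.le_succ n)
        exact rch_succ.1 h1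
      · exact Or.inr ⟨y, ih.1 hy, mem_nb.1 hxy⟩
    · rintro (h | ⟨y, hy, hxy⟩)
      · exact Or.inl h.symm
      · exact Or.inr (Or.inr ⟨y, ih.2 hy, mem_nb.2 hxy⟩)

lemma bl_eq_ball (S : Set (Ed d)) (z : V d) (n : ℕ) : (grS S).bl z (n + 1) = ball S z n := by
  ext x
  rw [mem_bl, mem_ball]

lemma bl_eq_ball' (S : Set (Ed d)) (z : V d) {n : ℕ} (h : 1 ≤ n) : (grS S).bl z n = ball S z (n - 1) := by
  obtain ⟨m, rfl⟩ : ∃ m, n = m + 1 := ⟨n - 1, by omega⟩
  rw [bl_eq_ball]
  rfl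

lemma bl_subset_ball (S : Set (Ed d)) (z : V d) (n : ℕ) : (grS S).bl z n ⊆ ball S z n := by
  rw [← bl_eq_ball]
  exact (grS S).bl_mono z (Nat.le_succ n)

lemma dg_le (S : Set (Ed d)) (x : V d) : (grS S).dg x ≤ 2 * d := by
  classical
  unfold Gr.dg
  have h1 : ((grS S).nb x).card ≤ (nbr x).card := card_filter_le _ _
  have h2 := card_nbr x
  exact_mod_cast h1.trans h2

lemma gvol_le (S : Set (Ed d)) (z : V d) (n : ℕ) : (grS S).vol ((grS S).bl z n) ≤ 2 * d * (vol S z n : ℝ) := by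
  unfold Gr.vol vol
  calc ∑ x ∈ (grS S).bl z n, (grS S).dg x ≤ ∑ _x ∈ (grS S).bl z n, (2 * d : ℝ) := sum_le_sum fun x _ => dg_le S x
    _ = ((grS S).bl z n).card * (2 * d : ℝ) := by rw [sum_const, nsmul_eq_mul]
    _ ≤ ((ball S z n).card : ℝ) * (2 * d : ℝ) := by
        refine mul_le_mul_of_nonneg_right ?_ (by positivity)
        exact_mod_cast card_le_card (bl_subset_ball S z n)
    _ = 2 * d * ((ball S z n).card : ℝ) := by ring

lemma le_gvol {S : Set (Ed d)} {z : V d} {n : ℕ} (h : ∀ x ∈ (grS S).bl z (n + 1), ((grS S).nb x).Nonempty) :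
    (vol S z n : ℝ) ≤ (grS S).vol ((grS S).bl z (n + 1)) := by
  unfold Gr.vol vol
  rw [← bl_eq_ball]
  calc (((grS S).bl z (n + 1)).card : ℝ) = ∑ _x ∈ (grS S).bl z (n + 1), (1 : ℝ) := by
        rw [sum_const, nsmul_eq_mul, mul_one]
    _ ≤ ∑ x ∈ (grS S).bl z (n + 1), (grS S).dg x := by
        refine sum_le_sum fun x hx => ?_
        unfold Gr.dg
        exact_mod_cast card_pos.2 (h x hx)

/-! ### lanes -/

/-- the configuration off the ball of radius `j - 1` -/
def offB (S : Set (Ed d)) (z : V d) (j : ℕ) : Set (Ed d) := S \ tch (ball S z (j - 1) : Set (V d))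

open Classical in
/-- the number of the vertices of the sphere of radius `j` which reach distance `r - j` off the ball of radius `j - 1` -/
noncomputable def laneN (S : Set (Ed d)) (z : V d) (j r : ℕ) : ℕ :=
  ((sph S z j).filter fun y => (sph (offB S z j) y (r - j)).Nonempty).card

/-- the sum over the levels in `(r/4, r/2]` -/
noncomputable def laneS (S : Set (Ed d)) (z : V d) (r : ℕ) : ℕ := ∑ j ∈ Ioc (r / 4) (r / 2), laneN S z j r

/-- if some vertex at distance at least `n` is in the cluster then the sphere of radius `n` is not empty -/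
lemma sph_nonempty {S : Set (Ed d)} {x v : V d} {n : ℕ} (h : Con S x v) (hn : ∀ k, Rch S x k v → n ≤ k) :
    (sph S x n).Nonempty := by
  obtain ⟨r, hr⟩ := con_iff.1 h
  have key : ∀ (r : ℕ) (v : V d), v ∈ sph S x r → ∀ n ≤ r, (sph S x n).Nonempty := by
    intro r
    induction r with
    | zero =>
      intro v hv n hn
      rw [Nat.le_zero.1 hn]
      exact ⟨v, hv⟩
    | succ r ih =>
      intro v hv n hn
      rcases Nat.lt_or_eq_of_le hn with h1 | h1
      · obtain ⟨h2, h3⟩ := mem_sph_succ.1 hv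
        rcases rch_succ.1 h2 with h4 | ⟨u, hu, huv⟩
        · exact absurd (h4 ▸ Rch.refl _ _ _) h3
        · refine ih u ?_ n (by omega)
          rw [mem_sph]
          refine ⟨hu, fun k hk => ?_⟩
          by_contra hcon
          push Not at hcon
          refine h3 (Rch.mono (rch_succ.2 (Or.inr ⟨u, hk, huv⟩)) subset_rfl (by omega))
      · rw [h1]
        exact ⟨v, hv⟩
  obtain ⟨k, hk, hv⟩ := ball_eq_sph.1 hr
  exact key k v hv n (hn k (mem_sph.1 hv).1)

/-- a path off the ball of radius `j - 1` is a path of the configuration off this ball -/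
lemma con_off {S : Set (Ed d)} {z x y : V d} {j : ℕ} (hx : x ∉ ball S z (j - 1))
    (h : Relation.ReflTransGen (fun a b => b ∈ (grS S).nb a ∧ b ∉ ball S z (j - 1)) x y) : Con (offB S z j) x y := by
  suffices h2 : Con (offB S z j) x y ∧ y ∉ ball S z (j - 1) from h2.1
  induction h with
  | refl => exact ⟨Con.refl _ _, hx⟩
  | tail _ hab ih =>
    rename_i a b _
    refine ⟨ih.1.trans (Con.step (mem_nb.1 hab.1).1 ⟨(mem_nb.1 hab.1).2, ?_⟩), hab.2⟩
    rintro ⟨v, hv, hve⟩
    rw [Sym2.mem_iff] at hve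
    rcases hve with h1 | h1
    · rw [h1] at hv; exact ih.2 hv
    · rw [h1] at hv; exact hab.2 hv

/-- lanes start at the sphere and reach far off the ball -/
lemma far_lane {S : Set (Ed d)} {z x y : V d} {j r : ℕ} (hj : 1 ≤ j) (hjr : j ≤ r) (hx : x ∈ (grS S).bl z j)
    (hxy : y ∈ (grS S).nb x) (hy : (grS S).far z j r y) : y ∈ sph S z j ∧ (sph (offB S z j) y (r - j)).Nonempty := by
  obtain ⟨hy1, v, hv, hvr⟩ := hy
  rw [bl_eq_ball' S z hj] at hx hy1 hv
  rw [bl_eq_ball' S z (by omega : 1 ≤ r)] at hvr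
  rw [mem_ball] at hx hy1 hvr
  have hyj : Rch S z j y := by
    have h1 := hx.trans (Rch.step (mem_nb.1 hxy).1 (mem_nb.1 hxy).2)
    exact h1.mono subset_rfl (by omega)
  have hys : y ∈ sph S z j := by
    obtain ⟨j', rfl⟩ : ∃ j', j = j' + 1 := ⟨j - 1, by omega⟩
    rw [mem_sph_succ]
    exact ⟨hyj, hy1⟩
  refine ⟨hys, sph_nonempty (con_off (by rw [mem_ball]; exact hy1) hv) fun k hk => ?_⟩
  by_contra hcon
  push Not at hcon
  refine hvr ?_
  have h2 : Rch S y k v := hk.mono Set.diff_subset le_rfl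
  exact (hyj.trans h2).mono subset_rfl (by omega)

/-- the number of lanes -/
lemma lanes_card {S : Set (Ed d)} {z : V d} {j r : ℕ} (hj : 1 ≤ j) (hjr : j ≤ r) :
    ((grS S).lanes z j r).card ≤ 2 * d * laneN S z j r := by
  classical
  have h1 : ((grS S).lanes z j r).card ≤
      (((sph S z j).filter fun y => (sph (offB S z j) y (r - j)).Nonempty).sigma fun y => nbr y).card := by
    refine card_le_card_of_injOn (fun p => ⟨p.2, p.1⟩) ?_ ?_
    · rintro ⟨x, y⟩ hp
      rw [mem_coe] at hp ⊢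
      unfold Gr.lanes at hp
      rw [mem_filter, mem_sigma] at hp
      obtain ⟨⟨hx, hxy⟩, hf⟩ := hp
      rw [mem_sigma, mem_filter]
      exact ⟨far_lane hj hjr hx hxy hf, mem_nbr.2 (mem_nb.1 hxy).1.symm⟩
    · rintro ⟨x, y⟩ _ ⟨x', y'⟩ _ h
      simp only [Sigma.mk.injEq, heq_eq_eq] at h
      rw [h.1, h.2]
  refine h1.trans ?_
  rw [card_sigma]
  unfold laneN
  calc ∑ y ∈ (sph S z j).filter fun y => (sph (offB S z j) y (r - j)).Nonempty, (nbr y).card ≤
        ∑ _y ∈ (sph S z j).filter fun y => (sph (offB S z j) y (r - j)).Nonempty, 2 * d :=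
        sum_le_sum fun y _ => card_nbr y
    _ = 2 * d * ((sph S z j).filter fun y => (sph (offB S z j) y (r - j)).Nonempty).card := by
        rw [sum_const, smul_eq_mul, mul_comm]

lemma card_levels {r : ℕ} (hr : 8 ≤ r) : (r : ℝ) / 8 ≤ ((Ioc (r / 4) (r / 2)).card : ℝ) := by
  rw [Nat.card_Ioc]
  have h1 : r ≤ 8 * (r / 2 - r / 4) := by omega
  have h2 : (r : ℝ) ≤ 8 * ((r / 2 - r / 4 : ℕ) : ℝ) := by exact_mod_cast h1
  linarith

/-- the energy of the lane cutoff -/
lemma lane_energy {S : Set (Ed d)} {c : V d} {r : ℕ} (hr : 8 ≤ r) {M : ℝ} (hM : (laneS S c r : ℝ) ≤ M * r) :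
    (1 / ((Ioc (r / 4) (r / 2)).card : ℝ)) ^ 2 * ∑ j ∈ Ioc (r / 4) (r / 2), (((grS S).lanes c j r).card : ℝ) ≤
      128 * d * M / r := by
  have hr0 : (0 : ℝ) < r := by
    have : 0 < r := by omega
    exact_mod_cast this
  have h1 : ∑ j ∈ Ioc (r / 4) (r / 2), (((grS S).lanes c j r).card : ℝ) ≤ 2 * d * (laneS S c r : ℝ) := by
    unfold laneS
    push_cast
    rw [mul_sum]
    refine sum_le_sum fun j hj => ?_
    rw [mem_Ioc] at hj
    have := lanes_card (S := S) (z := c) (j := j) (r := r) (by omega) (by omega)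
    exact_mod_cast this
  have h2 := card_levels hr
  have h3 : (1 / ((Ioc (r / 4) (r / 2)).card : ℝ)) ^ 2 ≤ (8 / r) ^ 2 := by
    refine pow_le_pow_left₀ (by positivity) ?_ 2
    rw [div_le_div_iff₀ (by linarith [div_pos hr0 (by norm_num : (0:ℝ) < 8)]) hr0]
    linarith
  calc _ ≤ (8 / (r : ℝ)) ^ 2 * (2 * d * (laneS S c r : ℝ)) := mul_le_mul h3 h1 (by positivity) (by positivity)
    _ ≤ (8 / (r : ℝ)) ^ 2 * (2 * d * (M * r)) := by
        refine mul_le_mul_of_nonneg_left (mul_le_mul_of_nonneg_left hM (by positivity)) (by positivity)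
    _ = 128 * d * M / r := by
        field_simp
        ring

/-- cutoff or many lanes at all the vertices nearby -/
lemma cut_or_bad {S : Set (Ed d)} {z : V d} {r ρ : ℕ} (hr : 8 ≤ r) (hρ : 2 * r ≤ ρ) {M : ℝ}
    (h : ∃ y ∈ ball S z (r / 4), (laneS S y r : ℝ) ≤ M * r) :
    ∃ f : V d → ℝ, f z = 1 ∧ (∀ x, x ∉ (grS S).bl z ρ → f x = 0) ∧ (∀ x, f x ≤ 1) ∧
      (grS S).en ((grS S).bl z (ρ + 1)) f f ≤ 128 * d * M / r := by
  obtain ⟨y, hy, hM⟩ := h
  have hzy : z ∈ (grS S).bl y (r / 4 + 1) := by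
    rw [mem_bl]
    exact (mem_ball.1 hy).symm
  exact (grS S).cut_for (c := y) (z := z) (ε := r / 4) (r := r) (ρ := ρ) (J := Ioc (r / 4) (r / 2))
    ⟨r / 2, by rw [mem_Ioc]; omega⟩ (fun j hj => by rw [mem_Ioc] at hj; omega)
    (fun j hj => by rw [mem_Ioc] at hj; omega) hzy (by omega) (lane_energy hr hM)

/-- the cutoff at the origin with a plateau -/
lemma plateau {S : Set (Ed d)} {o : V d} {r : ℕ} (hr : 8 ≤ r) {M : ℝ} (hM : (laneS S o r : ℝ) ≤ M * r) :
    ∃ f : V d → ℝ, (∀ x ∈ (grS S).bl o (r / 8), f x = 1) ∧ (∀ x, x ∉ (grS S).bl o r → f x = 0) ∧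
      (∀ x, |f x| ≤ 1) ∧ (grS S).en ((grS S).bl o (r + 1)) f f ≤ 128 * d * M / r := by
  refine ⟨(grS S).cut o r (Ioc (r / 4) (r / 2)), fun x hx => ?_, fun x hx => ?_, fun x => (grS S).cut_abs_le o r _ x,
    ((grS S).cut_en o r _ _).trans (lane_energy hr hM)⟩
  · refine (grS S).cut_one fun j hj => (grS S).bl_mono o ?_ hx
    rw [mem_Ioc] at hj
    omega
  · refine (grS S).cut_zero ⟨r / 2, by rw [mem_Ioc]; omega⟩ (fun j hj => ?_) hx
    rw [mem_Ioc] at hj
    omega

end Pool.Agent.Lib.MP_06caae_pr
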