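import Pool.Agent.Lib.MP_06caae_pr.Q.Exit

/-!
# Quenched part: a lower bound for hitting probabilities

`G.hit y n x` is the probability that the walk from `x` visits `y` within `n` steps. If `y` is at distance `≤ R` of `z`,
`f` is a cutoff with `f y = 1` supported in `B` and `64 R (E(f) + vol B / T) ≤ 1`, then `hit y (2 T) z ≥ 1/2`.
-/

open Finset

namespace Pool.Agent.Lib.IICQ

variable {V : Type*} [DecidableEq V] (G : Gr V)

/-- probability to visit `y` within `n` steps -/
noncomputable def Gr.hit (y : V) : ℕ → V → ℝ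
  | 0, x => if x = y then 1 else 0
  | n + 1, x => if x = y then 1 else G.av (Gr.hit y n) x

theorem Gr.hit_zero (y x : V) : G.hit y 0 x = if x = y then 1 else 0 := rfl

theorem Gr.hit_succ (y : V) (n : ℕ) (x : V) :
    G.hit y (n + 1) x = if x = y then 1 else G.av (G.hit y n) x := rfl

theorem Gr.hit_mem (y : V) (n : ℕ) (x : V) : 0 ≤ G.hit y n x ∧ G.hit y n x ≤ 1 := by
  induction n generalizing x with
  | zero => rw [G.hit_zero]; split_ifs <;> norm_num
  | succ n ih =>
    rw [G.hit_succ]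
    split_ifs
    · norm_num
    · exact ⟨G.av_nonneg (fun y => (ih y).1) x, G.av_le (fun y => (ih y).2) x⟩

theorem Gr.v_le_hit {s : ℝ} (hs0 : 0 ≤ s) {B : Finset V} {y : V} {v : V → ℝ}
    (h0 : ∀ x, x ∉ B → v x = 0) (h1 : ∀ x ∈ B, x ≠ y → v x = s * G.av v x) (h2 : ∀ x, v x ≤ 1) (n : ℕ) (x : V) :
    v x ≤ G.hit y n x + s ^ n := by
  induction n generalizing x with
  | zero =>
    have := (G.hit_mem y 0 x).1
    rw [pow_zero]
    linarith [h2 x]
  | succ n ih =>
    have h3 := (G.hit_mem y (n + 1) x).1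
    by_cases hxy : x = y
    · rw [G.hit_succ, if_pos hxy]
      have := h2 x
      have := pow_nonneg hs0 (n + 1)
      linarith
    · by_cases hx : x ∈ B
      · rw [h1 x hx hxy, G.hit_succ, if_neg hxy]
        have h4 : G.av v x ≤ G.av (G.hit y n) x + s ^ n := by
          have h5 := G.av_mono ih x
          rw [G.av_add, G.av_const] at h5
          exact h5
        by_cases hs1 : s ≤ 1
        · have h6 := G.av_nonneg (fun z => (G.hit_mem y n z).1) x
          calc s * G.av v x ≤ s * (G.av (G.hit y n) x + s ^ n) := mul_le_mul_of_nonneg_left h4 hs0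
            _ = s * G.av (G.hit y n) x + s ^ (n + 1) := by ring
            _ ≤ G.av (G.hit y n) x + s ^ (n + 1) := by nlinarith
        · push Not at hs1
          have h7 : v x ≤ 1 := h2 x
          rw [h1 x hx hxy] at h7
          have h8 : 1 ≤ s ^ (n + 1) := one_le_pow₀ hs1.le
          have h9 := G.av_nonneg (fun z => (G.hit_mem y n z).1) x
          linarith
      · rw [h0 x hx]
        have := pow_nonneg hs0 (n + 1)
        linarith

/-- maximum principle for a function which is discounted harmonic except at a pole -/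
theorem Gr.le_pole {s : ℝ} (hs0 : 0 ≤ s) (hs1 : s < 1) {B : Finset V} (hd : ∀ x ∈ B, (G.nb x).Nonempty) {y : V}
    {g : V → ℝ} (h0 : ∀ x, x ∉ B → g x = 0) (h1 : ∀ x ∈ B, G.L s g x = if x = y then 1 else 0) (hy : 0 ≤ g y) (x : V) :
    g x ≤ g y := by
  have h2 := G.minp hs0 hs1 (B := B.erase y) (fun x hx => hd x (mem_of_mem_erase hx)) (fun x => g y - g x)
    (fun x hx => by
      rw [mem_erase] at hx
      push Not at hx
      by_cases hxy : x = y
      · rw [hxy]; simp
      · show 0 ≤ g y - g x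
        rw [h0 x (hx hxy)]; linarith)
    (fun x hx => by
      rw [mem_erase] at hx
      have h3 := h1 x hx.2
      rw [if_neg hx.1] at h3
      unfold Gr.L at h3 ⊢
      rw [sum_sub_distrib, sum_const, nsmul_eq_mul]
      have h4 : ((G.nb x).card : ℝ) = G.dg x := rfl
      rw [h4]
      have h5 : 0 ≤ (1 - s) * (G.dg x * g y) := mul_nonneg (by linarith) (mul_nonneg (G.dg_nonneg x) hy)
      linarith) x
  have h3 : 0 ≤ g y - g x := h2
  linarith

theorem pow_le_quarter (T : ℕ) (hT : 2 ≤ T) : (1 - 1 / (T : ℝ)) ^ (2 * T) ≤ 1 / 4 := by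
  have hT0 : (2 : ℝ) ≤ T := by exact_mod_cast hT
  have h1 : 1 - 1 / (T : ℝ) ≤ Real.exp (-(1 / (T : ℝ))) := by
    have := Real.add_one_le_exp (-(1 / (T : ℝ)))
    linarith
  have h1T : 1 / (T : ℝ) ≤ 1 / 2 := one_div_le_one_div_of_le (by norm_num) hT0
  have h2 : (1 - 1 / (T : ℝ)) ^ (2 * T) ≤ Real.exp (-(1 / (T : ℝ))) ^ (2 * T) :=
    pow_le_pow_left₀ (by linarith) h1 _
  rw [← Real.exp_nat_mul] at h2
  have h3 : ((2 * T : ℕ) : ℝ) * -(1 / (T : ℝ)) = -2 := by
    push_cast
    field_simp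
  rw [h3] at h2
  refine h2.trans ?_
  have h4 : (2 : ℝ) ≤ Real.exp 1 := by
    have := Real.add_one_le_exp (1 : ℝ)
    linarith
  have h5 : Real.exp (-2) = (Real.exp 1 ^ 2)⁻¹ := by
    rw [Real.exp_neg, ← Real.exp_nat_mul]
    norm_num
  rw [h5, inv_le_comm₀ (by positivity) (by norm_num)]
  nlinarith

/-- the hitting estimate -/
theorem Gr.hit_ge {B C : Finset V} (hBC : B ⊆ C) (hC : ∀ x ∈ B, G.nb x ⊆ C)
    (hd : ∀ x ∈ B, (G.nb x).Nonempty) {y z : V} (hy : y ∈ B) (R T : ℕ) (hT : 2 ≤ T) (hR : G.bl z R ⊆ B)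
    (hyz : y ∈ G.bl z (R + 1)) (f : V → ℝ) (hfy : f y = 1)
    (hf0 : ∀ x, x ∉ B → f x = 0) (hf1 : ∀ x, |f x| ≤ 1) (hE : 64 * R * (G.en C f f + G.vol B / T) ≤ 1) :
    1 / 2 ≤ G.hit y (2 * T) z := by
  have hT0 : (2 : ℝ) ≤ T := by exact_mod_cast hT
  have h1T : 1 / (T : ℝ) ≤ 1 / 2 := one_div_le_one_div_of_le (by norm_num) hT0
  have h1T0 : 0 < 1 / (T : ℝ) := by positivity
  obtain ⟨s, hs⟩ : ∃ s : ℝ, s = 1 - 1 / (T : ℝ) := ⟨_, rfl⟩
  have hs0 : 1 / 2 ≤ s := by linarith
  have hs1 : s < 1 := by linarith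
  have hs0' : 0 ≤ s := by linarith
  obtain ⟨g, hg0, hg1, hg2⟩ := G.green hs0' hs1 hd y
  have h1 := G.green_ge hs0' hs1 hBC hC hy hg0 hg1 f hfy hf0 hf1
  have hE0 := G.en_nonneg C f
  have hv0 : 0 ≤ G.vol B := sum_nonneg fun x _ => G.dg_nonneg x
  have h2 : s * G.en C f f + (1 - s) * G.vol B ≤ G.en C f f + G.vol B / T := by
    have h3 : (1 - s) * G.vol B = G.vol B / T := by rw [hs]; ring
    rw [h3]
    have : s * G.en C f f ≤ 1 * G.en C f f := mul_le_mul_of_nonneg_right hs1.le hE0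
    linarith
  have h3 : 1 ≤ g y * (G.en C f f + G.vol B / T) := h1.trans (mul_le_mul_of_nonneg_left h2 (hg2 y))
  have hgy : 0 < g y := by
    by_contra h
    push Not at h
    have : g y = 0 := le_antisymm h (hg2 y)
    rw [this, zero_mul] at h3
    linarith
  have h4 : 64 * R ≤ g y := by
    by_contra h
    push Not at h
    have h5 : 0 < G.en C f f + G.vol B / T := by
      by_contra h6
      push Not at h6
      have := mul_nonpos_of_nonneg_of_nonpos hgy.le h6
      linarith
    have := mul_lt_mul_of_pos_right h h5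
    linarith
  have h5 : g y = s * G.en C g g + (1 - s) * ∑ x ∈ B, G.dg x * (g x * g x) := by
    rw [← G.pair hBC hC s g g hg0, sum_congr rfl fun x hx => by rw [hg1 x hx]]
    simp only [mul_ite, mul_one, mul_zero]
    rw [sum_ite_eq' B y]
    rw [if_pos hy]
  have h6 : G.en C g g ≤ 2 * g y := by
    have h7 : 0 ≤ (1 - s) * ∑ x ∈ B, G.dg x * (g x * g x) :=
      mul_nonneg (by linarith) (sum_nonneg fun x _ => mul_nonneg (G.dg_nonneg x) (mul_self_nonneg _))
    have h8 := G.en_nonneg C g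
    nlinarith
  have h7 := G.osc_en g z R (hR.trans hBC) (fun x hx => hC x (hR hx)) hyz
  have h8 : (g z - g y) ^ 2 ≤ (g y / 4) ^ 2 := by
    have h9 : 2 * (R : ℝ) * G.en C g g ≤ 2 * R * (2 * g y) := mul_le_mul_of_nonneg_left h6 (by positivity)
    nlinarith
  have h9 : g y - g z ≤ g y / 4 := by
    have h10 := abs_le.1 (abs_le_of_sq_le_sq h8 (by positivity))
    linarith [h10.1, h10.2]
  have h10 := G.v_le_hit hs0' (B := B) (y := y) (v := fun x => g x / g y) (fun x hx => by simp only [hg0 x hx, zero_div])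
    (fun x hx hxy => by
      have h11 := hg1 x hx
      rw [if_neg hxy, G.L_eq_zero_iff (hd x hx)] at h11
      show g x / g y = s * G.av (fun x => g x / g y) x
      have h12 : G.av (fun x => g x / g y) x = G.av g x / g y := by
        have := G.av_smul (g y)⁻¹ g x
        simp only [div_eq_inv_mul]
        exact this
      rw [h12, h11]
      ring)
    (fun x => by
      rw [div_le_one hgy]
      exact G.le_pole hs0' hs1 hd hg0 hg1 (hg2 y) x) (2 * T) z
  have h11 : 3 / 4 ≤ g z / g y := by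
    rw [le_div_iff₀ hgy]
    linarith
  have h12 := pow_le_quarter T hT
  rw [← hs] at h12
  linarith

end Pool.Agent.Lib.IICQ
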