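import Pool.Agent.Lib.MP_06caae_pr.Q.Good
import Pool.Agent.Lib.MP_06caae_pr.ExplB
import Pool.Agent.Lib.MP_06caae_pr.Inv

/-!
# The lane sum: covariance, locality, first moment
-/

open Finset SimpleGraph MeasureTheory
open Pool.Agent.Lib.MP_566bac_pr.Zd
open Pool.Agent.Lib.IICQ

namespace Pool.Agent.Lib.MP_06caae_pr

variable {d : ℕ}

/-! ### covariance under automorphisms -/

lemma ball_pull {φ : V d ≃ V d} (hφ : IsAuto φ) (S : Set (Ed d)) (x y : V d) (r : ℕ) :
    y ∈ ball (pull φ S) x r ↔ φ y ∈ ball S (φ x) r := by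
  rw [mem_ball, mem_ball, rch_pull hφ]

lemma sph_pull {φ : V d ≃ V d} (hφ : IsAuto φ) (S : Set (Ed d)) (x y : V d) (r : ℕ) :
    y ∈ sph (pull φ S) x r ↔ φ y ∈ sph S (φ x) r := by
  rw [mem_sph, mem_sph, rch_pull hφ]
  simp only [rch_pull hφ]

lemma sph_map {φ : V d ≃ V d} (hφ : IsAuto φ) (S : Set (Ed d)) (x : V d) (r : ℕ) :
    (sph (pull φ S) x r).map φ.toEmbedding = sph S (φ x) r := by
  ext y
  rw [mem_map_equiv, sph_pull hφ, φ.apply_symm_apply]

lemma ball_map {φ : V d ≃ V d} (hφ : IsAuto φ) (S : Set (Ed d)) (x : V d) (r : ℕ) :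
    (ball (pull φ S) x r).map φ.toEmbedding = ball S (φ x) r := by
  ext y
  rw [mem_map_equiv, ball_pull hφ, φ.apply_symm_apply]

lemma offB_pull {φ : V d ≃ V d} (hφ : IsAuto φ) (S : Set (Ed d)) (z : V d) (j : ℕ) :
    offB (pull φ S) z j = pull φ (offB S (φ z) j) := by
  ext e
  induction e using Sym2.ind with
  | _ a b =>
    unfold offB
    show (s(a, b) ∈ pull φ S ∧ ¬ s(a, b) ∈ tch _) ↔ (s(φ a, φ b) ∈ S ∧ ¬ s(φ a, φ b) ∈ tch _)
    rw [mem_tch, mem_tch]
    simp only [mem_coe, ball_pull hφ]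
    exact Iff.rfl

lemma laneN_pull {φ : V d ≃ V d} (hφ : IsAuto φ) (S : Set (Ed d)) (z : V d) (j r : ℕ) :
    laneN (pull φ S) z j r = laneN S (φ z) j r := by
  classical
  unfold laneN
  rw [← sph_map hφ S z j, filter_map, card_map]
  congr 1
  ext y
  rw [mem_filter, mem_filter]
  refine and_congr_right fun _ => ?_
  rw [offB_pull hφ, Function.comp_apply]
  show (sph (pull φ (offB S (φ z) j)) y (r - j)).Nonempty ↔ (sph (offB S (φ z) j) (φ y) (r - j)).Nonempty
  rw [← sph_map hφ (offB S (φ z) j) y (r - j), map_nonempty]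

lemma laneS_pull {φ : V d ≃ V d} (hφ : IsAuto φ) (S : Set (Ed d)) (z : V d) (r : ℕ) :
    laneS (pull φ S) z r = laneS S (φ z) r := by
  unfold laneS
  exact sum_congr rfl fun j _ => laneN_pull hφ S z j r

lemma laneS_trans (S : Set (Ed d)) (y : V d) (r : ℕ) : laneS (pull (transE y) S) 0 r = laneS S y r := by
  rw [laneS_pull (isAuto_transE y), transE_apply, zero_add]

/-! ### locality -/

lemma offB_eq {S : Set (Ed d)} {z : V d} {j : ℕ} (hj : 1 ≤ j) : offB S z j = S \ tb z j S := by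
  obtain ⟨j', rfl⟩ : ∃ j', j = j' + 1 := ⟨j - 1, by omega⟩
  rw [tb_succ]
  rfl

lemma laneN_agree {S S' : Set (Ed d)} {z : V d} {j r : ℕ} (hj : 1 ≤ j) (hjr : j ≤ r) (h : Agree (tb z r S) S S') :
    laneN S' z j r = laneN S z j r := by
  classical
  unfold laneN
  rw [sph_agree h j hjr]
  congr 1
  refine filter_congr fun y hy => ?_
  have hball := ball_agree h
  have hoff : Agree (tb y (r - j) (offB S z j)) (offB S z j) (offB S' z j) := by
    intro e he
    obtain ⟨k, hk, v, hv, hve⟩ := he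
    have hv1 : v ∈ ball S z (j + k) := by
      rw [mem_ball]
      have h1 := (mem_sph.1 hy).1
      have h2 : Rch (offB S z j) y k v := mem_ball.1 hv
      exact h1.trans (h2.mono Set.diff_subset le_rfl)
    have he2 : e ∈ tb z r S := ⟨j + k, by omega, v, hv1, hve⟩
    have h3 := h e he2
    unfold offB
    rw [hball (j - 1) (by omega)]
    simp only [Set.mem_diff, h3]
  rw [sph_agree hoff (r - j) le_rfl]

lemma laneS_agree {S S' : Set (Ed d)} {z : V d} {r : ℕ} (h : Agree (tb z r S) S S') :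
    laneS S' z r = laneS S z r := by
  unfold laneS
  refine sum_congr rfl fun j hj => ?_
  rw [mem_Ioc] at hj
  exact laneN_agree (by omega) (by omega) h

/-- the event of many lanes is determined by the exploration up to level `r` -/
lemma bdet_lane (z : V d) (r : ℕ) (M : ℝ) : BDet z r {S : Set (Ed d) | M < (laneS S z r : ℝ)} := by
  rw [bdet_iff]
  intro S S' h
  show (M < (laneS S' z r : ℝ)) = (M < (laneS S z r : ℝ))
  rw [laneS_agree h]

lemma ball_sub_Lam (S : Set (Ed d)) (z : V d) (r : ℕ) : ball S z r ⊆ Lam z r := by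
  classical
  exact filter_subset _ _

lemma rch_congr {S S' : Set (Ed d)} (h : openGraph S = openGraph S') (x y : V d) (k : ℕ) :
    Rch S x k y ↔ Rch S' x k y := by
  unfold Rch
  rw [h]

lemma ball_congr {S S' : Set (Ed d)} (h : openGraph S = openGraph S') (x : V d) (k : ℕ) :
    ball S x k = ball S' x k := by
  ext y
  rw [mem_ball, mem_ball, rch_congr h]

lemma sph_congr {S S' : Set (Ed d)} (h : openGraph S = openGraph S') (x : V d) (k : ℕ) :
    sph S x k = sph S' x k := by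
  ext y
  rw [mem_sph, mem_sph, rch_congr h]
  simp only [rch_congr h]

lemma openGraph_offB {S S' : Set (Ed d)} (h : openGraph S = openGraph S') (z : V d) (j : ℕ) :
    openGraph (offB S z j) = openGraph (offB S' z j) := by
  ext a b
  have h1 : (openGraph S).Adj a b ↔ (openGraph S').Adj a b := by rw [h]
  have h2 : ((lattice d).Adj a b ∧ s(a, b) ∈ S) ↔ ((lattice d).Adj a b ∧ s(a, b) ∈ S') := h1
  show ((lattice d).Adj a b ∧ s(a, b) ∈ S ∧ s(a, b) ∉ tch _) ↔ ((lattice d).Adj a b ∧ s(a, b) ∈ S' ∧ s(a, b) ∉ tch _)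
  rw [ball_congr h]
  tauto

lemma laneS_congr {S S' : Set (Ed d)} (h : openGraph S = openGraph S') (z : V d) (r : ℕ) :
    laneS S z r = laneS S' z r := by
  classical
  unfold laneS
  refine sum_congr rfl fun j _ => ?_
  unfold laneN
  rw [sph_congr h]
  congr 1
  refine filter_congr fun y _ => ?_
  rw [sph_congr (openGraph_offB h z j)]

lemma openGraph_lat (S : Set (Ed d)) : openGraph (S ∩ (lattice d).edgeSet) = openGraph S := by
  ext a b
  show ((lattice d).Adj a b ∧ s(a, b) ∈ S ∧ s(a, b) ∈ (lattice d).edgeSet) ↔ ((lattice d).Adj a b ∧ s(a, b) ∈ S)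
  rw [SimpleGraph.mem_edgeSet]
  tauto

lemma dst_of_adj_mem {z v a : V d} {k : ℕ} (hv : v ∈ (Lam z k : Finset (V d))) (h : (lattice d).Adj v a) :
    a ∈ (Lam z (k + 1) : Finset (V d)) := by
  rw [mem_Lam] at hv ⊢
  have h1 := dst_tri a v z
  have h2 := dst_adj h.symm
  omega

/-- configurations which agree in the box give the same lane sum -/
lemma laneS_det {S S' : Set (Ed d)} {z : V d} {r : ℕ} (h : ∀ e ∈ Ein (Lam z (r + 1) : Finset (V d)), (e ∈ S ↔ e ∈ S')) :
    laneS S z r = laneS S' z r := by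
  rw [← laneS_congr (openGraph_lat S), ← laneS_congr (openGraph_lat S')]
  refine (laneS_agree fun e he => ?_).symm
  obtain ⟨k, hk, v, hv, hve⟩ := he
  have hvL : v ∈ (Lam z k : Finset (V d)) := ball_sub_Lam _ z k hv
  by_cases hlat : e ∈ (lattice d).edgeSet
  · have he1 : e ∈ Ein (Lam z (r + 1) : Finset (V d)) := by
      induction e using Sym2.ind with
      | _ a b =>
        rw [SimpleGraph.mem_edgeSet] at hlat
        rw [Sym2.mem_iff] at hve
        have hsub : (Lam z (k + 1) : Finset (V d)) ⊆ Lam z (r + 1) := Lam_mono z (by omega)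
        have hsub' : (Lam z k : Finset (V d)) ⊆ Lam z (r + 1) := Lam_mono z (by omega)
        rcases hve with h1 | h1
        · subst h1
          exact mem_Ein.2 ⟨hsub' hvL, hsub (dst_of_adj_mem hvL hlat), hlat⟩
        · subst h1
          exact mem_Ein.2 ⟨hsub (dst_of_adj_mem hvL hlat.symm), hsub' hvL, hlat⟩
    simp only [Set.mem_inter_iff, h e he1]
  · simp only [Set.mem_inter_iff, hlat, and_false]

/-- the event of many lanes is local -/
lemma loc_lane (z : V d) (r : ℕ) (M : ℝ) : Loc {S : Set (Ed d) | M < (laneS S z r : ℝ)} := by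
  refine ⟨Ein (Lam z (r + 1)), lat_Ein _, fun S S' h hS => ?_⟩
  show M < (laneS S' z r : ℝ)
  rw [← laneS_det h]
  exact hS

/-! ### first moment -/

lemma sum_ind {κ : Type*} {A B : Finset κ} {P : κ → Prop} (h : ∀ u, u ∈ B ↔ u ∈ A ∧ P u) :
    ∑ u ∈ A, ind (P u) = (B.card : ℝ) := by
  classical
  have h1 : B = A.filter P := by
    ext u
    rw [h, mem_filter]
  rw [h1]
  unfold ind
  rw [← sum_filter, sum_const, nsmul_eq_mul, mul_one]

lemma EE_laneN {p : ℝ} (hp : 0 ≤ p) (hp1 : p ≤ 1) (E : Finset (Ed d)) (x : V d) {j r : ℕ} (hj : 1 ≤ j) {c : ℝ}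
    (hc : ∀ (u : V d) (E' : Finset (Ed d)), PE p E' {S | (sph S u (r - j)).Nonempty} ≤ c) :
    EE p E (fun S => (laneN S x j r : ℝ)) ≤ c * EE p E (fun S => ((sph S x j).card : ℝ)) := by
  classical
  have h1 : ∀ S : Set (Ed d), (laneN S x j r : ℝ) =
      ∑ u ∈ Lam x j, ind (u ∈ sph S x j ∧ S \ tb x j S ∈ {S : Set (Ed d) | (sph S u (r - j)).Nonempty}) := by
    intro S
    unfold laneN
    refine (sum_ind fun u => ?_).symm
    rw [mem_filter, offB_eq hj]
    constructor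
    · rintro ⟨h2, h3⟩
      exact ⟨ball_sub_Lam S x j (sph_subset S x j h2), h2, h3⟩
    · rintro ⟨_, h2, h3⟩
      exact ⟨h2, h3⟩
  have h2 : ∀ S : Set (Ed d), ((sph S x j).card : ℝ) = ∑ u ∈ Lam x j, ind (u ∈ sph S x j) := by
    intro S
    refine (sum_ind fun u => ?_).symm
    exact ⟨fun h3 => ⟨ball_sub_Lam S x j (sph_subset S x j h3), h3⟩, fun h3 => h3.2⟩
  rw [EE, EE]
  simp only [h1, h2]
  rw [Ex_sum, Ex_sum, mul_sum]
  refine sum_le_sum fun u _ => ?_
  have h3 := pr_marked hp hp1 E x u j (Q := {S : Set (Ed d) | (sph S u (r - j)).Nonempty}) (c := c)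
    (fun E' _ => hc u E')
  have h4 : Ex (fun _ : Ed d => p) E (fun S => ind (u ∈ sph S x j ∧
      S \ tb x j S ∈ {S : Set (Ed d) | (sph S u (r - j)).Nonempty})) =
      PE p E {S | u ∈ sph S x j ∧ S \ tb x j S ∈ {S : Set (Ed d) | (sph S u (r - j)).Nonempty}} :=
    Ex_ind _ _ _
  have h5 : Ex (fun _ : Ed d => p) E (fun S => ind (u ∈ sph S x j)) = PE p E {S | u ∈ sph S x j} := Ex_ind _ _ _
  rw [h4, h5]
  exact h3

lemma sum_sph_le0 (S : Set (Ed d)) (x : V d) (r : ℕ) :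
    ∑ j ∈ Ioc (r / 4) (r / 2), (sph S x j).card ≤ (ball S x (r / 2)).card := by
  classical
  rw [← card_biUnion]
  · refine card_le_card fun y hy => ?_
    rw [mem_biUnion] at hy
    obtain ⟨j, hj, hyj⟩ := hy
    rw [mem_Ioc] at hj
    exact ball_mono subset_rfl hj.2 (sph_subset S x j hyj)
  · intro i _ j _ hij
    rw [Function.onFun, Finset.disjoint_left]
    intro y h1 h2
    exact hij (sph_unique h1 h2)

/-- the first moment of the lane sum -/
lemma EE_laneS {p : ℝ} (hp : 0 ≤ p) (hp1 : p ≤ 1) (E : Finset (Ed d)) (x : V d) {r : ℕ} (hr : 1 ≤ r) {c : ℝ} (hc0 : 0 ≤ c)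
    (hc : ∀ (E' : Finset (Ed d)) (u : V d) (s : ℕ), 1 ≤ s → PE p E' {S | (sph S u s).Nonempty} ≤ c / s) :
    EE p E (fun S => (laneS S x r : ℝ)) ≤ 2 * c / r * GG d p (r / 2) := by
  have hr0 : (0 : ℝ) < r := by exact_mod_cast hr
  have h1 : EE p E (fun S => (laneS S x r : ℝ)) = ∑ j ∈ Ioc (r / 4) (r / 2), EE p E (fun S => (laneN S x j r : ℝ)) := by
    unfold EE laneS
    push_cast
    rw [Ex_sum]
  have h2 : ∀ j ∈ Ioc (r / 4) (r / 2), EE p E (fun S => (laneN S x j r : ℝ)) ≤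
      2 * c / r * EE p E (fun S => ((sph S x j).card : ℝ)) := by
    intro j hj
    rw [mem_Ioc] at hj
    refine EE_laneN hp hp1 E x (by omega) fun u E' => (hc E' u (r - j) (by omega)).trans ?_
    have h3 : (r : ℝ) / 2 ≤ ((r - j : ℕ) : ℝ) := by
      have h4 : r ≤ 2 * (r - j) := by omega
      have h5 : (r : ℝ) ≤ 2 * ((r - j : ℕ) : ℝ) := by exact_mod_cast h4
      linarith
    rw [div_le_div_iff₀ (by linarith [div_pos hr0 (by norm_num : (0:ℝ) < 2)]) hr0]
    nlinarith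
  rw [h1]
  refine (sum_le_sum h2).trans ?_
  rw [← mul_sum]
  refine mul_le_mul_of_nonneg_left ?_ (by positivity)
  have h3 : ∑ j ∈ Ioc (r / 4) (r / 2), EE p E (fun S => ((sph S x j).card : ℝ)) =
      EE p E (fun S => ∑ j ∈ Ioc (r / 4) (r / 2), ((sph S x j).card : ℝ)) := by
    unfold EE
    rw [Ex_sum]
  rw [h3]
  refine le_trans ?_ (EE_ball_le hp hp1 E x (r / 2))
  refine Ex_mono (wt_p hp hp1) fun S => ?_
  exact_mod_cast sum_sph_le0 S x r

/-- Markov -/
lemma PE_markov {p : ℝ} (hp : 0 ≤ p) (hp1 : p ≤ 1) (E : Finset (Ed d)) {f : Set (Ed d) → ℝ} (hf : ∀ S, 0 ≤ f S) {t : ℝ}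
    (ht : 0 < t) : PE p E {S | t < f S} ≤ EE p E f / t := by
  rw [le_div_iff₀ ht]
  have h1 : PE p E {S | t < f S} = Ex (fun _ : Ed d => p) E (fun S => ind (t < f S)) := (Ex_ind _ _ _).symm
  rw [h1, mul_comm, ← Ex_mul]
  refine Ex_mono (wt_p hp hp1) fun S => ?_
  by_cases h : t < f S
  · rw [ind_true h, mul_one]
    exact h.le
  · rw [ind_false h, mul_zero]
    exact hf S

/-- many lanes are unlikely, for percolation on every finite set of edges -/
theorem PE_lane {p : ℝ} (hp : 0 ≤ p) (hp1 : p ≤ 1) {C1 C2 : ℝ} (hC1 : ∀ r : ℕ, 1 ≤ r → GG d p r ≤ C1 * r) (hC10 : 0 ≤ C1)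
    (hC20 : 0 ≤ C2)
    (hC2 : ∀ (E' : Finset (Ed d)) (u : V d) (s : ℕ), 1 ≤ s → PE p E' {S | (sph S u s).Nonempty} ≤ C2 / s)
    (E : Finset (Ed d)) (x : V d) {r : ℕ} (hr : 2 ≤ r) {M : ℝ} (hM : 0 < M) :
    PE p E {S | M * r < (laneS S x r : ℝ)} ≤ C1 * C2 / (M * r) := by
  have hr0 : (0 : ℝ) < r := by
    have : 0 < r := by omega
    exact_mod_cast this
  refine (PE_markov hp hp1 E (fun S => Nat.cast_nonneg _) (by positivity)).trans ?_
  refine div_le_div_of_nonneg_right ?_ (by positivity)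
  refine (EE_laneS hp hp1 E x (by omega) hC20 hC2).trans ?_
  have h1 := hC1 (r / 2) (by omega)
  have h2 : ((r / 2 : ℕ) : ℝ) ≤ r / 2 := Nat.cast_div_le
  calc 2 * C2 / r * GG d p (r / 2) ≤ 2 * C2 / r * (C1 * (r / 2)) := by
        refine mul_le_mul_of_nonneg_left (h1.trans (mul_le_mul_of_nonneg_left h2 hC10)) (by positivity)
    _ = C1 * C2 := by
        field_simp

end Pool.Agent.Lib.MP_06caae_pr
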