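import Pool.Agent.Lib.MP_06caae_pr.Q.Exit

/-!
# Quenched part: oscillations without the strong Markov property

A path carries an anchor `a` (the last reset point) of age `j`; it is reset when the walk leaves `bl a ρ`.
`J n a j x` is the probability that within `n` steps, staying in `Λ`, a reset at age `≤ Δ` occurs,
`Kf n a x` is the expected number of resets. `J_le`: `J N o 0 o ≤ h (1 + s^(-N))`.
-/

open Finset

namespace Pool.Agent.Lib.IICQ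

variable {V : Type*} [DecidableEq V] (G : Gr V)

/-- probability of a fast reset -/
noncomputable def Gr.J (Λ : Finset V) (ρ Δ : ℕ) : ℕ → V → ℕ → V → ℝ
  | 0, _, _, _ => 0
  | n + 1, a, j, x => G.av (fun y => if y ∈ Λ then (if y ∈ G.bl a ρ then Gr.J Λ ρ Δ n a (j + 1) y else
      if j + 1 ≤ Δ then 1 else Gr.J Λ ρ Δ n y 0 y) else 0) x

/-- expected number of resets -/
noncomputable def Gr.Kf (Λ : Finset V) (ρ : ℕ) : ℕ → V → V → ℝ
  | 0, _, _ => 0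
  | n + 1, a, x => G.av (fun y => if y ∈ Λ then (if y ∈ G.bl a ρ then Gr.Kf Λ ρ n a y else
      1 + Gr.Kf Λ ρ n y y) else 0) x

theorem Gr.J_zero (Λ : Finset V) (ρ Δ : ℕ) (a : V) (j : ℕ) (x : V) : G.J Λ ρ Δ 0 a j x = 0 := rfl

theorem Gr.J_succ (Λ : Finset V) (ρ Δ n : ℕ) (a : V) (j : ℕ) (x : V) :
    G.J Λ ρ Δ (n + 1) a j x = G.av (fun y => if y ∈ Λ then (if y ∈ G.bl a ρ then G.J Λ ρ Δ n a (j + 1) y else
      if j + 1 ≤ Δ then 1 else G.J Λ ρ Δ n y 0 y) else 0) x := rfl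

theorem Gr.Kf_zero (Λ : Finset V) (ρ : ℕ) (a x : V) : G.Kf Λ ρ 0 a x = 0 := rfl

theorem Gr.Kf_succ (Λ : Finset V) (ρ n : ℕ) (a x : V) :
    G.Kf Λ ρ (n + 1) a x = G.av (fun y => if y ∈ Λ then (if y ∈ G.bl a ρ then G.Kf Λ ρ n a y else
      1 + G.Kf Λ ρ n y y) else 0) x := rfl

theorem Gr.Kf_nonneg (Λ : Finset V) (ρ n : ℕ) (a x : V) : 0 ≤ G.Kf Λ ρ n a x := by
  induction n generalizing a x with
  | zero => rw [G.Kf_zero]
  | succ n ih =>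
    rw [G.Kf_succ]
    refine G.av_nonneg (fun y => ?_) x
    have h1 := ih a y
    have h2 := ih y y
    split_ifs <;> linarith

theorem Gr.J_mem (Λ : Finset V) (ρ Δ n : ℕ) (a : V) (j : ℕ) (x : V) :
    0 ≤ G.J Λ ρ Δ n a j x ∧ G.J Λ ρ Δ n a j x ≤ 1 := by
  induction n generalizing a j x with
  | zero => rw [G.J_zero]; norm_num
  | succ n ih =>
    rw [G.J_succ]
    refine ⟨G.av_nonneg (fun y => ?_) x, G.av_le (fun y => ?_) x⟩
    · have h1 := (ih a (j + 1) y).1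
      have h2 := (ih y 0 y).1
      split_ifs <;> linarith
    · have h1 := (ih a (j + 1) y).2
      have h2 := (ih y 0 y).2
      split_ifs <;> linarith

/-- fast resets are rarer than resets -/
theorem Gr.J_le_Kf {Λ : Finset V} {ρ Δ : ℕ} {h : ℝ} (hh0 : 0 ≤ h) (hρ : 0 < ρ)
    (hh : ∀ z ∈ Λ, G.ex (G.bl z ρ) Δ z ≤ h) (n : ℕ) : ∀ a j x, x ∈ G.bl a ρ →
    G.J Λ ρ Δ n a j x ≤ G.ex (G.bl a ρ) (Δ - j) x + h * G.Kf Λ ρ n a x := by
  induction n with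
  | zero =>
    intro a j x _
    rw [G.J_zero, G.Kf_zero, mul_zero, add_zero]
    exact (G.ex_mem _ _ _).1
  | succ n ih =>
    intro a j x hx
    have hreset : ∀ y ∈ Λ, G.J Λ ρ Δ n y 0 y ≤ h * (1 + G.Kf Λ ρ n y y) := by
      intro y hy
      have h1 := ih y 0 y (G.self_mem_bl y hρ)
      rw [Nat.sub_zero] at h1
      have h2 := hh y hy
      linarith
    rw [G.J_succ, G.Kf_succ, ← G.av_smul]
    by_cases hj : j + 1 ≤ Δ
    · obtain ⟨m, hm⟩ : ∃ m, Δ - j = m + 1 := ⟨Δ - j - 1, by omega⟩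
      have hm' : Δ - (j + 1) = m := by omega
      rw [hm, G.ex_succ, if_pos hx, ← G.av_add]
      refine G.av_mono (fun y => ?_) x
      have h1 := (G.ex_mem (G.bl a ρ) m y)
      have h2 := G.Kf_nonneg Λ ρ n a y
      have h3 := G.Kf_nonneg Λ ρ n y y
      have h4 := mul_nonneg hh0 h2
      have h5 := mul_nonneg hh0 (add_nonneg zero_le_one h3)
      by_cases hy : y ∈ Λ
      · rw [if_pos hy, if_pos hy]
        by_cases hya : y ∈ G.bl a ρ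
        · rw [if_pos hya, if_pos hya]
          have := ih a (j + 1) y hya
          rwa [hm'] at this
        · rw [if_neg hya, if_neg hya, if_pos hj]
          have h6 : G.ex (G.bl a ρ) m y = 1 := by
            cases m with
            | zero => rw [G.ex_zero, if_neg hya]
            | succ m => rw [G.ex_succ, if_neg hya]
          rw [h6]
          linarith
      · rw [if_neg hy, if_neg hy, mul_zero]
        linarith [h1.1]
    · have hj' : Δ - j = 0 := by omega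
      rw [hj', G.ex_zero, if_pos hx, zero_add]
      refine G.av_mono (fun y => ?_) x
      by_cases hy : y ∈ Λ
      · rw [if_pos hy, if_pos hy]
        by_cases hya : y ∈ G.bl a ρ
        · rw [if_pos hya, if_pos hya]
          have h1 := ih a (j + 1) y hya
          have h2 : Δ - (j + 1) = 0 := by omega
          rw [h2, G.ex_zero, if_pos hya, zero_add] at h1
          exact h1
        · rw [if_neg hya, if_neg hya, if_neg hj]
          exact hreset y hy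
      · rw [if_neg hy, if_neg hy, mul_zero]

/-- the expected number of resets -/
theorem Gr.Kf_le {Λ : Finset V} {ρ : ℕ} (hρ : 0 < ρ) {s : ℝ} (hs0 : 0 < s) (hs1 : s ≤ 1) (u : V → V → ℝ)
    (h1 : ∀ a ∈ Λ, ∀ x, x ∉ G.bl a ρ → u a x = 1) (h2 : ∀ a ∈ Λ, ∀ x ∈ G.bl a ρ, u a x = s * G.av (u a) x)
    (h3 : ∀ a ∈ Λ, ∀ x, 0 ≤ u a x) (h4 : ∀ a ∈ Λ, u a a ≤ 1 / 2) (n : ℕ) : ∀ a ∈ Λ, ∀ x ∈ G.bl a ρ,
    s ^ n * G.Kf Λ ρ n a x ≤ 2 * u a x := by
  induction n with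
  | zero =>
    intro a ha x _
    rw [G.Kf_zero, mul_zero]
    have := h3 a ha x
    linarith
  | succ n ih =>
    intro a ha x hx
    rw [G.Kf_succ, h2 a ha x hx, pow_succ, mul_comm (s ^ n) s, mul_assoc, mul_left_comm 2 s]
    refine mul_le_mul_of_nonneg_left ?_ hs0.le
    rw [← G.av_smul, ← G.av_smul]
    refine G.av_mono (fun y => ?_) x
    by_cases hy : y ∈ Λ
    · rw [if_pos hy]
      by_cases hya : y ∈ G.bl a ρ
      · rw [if_pos hya]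
        exact ih a ha y hya
      · rw [if_neg hya, h1 a ha y hya]
        have h5 := ih y hy y (G.self_mem_bl y hρ)
        have h6 := h4 y hy
        have h7 : s ^ n ≤ 1 := pow_le_one₀ hs0.le hs1
        have h8 : 0 ≤ s ^ n := pow_nonneg hs0.le n
        nlinarith
    · rw [if_neg hy, mul_zero]
      have := h3 a ha y
      linarith

/-- the probability of a fast reset -/
theorem Gr.J_le {Λ : Finset V} {ρ Δ : ℕ} {h : ℝ} (hh0 : 0 ≤ h) (hρ : 0 < ρ)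
    (hh : ∀ z ∈ Λ, G.ex (G.bl z ρ) Δ z ≤ h) {s : ℝ} (hs0 : 0 < s) (hs1 : s ≤ 1) (u : V → V → ℝ)
    (h1 : ∀ a ∈ Λ, ∀ x, x ∉ G.bl a ρ → u a x = 1) (h2 : ∀ a ∈ Λ, ∀ x ∈ G.bl a ρ, u a x = s * G.av (u a) x)
    (h3 : ∀ a ∈ Λ, ∀ x, 0 ≤ u a x) (h4 : ∀ a ∈ Λ, u a a ≤ 1 / 2) (N : ℕ) {o : V} (ho : o ∈ Λ) :
    s ^ N * G.J Λ ρ Δ N o 0 o ≤ 2 * h := by
  have e1 := G.J_le_Kf hh0 hρ hh N o 0 o (G.self_mem_bl o hρ)
  rw [Nat.sub_zero] at e1
  have e2 := hh o ho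
  have e3 := G.Kf_le hρ hs0 hs1 u h1 h2 h3 h4 N o ho o (G.self_mem_bl o hρ)
  have e4 := h4 o ho
  have e5 : s ^ N ≤ 1 := pow_le_one₀ hs0.le hs1
  have e6 : 0 ≤ s ^ N := pow_nonneg hs0.le N
  calc s ^ N * G.J Λ ρ Δ N o 0 o ≤ s ^ N * (h + h * G.Kf Λ ρ N o o) := mul_le_mul_of_nonneg_left (by linarith) e6
    _ = h * (s ^ N + s ^ N * G.Kf Λ ρ N o o) := by ring
    _ ≤ h * (1 + 1) := mul_le_mul_of_nonneg_left (by linarith) hh0
    _ = 2 * h := by ring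

/-- the same with the exit estimate: everything from energies and volumes -/
theorem Gr.J_le' {Λ : Finset V} {ρ Δ T : ℕ} (hρ : 0 < ρ) (hΔ : 2 ≤ Δ) (hT : 2 ≤ T)
    (hd : ∀ z ∈ Λ, ∀ x ∈ G.bl z ρ, (G.nb x).Nonempty) (E : ℝ)
    (hf : ∀ z ∈ Λ, ∃ f : V → ℝ, f z = 1 ∧ (∀ x, x ∉ G.bl z ρ → f x = 0) ∧ (∀ x, f x ≤ 1) ∧
      G.en (G.bl z (ρ + 1)) f f ≤ E)
    (r1 : ℕ) (hr1 : r1 + 1 ≤ ρ) (K1 : ℝ) (hK1 : 16 * r1 ≤ K1)
    (hV1 : ∀ z ∈ Λ, 4 * Δ ≤ G.vol (G.bl z (r1 + 1)) * K1)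
    (r2 : ℕ) (hr2 : r2 + 1 ≤ ρ) (K2 : ℝ) (hK2 : 16 * r2 ≤ K2)
    (hV2 : ∀ z ∈ Λ, 4 * T ≤ G.vol (G.bl z (r2 + 1)) * K2) (hK2E : 4 * (K2 * E) ≤ 1)
    (m : ℕ) {o : V} (ho : o ∈ Λ) :
    G.J Λ ρ Δ (m * T) o 0 o ≤ 4 ^ m * (8 * √(K1 * E)) := by
  have hT0 : (2 : ℝ) ≤ T := by exact_mod_cast hT
  have h1T : 1 / (T : ℝ) ≤ 1 / 2 := one_div_le_one_div_of_le (by norm_num) hT0
  have h1T0 : 0 < 1 / (T : ℝ) := by positivity
  obtain ⟨s, hs⟩ : ∃ s : ℝ, s = 1 - 1 / (T : ℝ) := ⟨_, rfl⟩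
  have hs0 : 0 < s := by linarith
  have hs1 : s < 1 := by linarith
  have hK10 : 0 ≤ K1 := le_trans (by positivity) hK1
  have hK20 : 0 ≤ K2 := le_trans (by positivity) hK2
  have hex : ∀ z ∈ Λ, G.ex (G.bl z ρ) Δ z ≤ 4 * √(K1 * E) := by
    intro z hz
    obtain ⟨f, f1, f2, f3, f4⟩ := hf z hz
    refine (G.exit_le (G.bl_mono z (Nat.le_succ ρ)) (fun x hx y hy => G.nb_bl hx hy) (hd z hz) (G.self_mem_bl z hρ) Δ hΔ
      r1 (G.bl_mono z hr1) K1 hK1 (hV1 z hz) f f1 f2 f3).trans ?_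
    exact mul_le_mul_of_nonneg_left (Real.sqrt_le_sqrt (mul_le_mul_of_nonneg_left f4 hK10)) (by norm_num)
  have hu : ∀ a : V, ∃ u : V → ℝ, a ∈ Λ → (∀ x, x ∉ G.bl a ρ → u x = 1) ∧ (∀ x ∈ G.bl a ρ, u x = s * G.av u x) ∧
      (∀ x, 0 ≤ u x) ∧ u a ≤ 1 / 2 := by
    intro a
    by_cases ha : a ∈ Λ
    · obtain ⟨u, u1, u2, u3, u4⟩ := G.exists_u hs0.le hs1 (hd a ha)
      refine ⟨u, fun _ => ⟨u1, u2, u3, ?_⟩⟩
      obtain ⟨f, f1, f2, f3, f4⟩ := hf a ha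
      have h5 := G.u_le hs0 hs1 (G.bl_mono a (Nat.le_succ ρ)) (fun x hx y hy => G.nb_bl hx hy) (hd a ha)
        (G.self_mem_bl a hρ) u1 u2 r2 (G.bl_mono a hr2) K2 (by nlinarith) (by
          have h6 : (1 - s) * G.vol (G.bl a (r2 + 1)) * K2 = (G.vol (G.bl a (r2 + 1)) * K2) / T := by
            rw [hs]
            field_simp
            ring
          rw [h6, le_div_iff₀ (by linarith)]
          exact hV2 a ha) hK20 f f1 f2 f3
      refine h5.trans ?_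
      rw [Real.sqrt_le_left (by norm_num)]
      have := mul_le_mul_of_nonneg_left f4 hK20
      nlinarith
    · exact ⟨fun _ => 0, fun h => absurd h ha⟩
  choose u hu using hu
  have h7 := G.J_le (h := 4 * √(K1 * E)) (by positivity) hρ hex hs0 hs1.le u (fun a ha => (hu a ha).1)
    (fun a ha => (hu a ha).2.1) (fun a ha => (hu a ha).2.2.1) (fun a ha => (hu a ha).2.2.2) (m * T) ho
  have h8 := quarter_le_pow T hT
  rw [← hs] at h8
  have h9 : (1 / 4 : ℝ) ^ m ≤ s ^ (m * T) := by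
    rw [mul_comm, pow_mul]
    exact pow_le_pow_left₀ (by norm_num) h8 m
  have h10 := (G.J_mem Λ ρ Δ (m * T) o 0 o).1
  have h11 : (1 / 4 : ℝ) ^ m * G.J Λ ρ Δ (m * T) o 0 o ≤ 2 * (4 * √(K1 * E)) :=
    (mul_le_mul_of_nonneg_right h9 h10).trans h7
  have h12 : (4 : ℝ) ^ m * (1 / 4) ^ m = 1 := by
    rw [← mul_pow]
    norm_num
  calc G.J Λ ρ Δ (m * T) o 0 o = 4 ^ m * ((1 / 4) ^ m * G.J Λ ρ Δ (m * T) o 0 o) := by
        rw [← mul_assoc, h12, one_mul]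
    _ ≤ 4 ^ m * (2 * (4 * √(K1 * E))) := mul_le_mul_of_nonneg_left h11 (by positivity)
    _ = 4 ^ m * (8 * √(K1 * E)) := by ring

end Pool.Agent.Lib.IICQ
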