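import Pool.Agent.Lib.MP_06caae_pr.Q.Osc
import Pool.Agent.Lib.MP_06caae_pr.Q.Hit

/-!
# Quenched part: path measures

`IsRW G P`: the family `P x` of path measures has the first step property. Then `ex`, `hit`, `J` are the probabilities of
the corresponding path events.
-/

open Finset MeasureTheory

namespace Pool.Agent.Lib.IICQ

variable {V : Type*}

/-- put `x` in front of a path -/
def cns (x : V) (w : ℕ → V) : ℕ → V
  | 0 => x
  | n + 1 => w n

@[simp] theorem cns_zero (x : V) (w : ℕ → V) : cns x w 0 = x := rfl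

@[simp] theorem cns_succ (x : V) (w : ℕ → V) (n : ℕ) : cns x w (n + 1) = w n := rfl

/-- forget the first position -/
def sh (w : ℕ → V) : ℕ → V := fun n => w (n + 1)

@[simp] theorem sh_apply (w : ℕ → V) (n : ℕ) : sh w n = w (n + 1) := rfl

@[simp] theorem sh_cns (x : V) (w : ℕ → V) : sh (cns x w) = w := rfl

/-- an event which depends on finitely many positions is measurable -/
theorem meas_dep [Countable V] [MeasurableSpace V] [DiscreteMeasurableSpace V] (n : ℕ) {E : (ℕ → V) → Prop}
    (h : ∀ w w' : ℕ → V, (∀ i ≤ n, w i = w' i) → E w → E w') : MeasurableSet {w | E w} := by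
  classical
  let φ : (ℕ → V) → (Fin (n + 1) → V) := fun w i => w i
  have hφ : Measurable φ := measurable_pi_iff.2 fun i => measurable_pi_apply _
  have h1 : {w | E w} = φ ⁻¹' (φ '' {w | E w}) := by
    ext w
    constructor
    · intro hw
      exact ⟨w, hw, rfl⟩
    · rintro ⟨w', hw', hww⟩
      refine h w' w (fun i hi => ?_) hw'
      exact congrFun hww ⟨i, by omega⟩
  rw [h1]
  exact hφ (Set.to_countable _).measurableSet

variable [DecidableEq V] (G : Gr V)

/-- a family of path measures with the first step property of the simple random walk on `G` -/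
structure IsRW [MeasurableSpace V] (P : V → Measure (ℕ → V)) : Prop where
  prob : ∀ x, IsProbabilityMeasure (P x)
  step : ∀ x (A : Set (ℕ → V)), MeasurableSet A → (P x).real A = G.av (fun y => (P y).real {w | cns x w ∈ A}) x

variable {G}

theorem Gr.av_congr {f g : V → ℝ} {x : V} (h : ∀ y, f y = g y) : G.av f x = G.av g x := by
  have : f = g := funext h
  rw [this]

theorem IsRW.start [Countable V] [MeasurableSpace V] [DiscreteMeasurableSpace V] {P : V → Measure (ℕ → V)} (h : IsRW G P) (x : V) :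
    (P x).real {w | w 0 = x} = 1 := by
  have h1 : MeasurableSet {w : ℕ → V | w 0 = x} := meas_dep 0 fun w w' hw hE => by
    rw [← hw 0 le_rfl]; exact hE
  rw [h.step x _ h1]
  have h2 : ∀ y, (P y).real {w : ℕ → V | cns x w ∈ {w : ℕ → V | w 0 = x}} = 1 := by
    intro y
    have := h.prob y
    have h3 : {w : ℕ → V | cns x w ∈ {w : ℕ → V | w 0 = x}} = Set.univ := by
      ext w
      simp
    rw [h3, probReal_univ]
  rw [Gr.av_congr h2, G.av_const]

/-- only the starting point matters at time 0 -/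
theorem IsRW.inter_start [Countable V] [MeasurableSpace V] [DiscreteMeasurableSpace V] {P : V → Measure (ℕ → V)} (h : IsRW G P) (x : V)
    (A : Set (ℕ → V)) : (P x).real (A ∩ {w | w 0 = x}) = (P x).real A := by
  have := h.prob x
  have h1 := h.start x
  have h2 : (P x).real {w | w 0 = x}ᶜ = 0 := by
    have h3 : MeasurableSet {w : ℕ → V | w 0 = x} := meas_dep 0 fun w w' hw hE => by
      rw [← hw 0 le_rfl]; exact hE
    rw [measureReal_compl h3, h1, probReal_univ, sub_self]
  refine le_antisymm (measureReal_mono Set.inter_subset_left) ?_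
  have h4 : A ⊆ (A ∩ {w | w 0 = x}) ∪ {w | w 0 = x}ᶜ := by
    intro w hw
    by_cases h5 : w 0 = x
    · exact Or.inl ⟨hw, h5⟩
    · exact Or.inr h5
  calc (P x).real A ≤ (P x).real ((A ∩ {w | w 0 = x}) ∪ {w | w 0 = x}ᶜ) := measureReal_mono h4
    _ ≤ (P x).real (A ∩ {w | w 0 = x}) + (P x).real {w | w 0 = x}ᶜ := measureReal_union_le _ _
    _ = (P x).real (A ∩ {w | w 0 = x}) := by rw [h2, add_zero]

/-- the exit probability -/
theorem IsRW.exit [Countable V] [MeasurableSpace V] [DiscreteMeasurableSpace V] {P : V → Measure (ℕ → V)} (h : IsRW G P) (B : Finset V)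
    (n : ℕ) (x : V) : (P x).real {w | ∃ k ≤ n, w k ∉ B} = G.ex B n x := by
  induction n generalizing x with
  | zero =>
    rw [← h.inter_start x, G.ex_zero]
    have := h.prob x
    split_ifs with hx
    · have h1 : {w : ℕ → V | ∃ k ≤ 0, w k ∉ B} ∩ {w | w 0 = x} = ∅ := by
        ext w
        simp only [Set.mem_inter_iff, Set.mem_setOf_eq, Set.mem_empty_iff_false, iff_false, not_and]
        rintro ⟨k, hk, hB⟩ hw
        rw [Nat.le_zero.1 hk, hw] at hB
        exact hB hx
      rw [h1, measureReal_empty]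
    · have h1 : {w : ℕ → V | ∃ k ≤ 0, w k ∉ B} ∩ {w | w 0 = x} = {w | w 0 = x} := by
        ext w
        simp only [Set.mem_inter_iff, Set.mem_setOf_eq, and_iff_right_iff_imp]
        intro hw
        exact ⟨0, le_rfl, by rw [hw]; exact hx⟩
      rw [h1, h.start x]
  | succ n ih =>
    have hm : MeasurableSet {w : ℕ → V | ∃ k ≤ n + 1, w k ∉ B} := meas_dep (n + 1) fun w w' hw hE => by
      obtain ⟨k, hk, hkB⟩ := hE
      exact ⟨k, hk, by rw [← hw k hk]; exact hkB⟩
    rw [h.step x _ hm, G.ex_succ]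
    split_ifs with hx
    · refine Gr.av_congr fun y => ?_
      rw [← ih y]
      congr 1
      ext w
      constructor
      · rintro ⟨k, hk, hkB⟩
        cases k with
        | zero => exact absurd hx hkB
        | succ k => exact ⟨k, by omega, hkB⟩
      · rintro ⟨k, hk, hkB⟩
        exact ⟨k + 1, by omega, hkB⟩
    · have h2 : ∀ y, (P y).real {w : ℕ → V | cns x w ∈ {w : ℕ → V | ∃ k ≤ n + 1, w k ∉ B}} = 1 := by
        intro y
        have := h.prob y
        have h3 : {w : ℕ → V | cns x w ∈ {w : ℕ → V | ∃ k ≤ n + 1, w k ∉ B}} = Set.univ := by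
          ext w
          simp only [Set.mem_setOf_eq, Set.mem_univ, iff_true]
          exact ⟨0, Nat.zero_le _, hx⟩
        rw [h3, probReal_univ]
      rw [Gr.av_congr h2, G.av_const]

/-- the hitting probability -/
theorem IsRW.hit [Countable V] [MeasurableSpace V] [DiscreteMeasurableSpace V] {P : V → Measure (ℕ → V)} (h : IsRW G P) (y : V)
    (n : ℕ) (x : V) : (P x).real {w | ∃ k ≤ n, w k = y} = G.hit y n x := by
  induction n generalizing x with
  | zero =>
    rw [← h.inter_start x, G.hit_zero]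
    have := h.prob x
    split_ifs with hx
    · have h1 : {w : ℕ → V | ∃ k ≤ 0, w k = y} ∩ {w | w 0 = x} = {w | w 0 = x} := by
        ext w
        simp only [Set.mem_inter_iff, Set.mem_setOf_eq, and_iff_right_iff_imp]
        intro hw
        exact ⟨0, le_rfl, by rw [hw]; exact hx⟩
      rw [h1, h.start x]
    · have h1 : {w : ℕ → V | ∃ k ≤ 0, w k = y} ∩ {w | w 0 = x} = ∅ := by
        ext w
        simp only [Set.mem_inter_iff, Set.mem_setOf_eq, Set.mem_empty_iff_false, iff_false, not_and]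
        rintro ⟨k, hk, hB⟩ hw
        rw [Nat.le_zero.1 hk, hw] at hB
        exact hx hB
      rw [h1, measureReal_empty]
  | succ n ih =>
    have hm : MeasurableSet {w : ℕ → V | ∃ k ≤ n + 1, w k = y} := meas_dep (n + 1) fun w w' hw hE => by
      obtain ⟨k, hk, hkB⟩ := hE
      exact ⟨k, hk, by rw [← hw k hk]; exact hkB⟩
    rw [h.step x _ hm, G.hit_succ]
    split_ifs with hx
    · have h2 : ∀ z, (P z).real {w : ℕ → V | cns x w ∈ {w : ℕ → V | ∃ k ≤ n + 1, w k = y}} = 1 := by
        intro z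
        have := h.prob z
        have h3 : {w : ℕ → V | cns x w ∈ {w : ℕ → V | ∃ k ≤ n + 1, w k = y}} = Set.univ := by
          ext w
          simp only [Set.mem_setOf_eq, Set.mem_univ, iff_true]
          exact ⟨0, Nat.zero_le _, hx⟩
        rw [h3, probReal_univ]
      rw [Gr.av_congr h2, G.av_const]
    · refine Gr.av_congr fun z => ?_
      rw [← ih z]
      congr 1
      ext w
      constructor
      · rintro ⟨k, hk, hkB⟩
        cases k with
        | zero => exact absurd hkB hx
        | succ k => exact ⟨k, by omega, hkB⟩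
      · rintro ⟨k, hk, hkB⟩
        exact ⟨k + 1, by omega, hkB⟩

variable (G)

/-- the path event: a fast reset -/
def Gr.fast (Λ : Finset V) (ρ Δ : ℕ) : ℕ → V → ℕ → (ℕ → V) → Prop
  | 0, _, _, _ => False
  | n + 1, a, j, w => w 1 ∈ Λ ∧ ((w 1 ∈ G.bl a ρ ∧ Gr.fast Λ ρ Δ n a (j + 1) (sh w)) ∨
      (w 1 ∉ G.bl a ρ ∧ (j + 1 ≤ Δ ∨ Gr.fast Λ ρ Δ n (w 1) 0 (sh w))))

theorem Gr.fast_succ (Λ : Finset V) (ρ Δ n : ℕ) (a : V) (j : ℕ) (w : ℕ → V) :
    G.fast Λ ρ Δ (n + 1) a j w ↔ w 1 ∈ Λ ∧ ((w 1 ∈ G.bl a ρ ∧ G.fast Λ ρ Δ n a (j + 1) (sh w)) ∨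
      (w 1 ∉ G.bl a ρ ∧ (j + 1 ≤ Δ ∨ G.fast Λ ρ Δ n (w 1) 0 (sh w)))) := Iff.rfl

theorem Gr.fast_dep (Λ : Finset V) (ρ Δ n : ℕ) (a : V) (j : ℕ) (w w' : ℕ → V) (h : ∀ i ≤ n, w i = w' i)
    (hE : G.fast Λ ρ Δ n a j w) : G.fast Λ ρ Δ n a j w' := by
  induction n generalizing a j w w' with
  | zero => exact hE
  | succ n ih =>
    rw [G.fast_succ] at hE ⊢
    rw [h 1 (by omega)] at hE
    refine ⟨hE.1, ?_⟩
    rcases hE.2 with ⟨h1, h2⟩ | ⟨h1, h2 | h2⟩
    · exact Or.inl ⟨h1, ih a (j + 1) (sh w) (sh w') (fun i hi => h (i + 1) (by omega)) h2⟩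
    · exact Or.inr ⟨h1, Or.inl h2⟩
    · exact Or.inr ⟨h1, Or.inr (ih (w' 1) 0 (sh w) (sh w') (fun i hi => h (i + 1) (by omega)) h2)⟩

/-- it does not depend on the starting position -/
theorem Gr.fast_cns (Λ : Finset V) (ρ Δ n : ℕ) (a : V) (j : ℕ) (x : V) (w : ℕ → V) :
    G.fast Λ ρ Δ (n + 1) a j (cns x w) ↔ w 0 ∈ Λ ∧ ((w 0 ∈ G.bl a ρ ∧ G.fast Λ ρ Δ n a (j + 1) w) ∨
      (w 0 ∉ G.bl a ρ ∧ (j + 1 ≤ Δ ∨ G.fast Λ ρ Δ n (w 0) 0 w))) := by
  rw [G.fast_succ]
  rfl

variable {G}

theorem IsRW.fast [Countable V] [MeasurableSpace V] [DiscreteMeasurableSpace V] {P : V → Measure (ℕ → V)} (h : IsRW G P)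
    (Λ : Finset V) (ρ Δ n : ℕ) (a : V) (j : ℕ) (x : V) :
    (P x).real {w | G.fast Λ ρ Δ n a j w} = G.J Λ ρ Δ n a j x := by
  induction n generalizing a j x with
  | zero =>
    rw [G.J_zero]
    have h1 : {w : ℕ → V | G.fast Λ ρ Δ 0 a j w} = ∅ := rfl
    rw [h1, measureReal_empty]
  | succ n ih =>
    rw [h.step x _ (meas_dep (n + 1) (G.fast_dep Λ ρ Δ (n + 1) a j)), G.J_succ]
    refine Gr.av_congr fun y => ?_
    have := h.prob y
    rw [← h.inter_start y]
    by_cases hy : y ∈ Λ
    · rw [if_pos hy]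
      by_cases hya : y ∈ G.bl a ρ
      · rw [if_pos hya, ← ih a (j + 1) y, ← h.inter_start y {w | G.fast Λ ρ Δ n a (j + 1) w}]
        congr 1
        ext w
        simp only [Set.mem_inter_iff, Set.mem_setOf_eq, G.fast_cns]
        constructor
        · rintro ⟨⟨h1, h2⟩, h3⟩
          rw [h3] at h2
          rcases h2 with h2 | h2
          · exact ⟨h2.2, h3⟩
          · exact absurd hya h2.1
        · rintro ⟨h1, h3⟩
          rw [h3]
          exact ⟨⟨hy, Or.inl ⟨hya, h1⟩⟩, rfl⟩
      · rw [if_neg hya]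
        split_ifs with hj
        · rw [← h.start y]
          congr 1
          ext w
          simp only [Set.mem_inter_iff, Set.mem_setOf_eq, G.fast_cns]
          constructor
          · rintro ⟨_, h3⟩
            exact h3
          · intro h3
            rw [h3]
            exact ⟨⟨hy, Or.inr ⟨hya, Or.inl hj⟩⟩, rfl⟩
        · rw [← ih y 0 y, ← h.inter_start y {w | G.fast Λ ρ Δ n y 0 w}]
          congr 1
          ext w
          simp only [Set.mem_inter_iff, Set.mem_setOf_eq, G.fast_cns]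
          constructor
          · rintro ⟨⟨h1, h2⟩, h3⟩
            rw [h3] at h2
            rcases h2 with h2 | h2
            · exact absurd h2.1 hya
            · exact ⟨h2.2.resolve_left hj, h3⟩
          · rintro ⟨h1, h3⟩
            rw [h3]
            exact ⟨⟨hy, Or.inr ⟨hya, Or.inr h1⟩⟩, rfl⟩
    · rw [if_neg hy]
      have h1 : {w : ℕ → V | cns x w ∈ {w | G.fast Λ ρ Δ (n + 1) a j w}} ∩ {w | w 0 = y} = ∅ := by
        ext w
        simp only [Set.mem_inter_iff, Set.mem_setOf_eq, G.fast_cns, Set.mem_empty_iff_false, iff_false]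
        rintro ⟨⟨h1, _⟩, h3⟩
        rw [h3] at h1
        exact hy h1
      rw [h1, measureReal_empty]

/-- almost surely the path follows edges (or stays at an isolated vertex) -/
theorem IsRW.steps [Countable V] [MeasurableSpace V] [DiscreteMeasurableSpace V] {P : V → Measure (ℕ → V)} (h : IsRW G P) (n : ℕ)
    (x : V) : (P x).real {w | ∃ k < n, w (k + 1) ∉ G.nb (w k) ∧ w (k + 1) ≠ w k} = 0 := by
  induction n generalizing x with
  | zero =>
    have h1 : {w : ℕ → V | ∃ k < 0, w (k + 1) ∉ G.nb (w k) ∧ w (k + 1) ≠ w k} = ∅ := by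
      ext w
      simp
    rw [h1, measureReal_empty]
  | succ n ih =>
    have hm : MeasurableSet {w : ℕ → V | ∃ k < n + 1, w (k + 1) ∉ G.nb (w k) ∧ w (k + 1) ≠ w k} :=
      meas_dep (n + 1) fun w w' hw hE => by
        obtain ⟨k, hk, hkB⟩ := hE
        exact ⟨k, hk, by rw [← hw k (by omega), ← hw (k + 1) (by omega)]; exact hkB⟩
    rw [h.step x _ hm]
    have h1 : ∀ y, (y ∈ G.nb x ∨ y = x) →
        (P y).real {w : ℕ → V | cns x w ∈ {w : ℕ → V | ∃ k < n + 1, w (k + 1) ∉ G.nb (w k) ∧ w (k + 1) ≠ w k}} = 0 := by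
      intro y hy
      have := h.prob y
      rw [← h.inter_start y]
      refine le_antisymm ?_ measureReal_nonneg
      rw [← ih y]
      refine measureReal_mono ?_
      rintro w ⟨⟨k, hk, hkB⟩, h3⟩
      cases k with
      | zero =>
        exfalso
        have h4 : w 0 = y := h3
        have h5 : w 0 ∉ G.nb x ∧ w 0 ≠ x := hkB
        rw [h4] at h5
        rcases hy with hy | hy
        · exact h5.1 hy
        · exact h5.2 hy
      | succ k => exact ⟨k, by omega, hkB⟩
    have h2 : G.av (fun y => (P y).real {w : ℕ → V | cns x w ∈ {w : ℕ → V | ∃ k < n + 1, w (k + 1) ∉ G.nb (w k) ∧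
        w (k + 1) ≠ w k}}) x ≤ G.av (fun _ => 0) x :=
      G.av_mono' (h1 x (Or.inr rfl)).le fun y hy => (h1 y (Or.inl hy)).le
    rw [G.av_const] at h2
    exact le_antisymm h2 (G.av_nonneg (fun y => measureReal_nonneg) x)

end Pool.Agent.Lib.IICQ
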