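import Pool.Agent.Lib.MP_06caae_pr.Q.Gr

/-!
# Quenched part: the discounted killed Green function

`G.L s g x = deg x g x - s ∑_{y ~ x} g y`. Minimum principle, existence of solutions, symmetry.
-/

open Finset

namespace Pool.Agent.Lib.IICQ

variable {V : Type*} [DecidableEq V] (G : Gr V)

/-- the operator `deg (1 - s P)` -/
noncomputable def Gr.L (s : ℝ) (g : V → ℝ) (x : V) : ℝ := G.dg x * g x - s * ∑ y ∈ G.nb x, g y

theorem Gr.dg_pos {x : V} (h : (G.nb x).Nonempty) : 0 < G.dg x := by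
  unfold Gr.dg
  exact_mod_cast card_pos.2 h

theorem Gr.dg_nonneg (x : V) : 0 ≤ G.dg x := by
  unfold Gr.dg
  exact Nat.cast_nonneg _

/-- minimum principle -/
theorem Gr.minp {s : ℝ} (hs0 : 0 ≤ s) (hs1 : s < 1) {B : Finset V} (hd : ∀ x ∈ B, (G.nb x).Nonempty) (v : V → ℝ)
    (h0 : ∀ x, x ∉ B → 0 ≤ v x) (h1 : ∀ x ∈ B, 0 ≤ G.L s v x) : ∀ x, 0 ≤ v x := by
  by_contra hcon
  push Not at hcon
  obtain ⟨x0, hx0⟩ := hcon
  have hx0B : x0 ∈ B := by
    by_contra h
    exact absurd (h0 x0 h) (not_le.2 hx0)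
  obtain ⟨x, hxB, hx⟩ := exists_min_image B v ⟨x0, hx0B⟩
  have hneg : v x < 0 := lt_of_le_of_lt (hx x0 hx0B) hx0
  have hle : ∀ y, v x ≤ v y := by
    intro y
    by_cases hy : y ∈ B
    · exact hx y hy
    · exact hneg.le.trans (h0 y hy)
  have hsum : G.dg x * v x ≤ ∑ y ∈ G.nb x, v y := by
    unfold Gr.dg
    rw [← nsmul_eq_mul, ← sum_const]
    exact sum_le_sum fun y _ => hle y
  have hL := h1 x hxB
  unfold Gr.L at hL
  have hd' := G.dg_pos (hd x hxB)
  have h2 : s * (G.dg x * v x) ≤ s * ∑ y ∈ G.nb x, v y := mul_le_mul_of_nonneg_left hsum hs0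
  have h3 : 0 ≤ (1 - s) * (G.dg x * v x) := by linarith
  have h4 : G.dg x * v x < 0 := mul_neg_of_pos_of_neg hd' hneg
  have h5 : (1 - s) * (G.dg x * v x) < 0 := mul_neg_of_pos_of_neg (by linarith) h4
  linarith

/-- existence of solutions -/
theorem Gr.solve {s : ℝ} (hs0 : 0 ≤ s) (hs1 : s < 1) {B : Finset V} (hd : ∀ x ∈ B, (G.nb x).Nonempty) (b : V → ℝ) :
    ∃ w : V → ℝ, (∀ x, x ∉ B → w x = 0) ∧ ∀ x ∈ B, G.L s w x = b x := by
  classical
  let ext : (B → ℝ) → V → ℝ := fun w y => if h : y ∈ B then w ⟨y, h⟩ else 0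
  have hadd : ∀ w w' y, ext (w + w') y = ext w y + ext w' y := by
    intro w w' y
    simp only [ext]
    split_ifs <;> simp
  have hsmul : ∀ (c : ℝ) w y, ext (c • w) y = c * ext w y := by
    intro c w y
    simp only [ext]
    split_ifs <;> simp
  let T : (B → ℝ) →ₗ[ℝ] (B → ℝ) :=
    { toFun := fun w x => G.L s (ext w) x
      map_add' := by
        intro w w'
        ext x
        simp only [Gr.L, Pi.add_apply, hadd, sum_add_distrib]
        ring
      map_smul' := by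
        intro c w
        ext x
        simp only [Gr.L, Pi.smul_apply, hsmul, ← mul_sum, smul_eq_mul, RingHom.id_apply]
        ring }
  have hT : ∀ w x, T w x = G.L s (ext w) x := fun _ _ => rfl
  have hoff : ∀ w x, x ∉ B → ext w x = 0 := fun w x hx => dif_neg hx
  have hinj : Function.Injective T := by
    rw [← LinearMap.ker_eq_bot, LinearMap.ker_eq_bot']
    intro w hw
    have h1 : ∀ x ∈ B, G.L s (ext w) x = 0 := by
      intro x hx
      have := congrFun hw ⟨x, hx⟩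
      rwa [hT] at this
    have h2 := G.minp hs0 hs1 hd (ext w) (fun x hx => (hoff w x hx).ge) (fun x hx => (h1 x hx).ge)
    have h3 := G.minp hs0 hs1 hd (fun x => - ext w x) (fun x hx => by rw [hoff w x hx]; simp) (fun x hx => by
      have := h1 x hx
      unfold Gr.L at this ⊢
      rw [sum_neg_distrib]
      linarith)
    ext ⟨x, hx⟩
    have h4 := h2 x
    have h5 := h3 x
    have h6 : ext w x = w ⟨x, hx⟩ := dif_pos hx
    rw [h6] at h4 h5
    simp only [Pi.zero_apply]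
    linarith
  obtain ⟨w, hw⟩ := (LinearMap.injective_iff_surjective.1 hinj) (fun x => b x)
  refine ⟨ext w, fun x hx => hoff w x hx, fun x hx => ?_⟩
  have := congrFun hw ⟨x, hx⟩
  rwa [hT] at this

/-- pairing with `L`: symmetric form -/
theorem Gr.pair {B C : Finset V} (hBC : B ⊆ C) (hC : ∀ x ∈ B, G.nb x ⊆ C) (s : ℝ) (f g : V → ℝ)
    (hf : ∀ x, x ∉ B → f x = 0) :
    ∑ x ∈ B, f x * G.L s g x = s * G.en C f g + (1 - s) * ∑ x ∈ B, G.dg x * (f x * g x) := by
  rw [G.en_eq hBC hC f g hf, mul_sum, mul_sum, ← sum_add_distrib]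
  refine sum_congr rfl fun x _ => ?_
  unfold Gr.L
  ring

theorem Gr.en_comm (C : Finset V) (f g : V → ℝ) : G.en C f g = G.en C g f := by
  unfold Gr.en
  congr 1
  exact sum_congr rfl fun x _ => sum_congr rfl fun y _ => mul_comm _ _

theorem Gr.pair_comm {B C : Finset V} (hBC : B ⊆ C) (hC : ∀ x ∈ B, G.nb x ⊆ C) (s : ℝ) (f g : V → ℝ)
    (hf : ∀ x, x ∉ B → f x = 0) (hg : ∀ x, x ∉ B → g x = 0) :
    ∑ x ∈ B, f x * G.L s g x = ∑ x ∈ B, g x * G.L s f x := by
  rw [G.pair hBC hC s f g hf, G.pair hBC hC s g f hg, G.en_comm]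
  congr 2
  exact sum_congr rfl fun x _ => by ring

/-- the Green function with pole `z` -/
theorem Gr.green {s : ℝ} (hs0 : 0 ≤ s) (hs1 : s < 1) {B : Finset V} (hd : ∀ x ∈ B, (G.nb x).Nonempty) (z : V) :
    ∃ g : V → ℝ, (∀ x, x ∉ B → g x = 0) ∧ (∀ x ∈ B, G.L s g x = if x = z then 1 else 0) ∧ ∀ x, 0 ≤ g x := by
  obtain ⟨g, h1, h2⟩ := G.solve hs0 hs1 hd (fun x => if x = z then 1 else 0)
  refine ⟨g, h1, h2, G.minp hs0 hs1 hd g (fun x hx => (h1 x hx).ge) fun x hx => ?_⟩
  rw [h2 x hx]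
  split_ifs <;> norm_num

/-- upper bound of the Green function at the pole -/
theorem Gr.green_le {s : ℝ} (hs0 : 0 < s) (hs1 : s < 1) {B C : Finset V} (hBC : B ⊆ C) (hC : ∀ x ∈ B, G.nb x ⊆ C)
    {z : V} (hz : z ∈ B) {g : V → ℝ} (h0 : ∀ x, x ∉ B → g x = 0) (h1 : ∀ x ∈ B, G.L s g x = if x = z then 1 else 0)
    (r : ℕ) (hr : G.bl z (r + 1) ⊆ B) (K : ℝ) (hK1 : 8 * r ≤ s * K) (hK2 : 4 ≤ (1 - s) * G.vol (G.bl z (r + 1)) * K)
    (hK0 : 0 ≤ K) : g z ≤ K := by
  have e1 : g z = s * G.en C g g + (1 - s) * ∑ x ∈ B, G.dg x * (g x * g x) := by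
    rw [← G.pair hBC hC s g g h0, sum_congr rfl fun x hx => by rw [h1 x hx]]
    simp only [mul_ite, mul_one, mul_zero]
    rw [sum_ite_eq' B z]
    rw [if_pos hz]
  have hEn := G.en_nonneg C g
  have hsum : 0 ≤ ∑ x ∈ B, G.dg x * (g x * g x) := sum_nonneg fun x _ => mul_nonneg (G.dg_nonneg x) (mul_self_nonneg _)
  have hgz : 0 ≤ g z := by
    rw [e1]
    exact add_nonneg (mul_nonneg hs0.le hEn) (mul_nonneg (by linarith) hsum)
  by_cases hcase : ∀ y ∈ G.bl z (r + 1), g z / 2 ≤ g y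
  · -- large on the ball
    have h2 : G.vol (G.bl z (r + 1)) * (g z / 2) ^ 2 ≤ ∑ x ∈ B, G.dg x * (g x * g x) := by
      unfold Gr.vol
      rw [sum_mul]
      refine (sum_le_sum fun x hx => ?_).trans
        (sum_le_sum_of_subset_of_nonneg hr fun x _ _ => mul_nonneg (G.dg_nonneg x) (mul_self_nonneg _))
      refine mul_le_mul_of_nonneg_left ?_ (G.dg_nonneg x)
      have := hcase x hx
      nlinarith
    have h3 : (1 - s) * (G.vol (G.bl z (r + 1)) * (g z / 2) ^ 2) ≤ g z := by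
      have h4 := mul_le_mul_of_nonneg_left h2 (by linarith : 0 ≤ 1 - s)
      have h5 : 0 ≤ s * G.en C g g := mul_nonneg hs0.le hEn
      linarith
    by_contra hcon
    push Not at hcon
    have h6 : 0 < g z := lt_of_le_of_lt hK0 hcon
    have h7 : (1 - s) * G.vol (G.bl z (r + 1)) * g z ≤ 4 := by
      have h8 : (1 - s) * (G.vol (G.bl z (r + 1)) * (g z / 2) ^ 2) = (1 - s) * G.vol (G.bl z (r + 1)) * g z * g z / 4 := by ring
      rw [h8] at h3
      have h9 : (1 - s) * G.vol (G.bl z (r + 1)) * g z * g z ≤ 4 * g z := by linarith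
      exact le_of_mul_le_mul_right h9 h6
    have hv : 0 < (1 - s) * G.vol (G.bl z (r + 1)) := by
      by_contra hv
      push Not at hv
      have : (1 - s) * G.vol (G.bl z (r + 1)) * K ≤ 0 := mul_nonpos_of_nonpos_of_nonneg hv hK0
      linarith
    have h10 : (1 - s) * G.vol (G.bl z (r + 1)) * K < (1 - s) * G.vol (G.bl z (r + 1)) * g z :=
      mul_lt_mul_of_pos_left hcon hv
    linarith
  · push Not at hcase
    obtain ⟨y, hy, hyg⟩ := hcase
    have h2 := G.osc_en g z r ((G.bl_mono z (Nat.le_succ r)).trans (hr.trans hBC))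
      (fun x hx => hC x (hr (G.bl_mono z (Nat.le_succ r) hx))) hy
    have h3 : (g z / 2) ^ 2 ≤ (g z - g y) ^ 2 := by
      apply pow_le_pow_left₀ (by positivity)
      linarith
    have h4 : s * G.en C g g ≤ g z := by
      have : 0 ≤ (1 - s) * ∑ x ∈ B, G.dg x * (g x * g x) := mul_nonneg (by linarith) hsum
      linarith
    have h5 : s * (g z / 2) ^ 2 ≤ 2 * r * g z := by
      calc s * (g z / 2) ^ 2 ≤ s * (2 * r * G.en C g g) := mul_le_mul_of_nonneg_left (h3.trans h2) hs0.le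
        _ = 2 * r * (s * G.en C g g) := by ring
        _ ≤ 2 * r * g z := mul_le_mul_of_nonneg_left h4 (by positivity)
    by_contra hcon
    push Not at hcon
    have h6 : 0 < g z := lt_of_le_of_lt hK0 hcon
    have h7 : s * g z ≤ 8 * r := by
      have h8 : s * g z * g z ≤ 8 * r * g z := by nlinarith
      exact le_of_mul_le_mul_right h8 h6
    have h9 : s * K < s * g z := mul_lt_mul_of_pos_left hcon hs0
    linarith

/-- lower bound of the Green function at the pole -/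
theorem Gr.green_ge {s : ℝ} (hs0 : 0 ≤ s) (hs1 : s < 1) {B C : Finset V} (hBC : B ⊆ C) (hC : ∀ x ∈ B, G.nb x ⊆ C)
    {z : V} (hz : z ∈ B) {g : V → ℝ} (h0 : ∀ x, x ∉ B → g x = 0) (h1 : ∀ x ∈ B, G.L s g x = if x = z then 1 else 0)
    (f : V → ℝ) (hfz : f z = 1) (hf0 : ∀ x, x ∉ B → f x = 0) (hf1 : ∀ x, |f x| ≤ 1) :
    1 ≤ g z * (s * G.en C f f + (1 - s) * G.vol B) := by
  have e1 : g z = s * G.en C g g + (1 - s) * ∑ x ∈ B, G.dg x * (g x * g x) := by
    rw [← G.pair hBC hC s g g h0, sum_congr rfl fun x hx => by rw [h1 x hx]]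
    simp only [mul_ite, mul_one, mul_zero]
    rw [sum_ite_eq' B z]
    rw [if_pos hz]
  have e2 : 1 = s * G.en C f g + (1 - s) * ∑ x ∈ B, G.dg x * (f x * g x) := by
    rw [← G.pair hBC hC s f g hf0, sum_congr rfl fun x hx => by rw [h1 x hx]]
    simp only [mul_ite, mul_one, mul_zero]
    rw [sum_ite_eq' B z]
    rw [if_pos hz, hfz]
  -- the quadratic form `Q t = (g - t f, L (g - t f)) ≥ 0`
  set A := s * G.en C f f + (1 - s) * ∑ x ∈ B, G.dg x * (f x * f x) with hA
  have key : ∀ t : ℝ, 0 ≤ g z - 2 * t + t ^ 2 * A := by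
    intro t
    have h2 : 0 ≤ s * G.en C (fun x => g x - t * f x) (fun x => g x - t * f x) +
        (1 - s) * ∑ x ∈ B, G.dg x * ((g x - t * f x) * (g x - t * f x)) :=
      add_nonneg (mul_nonneg hs0 (G.en_nonneg C _))
        (mul_nonneg (by linarith) (sum_nonneg fun x _ => mul_nonneg (G.dg_nonneg x) (mul_self_nonneg _)))
    have h3 : G.en C (fun x => g x - t * f x) (fun x => g x - t * f x) =
        G.en C g g - 2 * t * G.en C f g + t ^ 2 * G.en C f f := by
      unfold Gr.en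
      simp only [mul_sum]
      rw [← sum_sub_distrib, ← sum_add_distrib]
      refine sum_congr rfl fun x _ => ?_
      rw [← sum_sub_distrib, ← sum_add_distrib]
      refine sum_congr rfl fun y _ => ?_
      ring
    have h4 : ∑ x ∈ B, G.dg x * ((g x - t * f x) * (g x - t * f x)) =
        ∑ x ∈ B, G.dg x * (g x * g x) - 2 * t * ∑ x ∈ B, G.dg x * (f x * g x) +
          t ^ 2 * ∑ x ∈ B, G.dg x * (f x * f x) := by
      rw [mul_sum, mul_sum, ← sum_sub_distrib, ← sum_add_distrib]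
      exact sum_congr rfl fun x _ => by ring
    rw [h3, h4] at h2
    have h5 : s * (G.en C g g - 2 * t * G.en C f g + t ^ 2 * G.en C f f) + (1 - s) *
        (∑ x ∈ B, G.dg x * (g x * g x) - 2 * t * ∑ x ∈ B, G.dg x * (f x * g x) + t ^ 2 * ∑ x ∈ B, G.dg x * (f x * f x)) =
        (s * G.en C g g + (1 - s) * ∑ x ∈ B, G.dg x * (g x * g x)) -
          2 * t * (s * G.en C f g + (1 - s) * ∑ x ∈ B, G.dg x * (f x * g x)) + t ^ 2 * A := by
      rw [hA]; ring
    rw [h5, ← e1, ← e2] at h2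
    linarith
  have hAle : A ≤ s * G.en C f f + (1 - s) * G.vol B := by
    rw [hA]
    refine add_le_add le_rfl (mul_le_mul_of_nonneg_left ?_ (by linarith))
    unfold Gr.vol
    refine sum_le_sum fun x _ => ?_
    have h6 : f x * f x ≤ 1 := by
      have := hf1 x
      nlinarith [abs_nonneg (f x), abs_mul_abs_self (f x)]
    calc G.dg x * (f x * f x) ≤ G.dg x * 1 := mul_le_mul_of_nonneg_left h6 (G.dg_nonneg x)
      _ = G.dg x := mul_one _
  have hA0 : 0 < A := by
    by_contra h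
    push Not at h
    have h6 := key (g z + 1)
    have h7 : 0 ≤ g z := by
      have := key 0
      simpa using this
    nlinarith [sq_nonneg (g z + 1), mul_nonneg (sq_nonneg (g z + 1)) (neg_nonneg.2 h)]
  have h8 := key (1 / A)
  have h9 : g z - 2 * (1 / A) + (1 / A) ^ 2 * A = g z - 1 / A := by
    field_simp
    ring
  rw [h9] at h8
  have h10 : 1 ≤ g z * A := by
    have : 1 / A ≤ g z := by linarith
    rwa [div_le_iff₀ hA0] at this
  have h11 : 0 ≤ g z := by
    have := key 0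
    simpa using this
  exact h10.trans (mul_le_mul_of_nonneg_left hAle h11)

end Pool.Agent.Lib.IICQ
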