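import Pool.Agent.Lib.MP_06caae_pr.Q.Path

/-!
# Quenched part: the oscillation of the walk, final estimates

`D` is a pseudo-distance (the extrinsic one), `Λ` the finite set in which everything is controlled.
-/

open Finset MeasureTheory

namespace Pool.Agent.Lib.IICQ

variable {V : Type*} [DecidableEq V] {G : Gr V}

theorem Gr.stay {Λ : Finset V} {ρ Δ : ℕ} (N : ℕ) : ∀ (a : V) (j : ℕ) (w : ℕ → V), w 0 ∈ G.bl a ρ → (∀ k ≤ N, w k ∈ Λ) →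
    ¬ G.fast Λ ρ Δ N a j w → ∀ m ≤ N, j + m ≤ Δ → w m ∈ G.bl a ρ := by
  induction N with
  | zero =>
    intro a j w h0 _ _ m hm _
    rw [Nat.le_zero.1 hm]
    exact h0
  | succ N ih =>
    intro a j w h0 hΛ hf m hm hj
    cases m with
    | zero => exact h0
    | succ m =>
      rw [G.fast_succ] at hf
      push Not at hf
      have h1 := hf (hΛ 1 (by omega))
      by_cases h2 : w 1 ∈ G.bl a ρ
      · exact ih a (j + 1) (sh w) h2 (fun k hk => hΛ (k + 1) (by omega)) (h1.1 h2) m (by omega) (by omega)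
      · have := (h1.2 h2).1
        omega

theorem Gr.near {Λ : Finset V} {ρ Δ : ℕ} (hρ : 0 < ρ) (N : ℕ) : ∀ (a : V) (j : ℕ) (w : ℕ → V), w 0 ∈ G.bl a ρ →
    (∀ k ≤ N, w k ∈ Λ) → (∀ k < N, w (k + 1) ∈ G.nb (w k) ∨ w (k + 1) = w k) →
    ¬ G.fast Λ ρ Δ N a j w → ∀ m ≤ N, m ≤ Δ → w m ∈ G.bl a ρ ∨ ∃ b ∈ Λ, b ∈ G.bl a (ρ + 1) ∧ w m ∈ G.bl b ρ := by
  induction N with
  | zero =>
    intro a j w h0 _ _ _ m hm _
    rw [Nat.le_zero.1 hm]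
    exact Or.inl h0
  | succ N ih =>
    intro a j w h0 hΛ hst hf m hm hj
    cases m with
    | zero => exact Or.inl h0
    | succ m =>
      rw [G.fast_succ] at hf
      push Not at hf
      have h1 := hf (hΛ 1 (by omega))
      by_cases h2 : w 1 ∈ G.bl a ρ
      · exact ih a (j + 1) (sh w) h2 (fun k hk => hΛ (k + 1) (by omega)) (fun k hk => hst (k + 1) (by omega)) (h1.1 h2) m
          (by omega) (by omega)
      · have h3 := (h1.2 h2).2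
        have h4 := G.stay N (w 1) 0 (sh w) (G.self_mem_bl _ hρ) (fun k hk => hΛ (k + 1) (by omega)) h3 m (by omega) (by omega)
        refine Or.inr ⟨w 1, hΛ 1 (by omega), ?_, h4⟩
        rcases hst 0 (by omega) with h5 | h5
        · exact G.nb_bl h0 h5
        · rw [zero_add] at h5
          rw [h5] at h2
          exact absurd h0 h2

/-- the deterministic oscillation bound -/
theorem Gr.osc_path {D : V → V → ℝ} (hDs : ∀ x y, D x y = D y x) (hDt : ∀ x y z, D x z ≤ D x y + D y z)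
    {Λ : Finset V} {ρ Δ : ℕ} (hρ : 0 < ρ) {η : ℝ} (hη0 : 0 ≤ η) (hη : ∀ z ∈ Λ, ∀ y ∈ G.bl z (ρ + 1), D z y ≤ η) (N : ℕ) :
    ∀ (a : V) (j : ℕ) (w : ℕ → V), a ∈ Λ → w 0 ∈ G.bl a ρ →
    (∀ k ≤ N, w k ∈ Λ) → (∀ k < N, w (k + 1) ∈ G.nb (w k) ∨ w (k + 1) = w k) →
    ¬ G.fast Λ ρ Δ N a j w → ∀ n m, n ≤ m → m ≤ N → m - n ≤ Δ → D (w n) (w m) ≤ 3 * η := by
  have hη' : ∀ z ∈ Λ, ∀ y ∈ G.bl z ρ, D z y ≤ η := fun z hz y hy => hη z hz y (G.bl_mono z (Nat.le_succ ρ) hy)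
  induction N with
  | zero =>
    intro a j w ha h0 _ _ _ n m hn hm _
    have hm0 : m = 0 := by omega
    have hn0 : n = 0 := by omega
    subst hm0
    subst hn0
    have h1 := hη' a ha _ h0
    have h2 := hDt (w 0) a (w 0)
    rw [hDs (w 0) a] at h2
    linarith
  | succ N ih =>
    intro a j w ha h0 hΛ hst hf n m hn hm hj
    cases n with
    | zero =>
      have h1 := hη' a ha _ h0
      rcases G.near hρ (N + 1) a j w h0 hΛ hst hf m hm (by omega) with h2 | ⟨b, hb, hb1, hb2⟩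
      · have h3 := hη' a ha _ h2
        have h4 := hDt (w 0) a (w m)
        rw [hDs (w 0) a] at h4
        linarith
      · have h3 := hη a ha _ hb1
        have h4 := hη' b hb _ hb2
        have h5 := hDt (w 0) a (w m)
        have h6 := hDt a b (w m)
        rw [hDs (w 0) a] at h5
        linarith
    | succ n =>
      obtain ⟨m', rfl⟩ : ∃ m', m = m' + 1 := ⟨m - 1, by omega⟩
      rw [G.fast_succ] at hf
      push Not at hf
      have h1 := hf (hΛ 1 (by omega))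
      by_cases h2 : w 1 ∈ G.bl a ρ
      · exact ih a (j + 1) (sh w) ha h2 (fun k hk => hΛ (k + 1) (by omega)) (fun k hk => hst (k + 1) (by omega)) (h1.1 h2)
          n m' (by omega) (by omega) (by omega)
      · exact ih (w 1) 0 (sh w) (hΛ 1 (by omega)) (G.self_mem_bl _ hρ) (fun k hk => hΛ (k + 1) (by omega))
          (fun k hk => hst (k + 1) (by omega)) (h1.2 h2).2 n m' (by omega) (by omega) (by omega)

/-- the oscillation estimate for the path measure -/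
theorem IsRW.osc [Countable V] [MeasurableSpace V] [DiscreteMeasurableSpace V] {P : V → Measure (ℕ → V)} (h : IsRW G P)
    {D : V → V → ℝ} (hDs : ∀ x y, D x y = D y x) (hDt : ∀ x y z, D x z ≤ D x y + D y z)
    {Λ : Finset V} {ρ Δ : ℕ} (hρ : 0 < ρ) {η : ℝ} (hη0 : 0 ≤ η) (hη : ∀ z ∈ Λ, ∀ y ∈ G.bl z (ρ + 1), D z y ≤ η)
    (N M : ℕ) (hNM : N ≤ M) {o : V} (ho : o ∈ Λ) :
    (P o).real {w | ∃ n m, n ≤ m ∧ m ≤ N ∧ m - n ≤ Δ ∧ 3 * η < D (w n) (w m)} ≤ G.ex Λ M o + G.J Λ ρ Δ M o 0 o := by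
  have := h.prob o
  rw [← h.exit Λ M o, ← h.fast Λ ρ Δ M o 0 o]
  have h1 : {w : ℕ → V | ∃ n m, n ≤ m ∧ m ≤ N ∧ m - n ≤ Δ ∧ 3 * η < D (w n) (w m)} ∩ {w | w 0 = o} ⊆
      ({w | ∃ k ≤ M, w k ∉ Λ} ∪ {w | G.fast Λ ρ Δ M o 0 w}) ∪
        {w | ∃ k < M, w (k + 1) ∉ G.nb (w k) ∧ w (k + 1) ≠ w k} := by
    rintro w ⟨⟨n, m, hn, hm, hmn, hD⟩, hw⟩
    have hw0 : w 0 = o := hw
    by_contra hcon
    simp only [Set.mem_union, Set.mem_setOf_eq, not_or] at hcon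
    obtain ⟨⟨h2, h3⟩, h4⟩ := hcon
    push Not at h2 h4
    refine absurd (Gr.osc_path hDs hDt hρ hη0 hη M o 0 w ho (by rw [hw0]; exact G.self_mem_bl o hρ) h2 (fun k hk => ?_)
      h3 n m hn (by omega) hmn) (not_le.2 hD)
    by_cases h5 : w (k + 1) ∈ G.nb (w k)
    · exact Or.inl h5
    · exact Or.inr (h4 k hk h5)
  rw [← h.inter_start o]
  calc _ ≤ (P o).real (({w | ∃ k ≤ M, w k ∉ Λ} ∪ {w | G.fast Λ ρ Δ M o 0 w}) ∪
        {w | ∃ k < M, w (k + 1) ∉ G.nb (w k) ∧ w (k + 1) ≠ w k}) := measureReal_mono h1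
    _ ≤ (P o).real ({w | ∃ k ≤ M, w k ∉ Λ} ∪ {w | G.fast Λ ρ Δ M o 0 w}) +
        (P o).real {w | ∃ k < M, w (k + 1) ∉ G.nb (w k) ∧ w (k + 1) ≠ w k} := measureReal_union_le _ _
    _ = (P o).real ({w | ∃ k ≤ M, w k ∉ Λ} ∪ {w | G.fast Λ ρ Δ M o 0 w}) := by rw [h.steps M o, add_zero]
    _ ≤ (P o).real {w | ∃ k ≤ M, w k ∉ Λ} + (P o).real {w | G.fast Λ ρ Δ M o 0 w} := measureReal_union_le _ _

/-- tightness: oscillation estimate from volumes and energies. `Λ = bl o L`.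
Small balls: radius `r1` (short times `Δ`), `r2` (time unit `T`), `r3` (exit from `bl o L` before `m T`). -/
theorem IsRW.tight [Countable V] [MeasurableSpace V] [DiscreteMeasurableSpace V] {P : V → Measure (ℕ → V)} (h : IsRW G P)
    {D : V → V → ℝ} (hDs : ∀ x y, D x y = D y x) (hDt : ∀ x y z, D x z ≤ D x y + D y z) {o : V}
    {L ρ Δ T m : ℕ} (hρ : 0 < ρ) (hΔ : 2 ≤ Δ) (hT : 2 ≤ T) (hm : 1 ≤ m)
    {η : ℝ} (hη0 : 0 ≤ η) (hη : ∀ z ∈ G.bl o L, ∀ y ∈ G.bl z (ρ + 1), D z y ≤ η)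
    (hd : ∀ x ∈ G.bl o (L + ρ), (G.nb x).Nonempty)
    {E : ℝ} (hf : ∀ z ∈ G.bl o L, ∃ f : V → ℝ, f z = 1 ∧ (∀ x, x ∉ G.bl z ρ → f x = 0) ∧ (∀ x, f x ≤ 1) ∧
      G.en (G.bl z (ρ + 1)) f f ≤ E)
    {r1 : ℕ} (hr1 : r1 + 1 ≤ ρ) {K1 : ℝ} (hK1 : 16 * r1 ≤ K1)
    (hV1 : ∀ z ∈ G.bl o L, 4 * Δ ≤ G.vol (G.bl z (r1 + 1)) * K1)
    {r2 : ℕ} (hr2 : r2 + 1 ≤ ρ) {K2 : ℝ} (hK2 : 16 * r2 ≤ K2)
    (hV2 : ∀ z ∈ G.bl o L, 4 * T ≤ G.vol (G.bl z (r2 + 1)) * K2) (hK2E : 4 * (K2 * E) ≤ 1)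
    {r3 : ℕ} (hr3 : r3 + 1 ≤ L) {K3 : ℝ} (hK3 : 16 * r3 ≤ K3)
    (hV3 : 4 * ((m * T : ℕ) : ℝ) ≤ G.vol (G.bl o (r3 + 1)) * K3)
    {E3 : ℝ} (hf3 : ∃ f : V → ℝ, f o = 1 ∧ (∀ x, x ∉ G.bl o L → f x = 0) ∧ (∀ x, f x ≤ 1) ∧
      G.en (G.bl o (L + 1)) f f ≤ E3) (N : ℕ) (hN : N ≤ m * T) :
    (P o).real {w | ∃ n k, n ≤ k ∧ k ≤ N ∧ k - n ≤ Δ ∧ 3 * η < D (w n) (w k)} ≤
      4 * √(K3 * E3) + 4 ^ m * (8 * √(K1 * E)) := by
  have hL : 0 < L := by omega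
  have ho : o ∈ G.bl o L := G.self_mem_bl o hL
  refine (h.osc hDs hDt hρ hη0 hη N (m * T) hN ho).trans (add_le_add ?_ ?_)
  · obtain ⟨f, f1, f2, f3, f4⟩ := hf3
    have hmT : 2 ≤ m * T := by nlinarith
    refine (G.exit_le (G.bl_mono o (Nat.le_succ L)) (fun x hx y hy => G.nb_bl hx hy)
      (fun x hx => hd x (G.bl_mono o (by omega) hx)) ho (m * T) hmT
      r3 (G.bl_mono o hr3) K3 hK3 hV3 f f1 f2 f3).trans ?_
    refine mul_le_mul_of_nonneg_left (Real.sqrt_le_sqrt (mul_le_mul_of_nonneg_left f4 ?_)) (by norm_num)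
    exact le_trans (by positivity) hK3
  · refine G.J_le' hρ hΔ hT ?_ E hf r1 hr1 K1 hK1 hV1 r2 hr2 K2 hK2 hV2 hK2E m ho
    intro z hz x hx
    obtain ⟨L', rfl⟩ : ∃ L', L = L' + 1 := ⟨L - 1, by omega⟩
    obtain ⟨ρ', rfl⟩ : ∃ ρ', ρ = ρ' + 1 := ⟨ρ - 1, by omega⟩
    exact hd x (G.bl_mono o (by omega) (G.bl_trans hz hx))

/-- the range up to a fixed time: from the extrinsic radius of the ball -/
theorem IsRW.range [Countable V] [MeasurableSpace V] [DiscreteMeasurableSpace V] {P : V → Measure (ℕ → V)} (h : IsRW G P)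
    {D : V → V → ℝ} {o : V} {L M : ℕ} (hM : 2 ≤ M) {S : ℝ} (hS : ∀ y ∈ G.bl o L, D o y ≤ S)
    (hd : ∀ x ∈ G.bl o L, (G.nb x).Nonempty)
    {r3 : ℕ} (hr3 : r3 + 1 ≤ L) {K3 : ℝ} (hK3 : 16 * r3 ≤ K3)
    (hV3 : 4 * (M : ℝ) ≤ G.vol (G.bl o (r3 + 1)) * K3)
    {E3 : ℝ} (hf3 : ∃ f : V → ℝ, f o = 1 ∧ (∀ x, x ∉ G.bl o L → f x = 0) ∧ (∀ x, f x ≤ 1) ∧
      G.en (G.bl o (L + 1)) f f ≤ E3) :
    (P o).real {w | ∃ k ≤ M, S < D o (w k)} ≤ 4 * √(K3 * E3) := by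
  have := h.prob o
  have hL : 0 < L := by omega
  have ho : o ∈ G.bl o L := G.self_mem_bl o hL
  have h1 : {w : ℕ → V | ∃ k ≤ M, S < D o (w k)} ⊆ {w | ∃ k ≤ M, w k ∉ G.bl o L} := by
    rintro w ⟨k, hk, hS'⟩
    exact ⟨k, hk, fun hcon => absurd (hS _ hcon) (not_le.2 hS')⟩
  refine (measureReal_mono h1).trans ?_
  rw [h.exit]
  obtain ⟨f, f1, f2, f3, f4⟩ := hf3
  refine (G.exit_le (G.bl_mono o (Nat.le_succ L)) (fun x hx y hy => G.nb_bl hx hy) hd ho M hM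
    r3 (G.bl_mono o hr3) K3 hK3 hV3 f f1 f2 f3).trans ?_
  refine mul_le_mul_of_nonneg_left (Real.sqrt_le_sqrt (mul_le_mul_of_nonneg_left f4 ?_)) (by norm_num)
  exact le_trans (by positivity) hK3

/-- nondegeneracy: the walk visits a given point of the ball of radius `R` with probability at least one half -/
theorem IsRW.reach [Countable V] [MeasurableSpace V] [DiscreteMeasurableSpace V] {P : V → Measure (ℕ → V)} (h : IsRW G P)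
    {o y : V} {L R T : ℕ} (hT : 2 ≤ T) (hRL : R + 1 ≤ L) (hy : y ∈ G.bl o (R + 1))
    (hd : ∀ x ∈ G.bl o L, (G.nb x).Nonempty)
    (f : V → ℝ) (hfy : f y = 1) (hf0 : ∀ x, x ∉ G.bl o L → f x = 0) (hf1 : ∀ x, |f x| ≤ 1)
    (hE : 64 * R * (G.en (G.bl o (L + 1)) f f + G.vol (G.bl o L) / T) ≤ 1) :
    1 / 2 ≤ (P o).real {w | ∃ k ≤ 2 * T, w k = y} := by
  rw [h.hit]
  exact G.hit_ge (G.bl_mono o (Nat.le_succ L)) (fun x hx y hy => G.nb_bl hx hy) hd (G.bl_mono o hRL hy) R T hT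
    (G.bl_mono o (by omega)) hy f hfy hf0 hf1 hE

end Pool.Agent.Lib.IICQ
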